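import Pool.Agent.NLC.Defs

/-!
# NLC-Arith: the final inequality

PLAN.  `Good`: as in NLC-Vals `60 R ≤ n2 ≤ 120 R`, `P = 4R`, `J ≤ n2/2`, `Q ≤ 65 R`, `n B ≤ Q + n`,
`L n ≤ Q < n (L + 1)`, `B = L + 1`.  `D1 := P + S + n (2B + L) + 2 ≤ C R` (`≤ 1000 R`),
`D2 := 2 (B + L) ≤ 4 B` and `n B ≤ 125 R`, so `K ≤ D2 + 1 ≤ 5 B`, `n K ≤ 625 R`.
`H = nrm` bound `≤ 8 q D1 S (B+L) (P B)^4 q^(8Q)`-like `≤ (c₁)^R`, `c₁ = c₁(q)` (polynomial factors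
`≤ 2 ^ (...)`, `R ≤ 2 ^ R`).
Exponent: `t = R/2` (natural division).  If `n ≥ N0` then `K ≤ 625 R / n ≤ R/16`, so
`t - (K-1) ≥ R/4` (for `R ≥ N1`, and `R ≥ n2/120 ≥ n/60` is large), and
`∑ c < K, (R/4 - n c)^+ ≥ c₂ K R`, `c₂ = 10^(-5)`, say: for `c < min (K, R/(8n) + 1)` the term is
`≥ R/8`; number of such `c` ≥ `min (K, R/(8n))` (reals) `≥ min(K, K/5000)` as `n K ≤ 625 R`.
Right side: `(K! ((D1 D2)^K H)^K)^2 ≤ exp (2 K (log K + K log (D1 D2) + R log c₁))`, `log K ≤ R`,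
`K log (D1 D2) ≤ (625 R/n) (log (1000 R) + log (...)) ≤ R` since `R ≤ n2 ≤ n ^ (q+1)` and
`625 (2 (q+1) log n + 20) ≤ n` for `n ≥ N0(q)`.  So right side `≤ exp (2 K R (2 + log c₁))` and
`z > exp (2 (2 + log c₁)/c₂)` makes the left side larger.
-/

namespace Pool.Agent.NLC

open Finset Polynomial

private lemma Arith_lin {x a R : ℕ} (hR : 1 ≤ R) (h : x ≤ a * R) : x ≤ (2 * a) ^ R := by
  calc x ≤ a * R := h
    _ ≤ a ^ R * 2 ^ R := Nat.mul_le_mul (Nat.le_self_pow (by omega) a) (Nat.lt_two_pow_self).le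
    _ = (2 * a) ^ R := by rw [mul_pow, mul_comm]

/-- linear bounds for all parameters -/
private lemma Arith_bounds {p : Par} {n2 : ℕ} (g : Good p n2) :
    1 ≤ p.R ∧ p.S ≤ 64 * p.R ∧ p.Q ≤ 65 * p.R ∧ p.n * p.L ≤ 65 * p.R ∧ p.n * p.B ≤ 125 * p.R ∧
      p.n ≤ 60 * p.R ∧ p.R ≤ n2 ∧ 2 * p.n ≤ n2 ∧ n2 ≤ 119 * p.R := by
  have h1 := g.h2
  have h2 := g.hq
  have h3 := g.hn
  have h4 := g.hn2
  have h5 := g.h60
  have h6 := g.hJ
  have h7 := g.hP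
  have h8 := g.hR
  have h9 := g.hL
  have h10 := g.hB
  have hJ : 2 * p.J ≤ n2 := by
    have hq0 : 0 < p.q := by omega
    suffices key : p.q * (2 * p.J) ≤ p.q * n2 from Nat.le_of_mul_le_mul_left key hq0
    obtain ⟨k, hk⟩ : ∃ k, p.h = k + 1 := ⟨p.h - 1, by omega⟩
    rw [hk, Nat.add_sub_cancel] at h6
    have e1 : k * (2 * p.n) ≤ k * n2 := Nat.mul_le_mul_left _ h4
    have e2 : (k + 2) * n2 ≤ p.q * n2 := Nat.mul_le_mul_right _ (by omega)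
    nlinarith
  have hR1 : 1 ≤ p.R := by omega
  have hnL : p.n * p.L ≤ p.Q := by
    rw [h9]
    exact Nat.mul_div_le _ _
  have hQ : p.Q = p.P + p.J + p.R := rfl
  have hS : p.S = p.P + p.J := rfl
  have hnB : p.n * p.B = p.n * p.L + p.n := by rw [h10, Nat.mul_add, Nat.mul_one]
  refine ⟨hR1, by omega, by omega, by omega, by omega, by omega, by omega, h4, by omega⟩

private lemma Arith_sum {R K n : ℕ} (hn : 1 ≤ n) (hK : 1 ≤ K) (h1 : n * K ≤ 440 * R)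
    (h2 : 32 * K ≤ R) : K * R ≤ 28160 * ∑ c ∈ range K, (R / 2 - (K - 1) - n * c) := by
  obtain ⟨m, hm⟩ : ∃ m, m = min K (R / (8 * n) + 1) := ⟨_, rfl⟩
  have hmK : m ≤ K := by rw [hm]; exact min_le_left _ _
  have h3 : m * R ≤ 8 * ∑ c ∈ range K, (R / 2 - (K - 1) - n * c) := by
    rw [Finset.mul_sum]
    have h4 : ∑ c ∈ range m, 8 * (R / 2 - (K - 1) - n * c) ≤
        ∑ c ∈ range K, 8 * (R / 2 - (K - 1) - n * c) :=
      Finset.sum_le_sum_of_subset (Finset.range_subset_range.2 hmK)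
    refine le_trans ?_ h4
    have h5 : ∀ c ∈ range m, R ≤ 8 * (R / 2 - (K - 1) - n * c) := by
      intro c hc
      rw [Finset.mem_range] at hc
      have h6 : c ≤ R / (8 * n) := by
        have : m ≤ R / (8 * n) + 1 := by rw [hm]; exact min_le_right _ _
        omega
      have h7 : 8 * n * c ≤ R := by
        refine le_trans (Nat.mul_le_mul_left _ h6) ?_
        exact Nat.mul_div_le _ _
      rw [mul_assoc] at h7
      omega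
    have h8 := Finset.card_nsmul_le_sum (range m) (fun c => 8 * (R / 2 - (K - 1) - n * c)) R h5
    rw [Finset.card_range, smul_eq_mul] at h8
    exact h8
  have h9 : K ≤ 3520 * m := by
    rcases le_total K (R / (8 * n) + 1) with h | h
    · rw [hm, min_eq_left h]
      omega
    · rw [hm, min_eq_right h]
      have h11 : 0 < 8 * n := by omega
      have h10 : R < 8 * n * (R / (8 * n) + 1) := Nat.lt_mul_div_succ R h11
      suffices key : n * K ≤ n * (3520 * (R / (8 * n) + 1)) from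
        Nat.le_of_mul_le_mul_left key (by omega)
      obtain ⟨a, ha⟩ : ∃ a, a = R / (8 * n) + 1 := ⟨_, rfl⟩
      rw [← ha] at h10 ⊢
      nlinarith
  calc K * R ≤ 3520 * m * R := Nat.mul_le_mul_right _ h9
    _ = 3520 * (m * R) := by ring
    _ ≤ 3520 * (8 * ∑ c ∈ range K, (R / 2 - (K - 1) - n * c)) := Nat.mul_le_mul_left _ h3
    _ = 28160 * ∑ c ∈ range K, (R / 2 - (K - 1) - n * c) := by ring

private lemma Arith_pw {D K n R q : ℕ} (hn : 1 ≤ n) (h1 : n * K ≤ 440 * R)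
    (hD : D ≤ 192500 * (R * R)) (hR : R ≤ n ^ (q + 1)) :
    D ^ K ≤ (192500 ^ 440 * 2 ^ (880 * (q + 1))) ^ R := by
  have hK : K ≤ 440 * R := le_trans (Nat.le_mul_of_pos_left K hn) h1
  have e1 : D ^ K ≤ 192500 ^ K * (R * R) ^ K := by
    rw [← mul_pow]
    exact Nat.pow_le_pow_left hD K
  have e2 : 192500 ^ K ≤ (192500 ^ 440) ^ R := by
    rw [← pow_mul]
    exact Nat.pow_le_pow_right (by norm_num) hK
  have e3 : (R * R) ^ K ≤ (2 ^ (880 * (q + 1))) ^ R := by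
    calc (R * R) ^ K ≤ (n ^ (q + 1) * n ^ (q + 1)) ^ K :=
          Nat.pow_le_pow_left (Nat.mul_le_mul hR hR) K
      _ = n ^ (2 * (q + 1) * K) := by
          rw [← pow_add, ← pow_mul]
          congr 1
          ring
      _ ≤ (2 ^ n) ^ (2 * (q + 1) * K) := Nat.pow_le_pow_left (Nat.lt_two_pow_self).le _
      _ = 2 ^ (2 * (q + 1) * (n * K)) := by
          rw [← pow_mul]
          congr 1
          ring
      _ ≤ 2 ^ (2 * (q + 1) * (440 * R)) :=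
          Nat.pow_le_pow_right (by norm_num) (Nat.mul_le_mul_left _ h1)
      _ = (2 ^ (880 * (q + 1))) ^ R := by
          rw [← pow_mul]
          congr 1
          ring
  refine e1.trans ((Nat.mul_le_mul e2 e3).trans (le_of_eq ?_))
  rw [mul_pow]

theorem arith (q : ℕ) : ∃ Z0 N0 : ℕ, ∀ (p : Par) (n2 : ℕ), p.q = q → Good p n2 → N0 ≤ p.n →
    n2 ≤ p.n ^ (q + 1) → ∀ z : ℤ, (Z0 : ℤ) ≤ z → ∀ K : ℕ, 1 ≤ K → K ≤ 2 * (p.B + p.L) + 1 →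
    (K.factorial * ((((p.P + p.S + p.n * (2 * p.B + p.L) + 2 : ℕ) : ℤ) *
        ((2 * (p.B + p.L) : ℕ) : ℤ)) ^ K *
      (8 * p.q * (p.P + p.S + p.n * (2 * p.B + p.L) + 2) *
      ((p.P * p.B * (p.P * p.B * (p.q : ℤ) ^ (2 * p.Q)) * (p.q : ℤ) ^ (2 * p.Q)) *
        (p.S * (p.B + p.L) * (p.P * p.B * (p.P * p.B * (p.q : ℤ) ^ (2 * p.Q)) *
          (p.q : ℤ) ^ (2 * p.Q)))))) ^ K) ^ 2 <
      z ^ (∑ c ∈ range K, (p.R / 2 - (K - 1) - p.n * c)) := by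
  obtain ⟨c2, hc2⟩ : ∃ c2 : ℕ, c2 = 192500 ^ 440 * 2 ^ (880 * (q + 1)) := ⟨_, rfl⟩
  obtain ⟨Y, hY⟩ : ∃ Y : ℕ, Y = q ^ 130 := ⟨_, rfl⟩
  obtain ⟨c3, hc3⟩ : ∃ c3 : ℕ, c3 = 8 * q * 770 * ((8 * 250 * (8 * 250 * Y) * Y) *
    (128 * 500 * (8 * 250 * (8 * 250 * Y) * Y))) := ⟨_, rfl⟩
  obtain ⟨c, hc⟩ : ∃ c : ℕ, c = 880 * (c2 * c3) := ⟨_, rfl⟩
  obtain ⟨M, hM⟩ : ∃ M : ℕ, M = 28160 := ⟨_, rfl⟩
  refine ⟨c ^ (2 * M) + 1, 14080, ?_⟩
  intro p n2 hq g hn0 hn2 z hz K hK1 hK2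
  obtain ⟨hR1, hS, hQ, hnL, hnB, hnR, hRn2, hnn2, -⟩ := Arith_bounds g
  have hn1 : 1 ≤ p.n := g.hn
  have hP : p.P = 4 * p.R := g.hP
  have hLB : p.B = p.L + 1 := g.hB
  have hB : p.B ≤ 125 * p.R := le_trans (Nat.le_mul_of_pos_left _ hn1) hnB
  have hnK : p.n * K ≤ 440 * p.R := by
    have e : p.n * K ≤ p.n * (4 * p.L + 3) := Nat.mul_le_mul_left _ (by omega)
    have e2 : p.n * (4 * p.L + 3) = 4 * (p.n * p.L) + 3 * p.n := by ring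
    omega
  have hK : K ≤ 440 * p.R := le_trans (Nat.le_mul_of_pos_left _ hn1) hnK
  have h32 : 32 * K ≤ p.R := by
    have e : 14080 * K ≤ p.n * K := Nat.mul_le_mul_right _ hn0
    omega
  have hsum := Arith_sum hn1 hK1 hnK h32
  rw [← hM] at hsum
  obtain ⟨Sg, hSg⟩ : ∃ Sg, Sg = ∑ c ∈ range K, (p.R / 2 - (K - 1) - p.n * c) := ⟨_, rfl⟩
  rw [← hSg] at hsum ⊢
  obtain ⟨D1, hD1⟩ : ∃ D1, D1 = p.P + p.S + p.n * (2 * p.B + p.L) + 2 := ⟨_, rfl⟩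
  obtain ⟨D2, hD2⟩ : ∃ D2, D2 = 2 * (p.B + p.L) := ⟨_, rfl⟩
  have hD1' : D1 ≤ 385 * p.R := by
    have e2 : p.n * (2 * p.B + p.L) = 2 * (p.n * p.B) + p.n * p.L := by ring
    omega
  have hD2' : D2 ≤ 500 * p.R := by omega
  have hRn : p.R ≤ p.n ^ (q + 1) := hRn2.trans hn2
  have hDD : D1 * D2 ≤ 192500 * (p.R * p.R) := by
    calc D1 * D2 ≤ (385 * p.R) * (500 * p.R) := Nat.mul_le_mul hD1' hD2'
      _ = 192500 * (p.R * p.R) := by ring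
  have hpw : (D1 * D2) ^ K ≤ c2 ^ p.R := by
    rw [hc2]
    exact Arith_pw hn1 hnK hDD hRn
  have hq2 : 2 ≤ q := by
    have := g.h2
    have := g.hq
    omega
  have bP : p.P ≤ 8 ^ p.R := Arith_lin (a := 4) hR1 (by omega)
  have bB : p.B ≤ 250 ^ p.R := Arith_lin (a := 125) hR1 (by omega)
  have bS : p.S ≤ 128 ^ p.R := Arith_lin (a := 64) hR1 (by omega)
  have bBL : p.B + p.L ≤ 500 ^ p.R := Arith_lin (a := 250) hR1 (by omega)
  have bD1 : D1 ≤ 770 ^ p.R := Arith_lin (a := 385) hR1 (by omega)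
  have bK : K ≤ 880 ^ p.R := Arith_lin (a := 440) hR1 (by omega)
  have b8 : 8 ≤ 8 ^ p.R := Nat.le_self_pow (by omega) 8
  have bq : q ≤ q ^ p.R := Nat.le_self_pow (by omega) q
  have bY : q ^ (2 * p.Q) ≤ Y ^ p.R := by
    rw [hY, ← pow_mul]
    exact Nat.pow_le_pow_right (by omega) (by omega)
  have hH : 8 * q * D1 * ((p.P * p.B * (p.P * p.B * q ^ (2 * p.Q)) * q ^ (2 * p.Q)) *
      (p.S * (p.B + p.L) * (p.P * p.B * (p.P * p.B * q ^ (2 * p.Q)) * q ^ (2 * p.Q)))) ≤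
      c3 ^ p.R := by
    have e : c3 ^ p.R = 8 ^ p.R * q ^ p.R * 770 ^ p.R * ((8 ^ p.R * 250 ^ p.R *
        (8 ^ p.R * 250 ^ p.R * Y ^ p.R) * Y ^ p.R) * (128 ^ p.R * 500 ^ p.R *
        (8 ^ p.R * 250 ^ p.R * (8 ^ p.R * 250 ^ p.R * Y ^ p.R) * Y ^ p.R))) := by
      rw [hc3]
      simp only [mul_pow]
    rw [e]
    have bPB : p.P * p.B ≤ 8 ^ p.R * 250 ^ p.R := Nat.mul_le_mul bP bB
    have b1 : p.P * p.B * (p.P * p.B * q ^ (2 * p.Q)) * q ^ (2 * p.Q) ≤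
        8 ^ p.R * 250 ^ p.R * (8 ^ p.R * 250 ^ p.R * Y ^ p.R) * Y ^ p.R :=
      Nat.mul_le_mul (Nat.mul_le_mul bPB (Nat.mul_le_mul bPB bY)) bY
    exact Nat.mul_le_mul (Nat.mul_le_mul (Nat.mul_le_mul b8 bq) bD1)
      (Nat.mul_le_mul b1 (Nat.mul_le_mul (Nat.mul_le_mul bS bBL) b1))
  obtain ⟨H, hHd⟩ : ∃ H, H = 8 * q * D1 * ((p.P * p.B * (p.P * p.B * q ^ (2 * p.Q)) *
      q ^ (2 * p.Q)) * (p.S * (p.B + p.L) * (p.P * p.B * (p.P * p.B * q ^ (2 * p.Q)) *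
      q ^ (2 * p.Q)))) := ⟨_, rfl⟩
  rw [← hHd] at hH
  have hmain : (K.factorial * ((D1 * D2) ^ K * H) ^ K) ^ 2 ≤ c ^ (2 * (K * p.R)) := by
    have e1 : K.factorial ≤ (880 ^ p.R) ^ K :=
      (Nat.factorial_le_pow K).trans (Nat.pow_le_pow_left bK K)
    have e2 : ((D1 * D2) ^ K * H) ^ K ≤ (c2 ^ p.R * c3 ^ p.R) ^ K :=
      Nat.pow_le_pow_left (Nat.mul_le_mul hpw hH) K
    have e3 : (880 ^ p.R) ^ K * (c2 ^ p.R * c3 ^ p.R) ^ K = c ^ (K * p.R) := by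
      rw [← mul_pow, ← mul_pow, ← mul_pow, ← hc, ← pow_mul, mul_comm p.R K]
    calc (K.factorial * ((D1 * D2) ^ K * H) ^ K) ^ 2 ≤ (c ^ (K * p.R)) ^ 2 := by
          rw [← e3]
          exact Nat.pow_le_pow_left (Nat.mul_le_mul e1 e2) 2
      _ = c ^ (2 * (K * p.R)) := by
          rw [← pow_mul, mul_comm]
  have hq0 : 0 < q := by omega
  have hY1 : 0 < Y := by rw [hY]; exact Nat.pow_pos hq0
  have hc2' : 0 < c2 := by
    rw [hc2]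
    exact Nat.mul_pos (Nat.pow_pos (by norm_num)) (Nat.pow_pos (by norm_num))
  have hA : 0 < 8 * 250 * (8 * 250 * Y) * Y :=
    Nat.mul_pos (Nat.mul_pos (by norm_num) (Nat.mul_pos (by norm_num) hY1)) hY1
  have hc3' : 0 < c3 := by
    rw [hc3]
    exact Nat.mul_pos (Nat.mul_pos (Nat.mul_pos (by norm_num) hq0) (by norm_num))
      (Nat.mul_pos hA (Nat.mul_pos (by norm_num) hA))
  have hc1 : 1 ≤ c := by
    rw [hc]
    exact Nat.mul_pos (by norm_num) (Nat.mul_pos hc2' hc3')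
  have hSg1 : Sg ≠ 0 := by
    intro h0
    rw [h0, mul_zero] at hsum
    have : 0 < K * p.R := Nat.mul_pos hK1 hR1
    omega
  have hfin : (K.factorial * ((D1 * D2) ^ K * H) ^ K) ^ 2 < (c ^ (2 * M) + 1) ^ Sg := by
    refine lt_of_le_of_lt hmain ?_
    calc c ^ (2 * (K * p.R)) ≤ c ^ (2 * (M * Sg)) :=
          Nat.pow_le_pow_right hc1 (Nat.mul_le_mul_left _ hsum)
      _ = (c ^ (2 * M)) ^ Sg := by
          rw [← pow_mul]
          congr 1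
          ring
      _ < (c ^ (2 * M) + 1) ^ Sg := Nat.pow_lt_pow_left (Nat.lt_succ_self _) hSg1
  have hz2 : (((c ^ (2 * M) + 1) ^ Sg : ℕ) : ℤ) ≤ z ^ Sg := by
    rw [Nat.cast_pow]
    exact pow_le_pow_left₀ (Int.natCast_nonneg _) hz Sg
  refine lt_of_lt_of_le ?_ hz2
  have e : (K.factorial * ((((p.P + p.S + p.n * (2 * p.B + p.L) + 2 : ℕ) : ℤ) *
        ((2 * (p.B + p.L) : ℕ) : ℤ)) ^ K *
      (8 * p.q * (p.P + p.S + p.n * (2 * p.B + p.L) + 2) *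
      ((p.P * p.B * (p.P * p.B * (p.q : ℤ) ^ (2 * p.Q)) * (p.q : ℤ) ^ (2 * p.Q)) *
        (p.S * (p.B + p.L) * (p.P * p.B * (p.P * p.B * (p.q : ℤ) ^ (2 * p.Q)) *
          (p.q : ℤ) ^ (2 * p.Q)))))) ^ K) ^ 2 =
      (((K.factorial * ((D1 * D2) ^ K * H) ^ K) ^ 2 : ℕ) : ℤ) := by
    rw [hHd, hD1, hD2, hq]
    push_cast
    rfl
  rw [e]
  exact_mod_cast hfin

end Pool.Agent.NLC
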