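import Pool.Agent.NLG.Kap
import Pool.Agent.NLG.Thet
import Pool.Agent.NL.Defs

/-!
# NLC: composite lengths in the Nagell-Ljunggren equation - definitions

`z` is the base, `n` the shorter length (`u ^ q = rep z n`), `w = z ^ n`, `t = y u ^ (h-1)`,
`t ^ q (z-1) ^ h = (z ^ n2 - 1) (w - 1) ^ (h-1)`, `q J = (n2 - 1) + (h-1) (n-1)`.
`T(z,w) = z ^ J (1 - 1/z) ^ (-h/q) (1 - 1/w) ^ ((h-1)/q)`.
Form `G = A T + B0`, `A = ∑ A i β z ^ (P-1-i - n β) w ^ β` (`i < P`, `β < B`).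
Paper proof: /team-store/e172_h43.md.
-/

namespace Pool.Agent.NLC

open Finset Polynomial
open Pool.Agent.NLG (KZ kap)

/-- The parameters: exponent `q`, `h = 1 + s`, `J`, `n`, the numbers `P` of powers of `z` and `B` of
powers of `w` in `A`, the order `R` of smallness at infinity, `L` (powers `w ^ (-L)` may occur). -/
structure Par where
  q : ℕ
  h : ℕ
  J : ℕ
  n : ℕ
  P : ℕ
  R : ℕ
  B : ℕ
  L : ℕ

/-- The number of non-negative weights. -/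
def Par.S (p : Par) : ℕ := p.P + p.J

/-- The total order. -/
def Par.Q (p : Par) : ℕ := p.P + p.J + p.R

/-- The coefficient of `z ^ (ρ - n b') w ^ b'`, `ρ = S - 1 - r`, `b' = j - L`, in `q ^ (2 Q) A T`. -/
noncomputable def gZ (p : Par) (A : ℕ → ℕ → ℤ) (r j : ℕ) : ℤ :=
  ∑ β ∈ range p.B, ∑ i ∈ range p.P,
    if j ≤ β + p.L ∧ i + p.n * (β + p.L - j) ≤ r then
      A i β * KZ p.q (-p.h) (r - i - p.n * (β + p.L - j)) * KZ p.q (p.h - 1) (β + p.L - j) *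
        (p.q : ℤ) ^ (2 * (p.Q - (r - i - p.n * (β + p.L - j)) - (β + p.L - j)))
    else 0

/-- `q ^ (2 l)` times the coefficient of `τ ^ l` in `(z(τ)/z) ^ e ((z(τ)-1)/(z-1)) ^ (-h/q)`,
`z(τ) = z (1 - (z-1) τ)`, `e = m - n β + J + h/q`. -/
noncomputable def E1 (p : Par) (z : ℤ) (m β l : ℕ) : ℤ :=
  ∑ k ∈ range (l + 1), KZ p.q (p.q * ((m : ℤ) - p.n * β + p.J) + p.h) k * (z - 1) ^ k *
    (KZ p.q (-p.h) (l - k) * z ^ (l - k))

/-- `q ^ (2 l)` times the coefficient of `σ ^ l` in `(w(σ)/w) ^ (β - s/q) ((w(σ)-1)/(w-1)) ^ (s/q)`,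
`w(σ) = w (1 - (w-1) σ)`, `s = h - 1`. -/
noncomputable def E2 (p : Par) (w : ℤ) (β l : ℕ) : ℤ :=
  ∑ k ∈ range (l + 1), KZ p.q ((p.q : ℤ) * β - (p.h - 1)) k * (w - 1) ^ k *
    (KZ p.q (p.h - 1) (l - k) * w ^ (l - k))

/-- The part of the value of the derivative with `t`. -/
noncomputable def vA (p : Par) (A : ℕ → ℕ → ℤ) (z w : ℤ) (l₁ l₂ : ℕ) : ℤ :=
  ∑ i ∈ range p.P, ∑ β ∈ range p.B, A i β * (p.q : ℤ) ^ (2 * p.Q) * z ^ (p.P - 1 - i) *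
    E1 p z (p.P - 1 - i) β l₁ * E2 p w β l₂

/-- The polynomial part (with the opposite sign). -/
noncomputable def vB (p : Par) (A : ℕ → ℕ → ℤ) (z w : ℤ) (l₁ l₂ : ℕ) : ℤ :=
  ∑ r ∈ range p.S, ∑ j ∈ range (p.B + p.L), gZ p A r j * z ^ (p.S - 1 - r) *
    (KZ p.q (p.q * (((p.S - 1 - r : ℕ) : ℤ) - p.n * ((j : ℤ) - p.L))) l₁ * (z - 1) ^ l₁) *
    (KZ p.q (p.q * ((j : ℤ) - p.L)) l₂ * (w - 1) ^ l₂)

/-- `q ^ (2 (l₁ + l₂))` times the coefficient of `τ ^ l₁ σ ^ l₂` of the form at the point. -/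
noncomputable def vv (p : Par) (A : ℕ → ℕ → ℤ) (z w t : ℤ) (l₁ l₂ : ℕ) : ℤ :=
  t * vA p A z w l₁ l₂ - vB p A z w l₁ l₂

/-- `q ^ (2 Q) A` times `z ^ (n (B-1)) w ^ L`, a polynomial in `z` (outer) and `w` (inner variable). -/
noncomputable def AP (p : Par) (A : ℕ → ℕ → ℤ) : ℤ[X][X] :=
  ∑ i ∈ range p.P, ∑ β ∈ range p.B,
    monomial (p.P - 1 - i + p.n * (p.B - 1 - β)) (monomial (β + p.L) ((p.q : ℤ) ^ (2 * p.Q) * A i β))

/-- The polynomial part, times `z ^ (n (B-1)) w ^ L`. -/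
noncomputable def BP (p : Par) (A : ℕ → ℕ → ℤ) : ℤ[X][X] :=
  - ∑ r ∈ range p.S, ∑ j ∈ range (p.B + p.L),
    monomial (p.S - 1 - r + p.n * (p.B + p.L - 1 - j)) (monomial j (gZ p A r j))

/-- The Wronskian (with respect to `z`) of `A T` and `B0`, divided by `T`. -/
noncomputable def NN (p : Par) (A : ℕ → ℕ → ℤ) : ℤ[X][X] :=
  C (C (p.q : ℤ)) * (X * (X - 1)) * (BP p A * derivative (AP p A) - AP p A * derivative (BP p A)) +
    AP p A * BP p A * (C (C ((p.q : ℤ) * p.J)) * (X - 1) - C (C (p.h : ℤ)))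

/-- `∑ i ^ a j ^ b c_ij z ^ i w ^ j` for `N = ∑ c_ij z ^ i w ^ j`. -/
noncomputable def mom (z w : ℤ) (N : ℤ[X][X]) (a b : ℕ) : ℤ :=
  N.sum fun i f => (i : ℤ) ^ a * z ^ i * f.sum fun j c => (j : ℤ) ^ b * w ^ j * c

/-- The sum of the absolute values of the coefficients. -/
noncomputable def nrm (N : ℤ[X][X]) : ℤ := N.sum fun _ f => f.sum fun _ c => |c|

/-- The choice of the parameters, `n2` the longer length. -/
structure Good (p : Par) (n2 : ℕ) : Prop where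
  h2 : 2 ≤ p.h
  hq : p.h < p.q
  hn : 1 ≤ p.n
  hn2 : 2 * p.n ≤ n2
  h60 : 60 ≤ n2
  hJ : p.q * p.J + p.h = n2 + (p.h - 1) * p.n
  hP : p.P = 4 * p.R
  hR : p.R = n2 / 60
  hL : p.L = p.Q / p.n
  hB : p.B = p.L + 1

end Pool.Agent.NLC
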