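import Pool.Agent.NL.Defs

/-!
# NLC-Reduce: composite lengths give a second q-th power repunit

PLAN.  `rep z (a c) = rep z a * rep (z^a) c` (`NL.rep_mul_eq`), `gcd (rep z a) (rep (z^a) c) =
gcd (rep z a) c` (`z^a ≡ 1` mod `rep z a`).  If this gcd is 1 both factors are `q`-th powers
(`Nat.eq_pow_of_mul_eq_pow` / `exists_associated_pow_of_mul_eq_pow`).  `b = minFac n`, `n = b^k n'`.
(i) `¬ b ∣ z - 1`: `a = n / b`, `c = b`.  If `b ∣ rep z a ∣ z^a - 1` then the order of `z` mod `b` divides
`a` and `b - 1`; all prime factors of `a` are `≥ b`, so `gcd a (b-1) = 1`, `b ∣ z - 1`: contradiction.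
`a ≥ b` (`n` not prime), `a ≥ 3` (`a = 2` gives `n = 4`), `n = a b ≤ a^2 ≤ a^(q+1)`.
(ii) `b ∣ z - 1`, `b` odd: `v_b (rep z n) = v_b n = k` (LTE; `NL/Reduce.lean` `rd_lte` (private, copy)), a
multiple of `q`, `k ≥ q`; `n ≠ b^q`, so `a = n / b^q > 1`, `a ≥ 3`, `v_b (rep z a) = k - q ≡ 0 mod q`.
The other primes do not divide both factors (they would divide `c = b^q`).  So with
`rep z a = b^(q e) R'`, `b ∤ R'`: `R'` is coprime to `rep (z^a) (b^q)`, `(y / b^e)^q = R' * rep (z^a)(b^q)`,
`R'` is a `q`-th power.  `n ≤ a^(q+1)`: if `k = q` then `a = n'` has all prime factors `> b`, so `a > b`;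
if `k ≥ 2q` then `a ≥ b^q`.
(iii) `b = 2`, `z` odd, `n = 2^k n'`, `n' ≥ 3` odd (`n` is not a power of 2).  `k ≤ q`: `a = n'`, `rep z n'`
is odd, `c = 2^k`, coprime, `n ≤ 2^q n' ≤ n'^(q+1)`.  `k > q`: `a = n / 2^q`, `X = z^a ≡ 1 mod 4`,
`v_2 (rep X (2^q)) = q` (`rep X (2^(i+1)) = rep X (2^i) (X^(2^i) + 1)`), so `v_2 (rep z a) ≡ v_2 (y^q) ≡ 0`
mod `q`, and continue as in (ii); `a ≥ 2 n' ≥ 6`, `n = 2^q a ≤ a^(q+1)`.
-/

namespace Pool.Agent.NLC

open Finset

private theorem rc_isPow {m q : ℕ} (hm : m ≠ 0) (h : ∀ p, q ∣ m.factorization p) :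
    ∃ w, m = w ^ q := by
  refine ⟨m.factorization.prod fun p k => p ^ (k / q), ?_⟩
  conv_lhs => rw [← Nat.prod_factorization_pow_eq_self hm]
  unfold Finsupp.prod
  rw [← Finset.prod_pow]
  refine Finset.prod_congr rfl fun p _ => ?_
  rw [← pow_mul, Nat.div_mul_cancel (h p)]

private theorem rc_cast_one {l x : ℕ} (h : (x : ZMod l) = 1) (n : ℕ) :
    ((NL.rep x n : ℕ) : ZMod l) = n := by
  unfold NL.rep
  push_cast
  rw [h]
  simp

/-- lifting the exponent -/
private theorem rc_lte {P x n : ℕ} (hP : P.Prime) (hP2 : P ≠ 2) (hx : 1 < x) (h : P ∣ x - 1)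
    (hn : n ≠ 0) : (NL.rep x n).factorization P = n.factorization P := by
  have : Fact P.Prime := ⟨hP⟩
  have hxP : ¬ P ∣ x := by
    intro hd
    have h1 : P ∣ x - (x - 1) := Nat.dvd_sub hd h
    have h2 : x - (x - 1) = 1 := by omega
    rw [h2] at h1
    exact hP.one_lt.ne' (Nat.dvd_one.1 h1)
  have h1 := padicValNat.pow_sub_pow (p := P) (hP.odd_of_ne_two hP2) hx h hxP hn
  rw [one_pow] at h1
  have h2 := NL.rep_mul (by omega : 1 ≤ x) n
  have h3 : x ^ n - 1 = NL.rep x n * (x - 1) := by omega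
  rw [h3, padicValNat.mul (NL.rep_pos (Nat.one_le_iff_ne_zero.2 hn)).ne' (by omega)] at h1
  rw [Nat.factorization_def _ hP, Nat.factorization_def _ hP]
  omega

/-- `z^a ≡ 1` modulo a divisor of `rep z a` -/
private theorem rc_one {z a l : ℕ} (hz : 2 ≤ z) (hd : l ∣ NL.rep z a) :
    ((z : ZMod l)) ^ a = 1 := by
  have h1 : ((NL.rep z a : ℕ) : ZMod l) = 0 := (ZMod.natCast_eq_zero_iff _ _).2 hd
  have h2 := NL.rep_mul (by omega : 1 ≤ z) a
  have h3 := congrArg (Nat.cast (R := ZMod l)) h2
  push_cast at h3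
  rw [h1, zero_mul, zero_add] at h3
  exact h3.symm

private theorem rc_split {z n a c : ℕ} (hz : 2 ≤ z) (ha : 1 ≤ a) (hc : 1 ≤ c) (hn : n = a * c)
    (l : ℕ) : (NL.rep z n).factorization l =
      (NL.rep z a).factorization l + (NL.rep (z ^ a) c).factorization l := by
  rw [hn, NL.rep_mul_eq, Nat.factorization_mul (NL.rep_pos ha).ne' (NL.rep_pos hc).ne',
    Finsupp.add_apply]

/-- primes not dividing the cofactor -/
private theorem rc_away {q z n a c l : ℕ} (hz : 2 ≤ z) (ha : 1 ≤ a) (hc : 1 ≤ c) (hn : n = a * c)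
    (hv : q ∣ (NL.rep z n).factorization l) (hl : ¬ l ∣ c) :
    q ∣ (NL.rep z a).factorization l := by
  by_cases hd : l ∣ NL.rep z a
  · have h1 : ¬ l ∣ NL.rep (z ^ a) c := by
      intro h2
      have h3 : ((z ^ a : ℕ) : ZMod l) = 1 := by
        push_cast
        exact rc_one hz hd
      have h4 := (ZMod.natCast_eq_zero_iff _ _).2 h2
      rw [rc_cast_one h3, ZMod.natCast_eq_zero_iff] at h4
      exact hl h4
    rw [rc_split hz ha hc hn, Nat.factorization_eq_zero_of_not_dvd h1, add_zero] at hv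
    exact hv
  · rw [Nat.factorization_eq_zero_of_not_dvd hd]
    exact dvd_zero _

private theorem rc_fin {q z n a b c : ℕ} (hz : 2 ≤ z) (ha : 1 ≤ a) (hc : 1 ≤ c) (hn : n = a * c)
    (hv : ∀ l, q ∣ (NL.rep z n).factorization l) (hcb : ∀ l : ℕ, l.Prime → l ∣ c → l = b)
    (hb : q ∣ (NL.rep z a).factorization b) : ∃ u, u ^ q = NL.rep z a := by
  obtain ⟨w, hw⟩ := rc_isPow (NL.rep_pos (x := z) ha).ne' (q := q) (by
    intro l
    by_cases hp : l.Prime
    · by_cases hl : l ∣ c
      · rw [hcb l hp hl]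
        exact hb
      · exact rc_away hz ha hc hn (hv l) hl
    · rw [Nat.factorization_eq_zero_of_not_prime _ hp]
      exact dvd_zero _)
  exact ⟨w, hw.symm⟩

private theorem rc_two {X : ℕ} (hX : X % 4 = 1) (j : ℕ) :
    (NL.rep X (2 ^ j)).factorization 2 = j := by
  induction j with
  | zero =>
    rw [pow_zero, NL.rep_one]
    simp
  | succ i ih =>
    have h1 : X ^ 2 ^ i % 4 = 1 := by
      simp [Nat.pow_mod, hX]
    have h2 : NL.rep (X ^ 2 ^ i) 2 = 1 + X ^ 2 ^ i := by
      unfold NL.rep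
      simp [Finset.sum_range_succ]
    have h3 : (1 + X ^ 2 ^ i).factorization 2 = 1 := by
      set Y := X ^ 2 ^ i with hY
      have h4 : 1 + Y = 2 * (2 * (Y / 4) + 1) := by omega
      rw [h4, Nat.factorization_mul (by norm_num) (by omega), Finsupp.add_apply,
        Nat.prime_two.factorization_self,
        Nat.factorization_eq_zero_of_not_dvd (by omega : ¬ 2 ∣ 2 * (Y / 4) + 1)]
    rw [pow_succ, NL.rep_mul_eq, h2, Nat.factorization_mul
      (NL.rep_pos (Nat.one_le_iff_ne_zero.2 (pow_ne_zero _ two_ne_zero))).ne' (by omega),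
      Finsupp.add_apply, ih, h3]

theorem comp_reduce {q z n y : ℕ} (hq : q.Prime) (hq3 : 3 ≤ q) (hz : 2 ≤ z) (hn : 2 < n)
    (hp : ¬ n.Prime) (h2 : ∀ k : ℕ, n ≠ 2 ^ k) (hpq : ∀ p : ℕ, p.Prime → n ≠ p ^ q)
    (h : y ^ q = NL.rep z n) :
    ∃ n1 u : ℕ, 3 ≤ n1 ∧ 2 * n1 ≤ n ∧ n ≤ n1 ^ (q + 1) ∧ u ^ q = NL.rep z n1 := by
  have hn0 : n ≠ 0 := by omega
  have hv : ∀ l, q ∣ (NL.rep z n).factorization l := by
    intro l
    rw [← h, Nat.factorization_pow, Finsupp.smul_apply, smul_eq_mul]
    exact dvd_mul_right _ _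
  set b := n.minFac with hbd
  have hb : b.Prime := Nat.minFac_prime (by omega)
  have hb2 : 2 ≤ b := hb.two_le
  have hbn : b ∣ n := Nat.minFac_dvd n
  have hmin : ∀ d : ℕ, 2 ≤ d → d ∣ n → b ≤ d := fun d hd hdn => Nat.minFac_le_of_dvd hd hdn
  haveI : Fact b.Prime := ⟨hb⟩
  by_cases hbz : b ∣ z - 1
  · by_cases hb3 : b = 2
    · -- `b = 2`
      obtain ⟨k, m, hm, hnk⟩ := Nat.exists_eq_two_pow_mul_odd hn0
      have hm1 : m ≠ 1 := by
        intro hm1
        rw [hm1, mul_one] at hnk
        exact h2 k hnk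
      have hm3 : 3 ≤ m := by
        obtain ⟨t, ht⟩ := hm
        omega
      rw [hb3] at hbz hbn
      have hk1 : 1 ≤ k := by
        by_contra hk
        have hk0 : k = 0 := by omega
        rw [hk0, pow_zero, one_mul] at hnk
        rw [hnk] at hbn
        obtain ⟨t, ht⟩ := hm
        omega
      have hzc : (z : ZMod 2) = 1 := by
        have h3 : ((z - 1 : ℕ) : ZMod 2) = 0 := (ZMod.natCast_eq_zero_iff _ _).2 hbz
        rw [Nat.cast_sub (by omega : 1 ≤ z)] at h3
        push_cast at h3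
        linear_combination h3
      by_cases hkq : k ≤ q
      · obtain ⟨u, hu⟩ := rc_fin (q := q) (b := 2) hz (by omega : 1 ≤ m)
          (Nat.one_le_iff_ne_zero.2 (pow_ne_zero k two_ne_zero)) (by rw [hnk, mul_comm]) hv
          (fun l hl hlc => (Nat.prime_dvd_prime_iff_eq hl Nat.prime_two).1
            (hl.dvd_of_dvd_pow hlc)) (by
            rw [Nat.factorization_eq_zero_of_not_dvd]
            · exact dvd_zero _
            · intro hd
              have h4 := (ZMod.natCast_eq_zero_iff _ _).2 hd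
              rw [rc_cast_one hzc, ZMod.natCast_eq_zero_iff] at h4
              obtain ⟨t, ht⟩ := hm
              omega)
        refine ⟨m, u, hm3, ?_, ?_, hu⟩
        · rw [hnk]
          have h5 : 2 ^ 1 ≤ 2 ^ k := Nat.pow_le_pow_right (by norm_num) hk1
          rw [pow_one] at h5
          exact Nat.mul_le_mul_right m h5
        · rw [hnk, pow_succ]
          refine Nat.mul_le_mul_right m ?_
          exact (Nat.pow_le_pow_right (by norm_num) hkq).trans
            (Nat.pow_le_pow_left (by omega) q)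
      · have hkq' : q < k := by omega
        set a := 2 ^ (k - q) * m with had
        have hna : n = a * 2 ^ q := by
          rw [hnk, had, mul_right_comm, ← pow_add]
          congr 2
          omega
        have ha2 : 2 ∣ a := by
          rw [had]
          exact (dvd_pow_self 2 (by omega)).mul_right _
        have ha6 : 3 ≤ a := by
          rw [had]
          have h5 : 1 ≤ 2 ^ (k - q) := Nat.one_le_iff_ne_zero.2 (pow_ne_zero _ two_ne_zero)
          nlinarith
        have hz4 : z ^ a % 4 = 1 := by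
          obtain ⟨t, ht⟩ := ha2
          rw [ht, pow_mul, Nat.pow_mod]
          have h5 : z ^ 2 % 4 = 1 := by
            have h6 : z % 4 = 1 ∨ z % 4 = 3 := by omega
            rcases h6 with h6 | h6 <;> simp [Nat.pow_mod, h6]
          simp [h5]
        have h2q : 1 ≤ 2 ^ q := Nat.one_le_iff_ne_zero.2 (pow_ne_zero q two_ne_zero)
        obtain ⟨u, hu⟩ := rc_fin (q := q) (b := 2) hz (by omega : 1 ≤ a) h2q hna hv
          (fun l hl hlc => (Nat.prime_dvd_prime_iff_eq hl Nat.prime_two).1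
            (hl.dvd_of_dvd_pow hlc)) (by
            have h5 := hv 2
            rw [rc_split hz (by omega : 1 ≤ a) h2q hna, rc_two hz4 q] at h5
            exact (Nat.dvd_add_left dvd_rfl).1 h5)
        refine ⟨a, u, ha6, ?_, ?_, hu⟩
        · rw [hna, mul_comm 2 a]
          refine Nat.mul_le_mul_left a ?_
          calc 2 = 2 ^ 1 := by norm_num
            _ ≤ 2 ^ q := Nat.pow_le_pow_right (by norm_num) (by omega)
        · rw [hna, pow_succ, mul_comm (a ^ q) a]
          exact Nat.mul_le_mul_left a (Nat.pow_le_pow_left (by omega) q)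
    · -- `b` odd
      have h3 : (NL.rep z n).factorization b = n.factorization b :=
        rc_lte hb hb3 (by omega) hbz hn0
      have h4 : q ∣ n.factorization b := by
        rw [← h3]
        exact hv b
      have h5 : 0 < n.factorization b := hb.factorization_pos_of_dvd hn0 hbn
      have h6 : q ≤ n.factorization b := Nat.le_of_dvd h5 h4
      have h7 : b ^ q ∣ n := (pow_dvd_pow b h6).trans (Nat.ordProj_dvd _ _)
      obtain ⟨a, ha⟩ := h7
      have hna : n = a * b ^ q := by rw [ha, mul_comm]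
      have ha0 : a ≠ 0 := by
        rintro rfl
        omega
      have ha1 : a ≠ 1 := by
        rintro rfl
        rw [mul_one] at ha
        exact hpq b hb ha
      have hba : b ≤ a := hmin a (by omega) ⟨b ^ q, hna⟩
      have hbq : 1 ≤ b ^ q := Nat.one_le_iff_ne_zero.2 (pow_ne_zero q hb.ne_zero)
      have h8 : n.factorization b = a.factorization b + q := by
        rw [hna, Nat.factorization_mul ha0 (pow_ne_zero q hb.ne_zero), Finsupp.add_apply,
          hb.factorization_pow, Finsupp.single_eq_same]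
      obtain ⟨u, hu⟩ := rc_fin (q := q) (b := b) hz (by omega : 1 ≤ a) hbq hna hv
        (fun l hl hlc => (Nat.prime_dvd_prime_iff_eq hl hb).1 (hl.dvd_of_dvd_pow hlc)) (by
          rw [rc_lte hb hb3 (by omega) hbz ha0]
          rw [h8] at h4
          exact (Nat.dvd_add_left dvd_rfl).1 h4)
      refine ⟨a, u, by omega, ?_, ?_, hu⟩
      · rw [hna, mul_comm 2 a]
        refine Nat.mul_le_mul_left a ?_
        calc 2 ≤ b := hb2
          _ = b ^ 1 := (pow_one b).symm
          _ ≤ b ^ q := Nat.pow_le_pow_right (by omega) (by omega)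
      · rw [hna, pow_succ, mul_comm (a ^ q) a]
        exact Nat.mul_le_mul_left a (Nat.pow_le_pow_left hba q)
  · -- `b` does not divide `z - 1`
    obtain ⟨a, ha⟩ := hbn
    have hna : n = a * b := by rw [ha, mul_comm]
    have ha0 : a ≠ 0 := by
      rintro rfl
      omega
    have ha1 : a ≠ 1 := by
      rintro rfl
      rw [mul_one] at ha
      rw [ha] at hp
      exact hp hb
    have hba : b ≤ a := hmin a (by omega) ⟨b, hna⟩
    have ha3 : 3 ≤ a := by
      by_contra hlt
      have ha2 : a = 2 := by omega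
      have hb2' : b = 2 := by omega
      apply h2 2
      rw [hna, ha2, hb2']
      norm_num
    have hnd : ¬ b ∣ NL.rep z a := by
      intro hd
      have h3 := rc_one hz hd
      have hx0 : (z : ZMod b) ≠ 0 := by
        intro h4
        rw [h4, zero_pow ha0] at h3
        exact zero_ne_one h3
      have ho : orderOf (z : ZMod b) ∣ a := orderOf_dvd_of_pow_eq_one h3
      have ho2 : orderOf (z : ZMod b) ∣ b - 1 := ZMod.orderOf_dvd_card_sub_one hx0
      by_cases h1d : orderOf (z : ZMod b) = 1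
      · rw [orderOf_eq_one_iff] at h1d
        apply hbz
        rw [← ZMod.natCast_eq_zero_iff, Nat.cast_sub (by omega : 1 ≤ z), h1d]
        simp
      · have hd0 : orderOf (z : ZMod b) ≠ 0 := by
          intro h5
          rw [h5] at ho
          exact ha0 (Nat.eq_zero_of_zero_dvd ho)
        have h6 := hmin _ (by omega : 2 ≤ orderOf (z : ZMod b)) (ho.trans ⟨b, hna⟩)
        have h7 := Nat.le_of_dvd (by omega) ho2
        omega
    obtain ⟨u, hu⟩ := rc_fin (q := q) (b := b) hz (by omega : 1 ≤ a) (by omega : 1 ≤ b) hna hv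
      (fun l hl hlc => (Nat.prime_dvd_prime_iff_eq hl hb).1 hlc) (by
        rw [Nat.factorization_eq_zero_of_not_dvd hnd]
        exact dvd_zero _)
    refine ⟨a, u, ha3, ?_, ?_, hu⟩
    · rw [hna, mul_comm 2 a]
      exact Nat.mul_le_mul_left a hb2
    · rw [hna]
      calc a * b ≤ a * a := Nat.mul_le_mul_left a hba
        _ = a ^ 2 := by ring
        _ ≤ a ^ (q + 1) := Nat.pow_le_pow_right (by omega) (by omega)

end Pool.Agent.NLC
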