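import Pool.Agent.NLC.Runge
import Pool.Agent.NL.Defs

/-!
# NLC-RungeP: two q-th power repunits of fixed lengths

PLAN.  `s` with `q ∣ (n2 - 1) + s (n1 - 1)`, `s < q` exists because `n1 % q ≠ 1` (`q` prime; see the proof
of `pair_large` in NLC/Main.lean, or `Nat`/`ZMod` inverse).  `F = (∑ i < n2, X^i) * (∑ i < n1, X^i)^s`,
monic of degree `(n2-1) + s (n1-1) = q J`.  `F = G^q` over `ℚ` is impossible: over `ℂ` the primitive
`n2`-th root of unity `ζ = exp (2 π i / n2)` is a simple root of `X^n2 - 1 = (X-1) ∑ X^i` and no root of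
`X^n1 - 1` (`n1 < n2`), so its multiplicity in `F` is `1`, not a multiple of `q`
(`rootMultiplicity_mul`, `rootMultiplicity_pow`, separability of `X^n2 - 1`).
Apply `runge` with `t = y u^s`.
-/

namespace Pool.Agent.NLC

open Finset Polynomial

private theorem RungeP_exists_s {q n1 n2 : ℕ} (hq : q.Prime) (h1 : 1 < n1) (h12 : n1 < n2)
    (hq1 : n1 % q ≠ 1) : ∃ s J : ℕ, (n2 - 1) + s * (n1 - 1) = q * J := by
  have : Fact q.Prime := ⟨hq⟩
  have hn1q : ((n1 : ℕ) : ZMod q) - 1 ≠ 0 := by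
    intro h0
    apply hq1
    have h3 : ((n1 : ℕ) : ZMod q) = ((1 : ℕ) : ZMod q) := by
      rw [Nat.cast_one]
      exact sub_eq_zero.1 h0
    rw [ZMod.natCast_eq_natCast_iff'] at h3
    rwa [Nat.mod_eq_of_lt hq.one_lt] at h3
  refine ⟨(-(((n2 : ℕ) : ZMod q) - 1) / (((n1 : ℕ) : ZMod q) - 1)).val, ?_⟩
  have hdvd : q ∣ (n2 - 1) + (-(((n2 : ℕ) : ZMod q) - 1) / (((n1 : ℕ) : ZMod q) - 1)).val *
      (n1 - 1) := by
    rw [← ZMod.natCast_eq_zero_iff]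
    push_cast
    rw [Nat.cast_sub (by omega), Nat.cast_sub (by omega), ZMod.natCast_zmod_val]
    push_cast
    field_simp
    ring
  exact hdvd

private theorem RungeP_geom (n : ℕ) (R : Type*) [CommRing R] :
    (∑ i ∈ range n, (X : R[X]) ^ i) * (X - 1) = X ^ n - 1 := geom_sum_mul X n

private theorem RungeP_monic (n : ℕ) (hn : 1 ≤ n) :
    (∑ i ∈ range n, (X : ℤ[X]) ^ i).Monic ∧ (∑ i ∈ range n, (X : ℤ[X]) ^ i).natDegree = n - 1 := by
  have hm : (∑ i ∈ range n, (X : ℤ[X]) ^ i).Monic := monic_geom_sum_X (by omega)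
  refine ⟨hm, ?_⟩
  have h := congrArg natDegree (RungeP_geom n ℤ)
  have hX : (X - 1 : ℤ[X]) = X - C 1 := by rw [C_1]
  have hX2 : (X ^ n - 1 : ℤ[X]) = X ^ n - C 1 := by rw [C_1]
  rw [hX, hX2, hm.natDegree_mul (monic_X_sub_C 1), natDegree_X_sub_C, natDegree_X_pow_sub_C] at h
  omega

private theorem RungeP_mult {q n1 n2 s : ℕ} (hq : q.Prime) (h1 : 1 < n1) (h12 : n1 < n2)
    (H : ℂ[X]) (h : H ^ q = (∑ i ∈ range n2, (X : ℂ[X]) ^ i) * (∑ i ∈ range n1, (X : ℂ[X]) ^ i) ^ s) :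
    False := by
  have hn2 : n2 ≠ 0 := by omega
  have hz := Complex.isPrimitiveRoot_exp n2 hn2
  set ζ : ℂ := Complex.exp (2 * Real.pi * Complex.I / n2) with hζ
  have hz1 : ζ ≠ 1 := by
    have := hz.pow_ne_one_of_pos_of_lt (l := 1) one_ne_zero (by omega)
    rwa [pow_one] at this
  have hzn : ζ ^ n1 ≠ 1 := hz.pow_ne_one_of_pos_of_lt (by omega) h12
  have hzz : ζ ^ n2 = 1 := hz.pow_eq_one
  -- nonvanishing
  have hp2 : (X ^ n2 - 1 : ℂ[X]) ≠ 0 := by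
    have := X_pow_sub_C_ne_zero (R := ℂ) (n := n2) (by omega) 1
    rwa [C_1] at this
  have hg2 : (∑ i ∈ range n2, (X : ℂ[X]) ^ i) ≠ 0 := by
    intro h0
    apply hp2
    rw [← RungeP_geom, h0, zero_mul]
  have he1 : (∑ i ∈ range n1, (X : ℂ[X]) ^ i).eval ζ ≠ 0 := by
    intro h0
    have h3 := congrArg (eval ζ) (RungeP_geom n1 ℂ)
    rw [eval_mul, h0, zero_mul, eval_sub, eval_pow, eval_X, eval_one] at h3
    exact hzn (sub_eq_zero.1 h3.symm)
  have hg1 : (∑ i ∈ range n1, (X : ℂ[X]) ^ i) ≠ 0 := by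
    intro h0
    apply he1
    rw [h0, eval_zero]
  have hm1 : rootMultiplicity ζ ((∑ i ∈ range n1, (X : ℂ[X]) ^ i) ^ s) = 0 := by
    apply rootMultiplicity_eq_zero
    intro h0
    rw [IsRoot, eval_pow] at h0
    exact pow_ne_zero s he1 h0
  have hmX : rootMultiplicity ζ (X - 1 : ℂ[X]) = 0 := by
    apply rootMultiplicity_eq_zero
    intro h0
    rw [IsRoot, eval_sub, eval_X, eval_one] at h0
    exact hz1 (sub_eq_zero.1 h0)
  have hsep : (X ^ n2 - 1 : ℂ[X]).Separable :=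
    X_pow_sub_one_separable_iff.2 (by exact_mod_cast hn2)
  have hle : rootMultiplicity ζ (X ^ n2 - 1 : ℂ[X]) ≤ 1 :=
    rootMultiplicity_le_one_of_separable hsep ζ
  have hge : 0 < rootMultiplicity ζ (X ^ n2 - 1 : ℂ[X]) := by
    rw [rootMultiplicity_pos hp2, IsRoot, eval_sub, eval_pow, eval_X, eval_one, hzz, sub_self]
  have hm2 : rootMultiplicity ζ (∑ i ∈ range n2, (X : ℂ[X]) ^ i) = 1 := by
    have h4 := rootMultiplicity_mul (x := ζ) (p := ∑ i ∈ range n2, (X : ℂ[X]) ^ i)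
      (q := X - 1) (by rw [RungeP_geom]; exact hp2)
    rw [RungeP_geom, hmX] at h4
    omega
  have hne : (∑ i ∈ range n2, (X : ℂ[X]) ^ i) * (∑ i ∈ range n1, (X : ℂ[X]) ^ i) ^ s ≠ 0 :=
    mul_ne_zero hg2 (pow_ne_zero _ hg1)
  have h5 := congrArg (rootMultiplicity ζ) h
  rw [rootMultiplicity_mul hne, hm1, hm2, ← count_roots, roots_pow, Multiset.count_nsmul] at h5
  have h6 : q ∣ 1 := ⟨_, h5.symm⟩
  exact hq.one_lt.ne' (Nat.dvd_one.1 h6)

theorem pair_fixed {q n1 n2 : ℕ} (hq : q.Prime) (h1 : 1 < n1) (h12 : n1 < n2) (hq1 : n1 % q ≠ 1) :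
    ∃ Z0 : ℕ, ∀ z u y : ℕ, Z0 ≤ z → u ^ q = NL.rep z n1 → y ^ q = NL.rep z n2 → False := by
  obtain ⟨s, J, hJ⟩ := RungeP_exists_s hq h1 h12 hq1
  obtain ⟨hma, hda⟩ := RungeP_monic n1 (by omega)
  obtain ⟨hmb, hdb⟩ := RungeP_monic n2 (by omega)
  obtain ⟨Z0, hZ⟩ := runge (q := q) (J := J) hq.two_le
    (F := (∑ i ∈ range n2, (X : ℤ[X]) ^ i) * (∑ i ∈ range n1, (X : ℤ[X]) ^ i) ^ s)
    (hmb.mul (hma.pow s))
    (by rw [hmb.natDegree_mul (hma.pow s), hma.natDegree_pow, hda, hdb, hJ])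
    (by
      intro G hG
      have h2 := congrArg (Polynomial.map (algebraMap ℚ ℂ)) hG
      refine RungeP_mult (s := s) hq h1 h12 (G.map (algebraMap ℚ ℂ)) ?_
      rw [← Polynomial.map_pow, h2]
      simp [Polynomial.map_sum])
  refine ⟨Z0, fun z u y hz hu hy => hZ z (y * u ^ s) hz ?_⟩
  have h3 : (y * u ^ s) ^ q = NL.rep z n2 * NL.rep z n1 ^ s := by
    rw [mul_pow, ← pow_mul, mul_comm s q, pow_mul, hu, hy]
  rw [← Nat.cast_pow, h3]
  simp [NL.rep, eval_finsetSum]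

end Pool.Agent.NLC
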