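import Pool.Agent.NLG.FixB

/-!
# NLC-Same: two q-th power repunits, lengths congruent modulo `q`

As in `Pool/Agent/NLG/FixB.lean` (Thue's argument with Padé approximants at `X1 = z ^ n1`):
`k = (n2 - n1)/q`, `Δ_N = a_N y - b_N u z ^ k`, which vanishes for two consecutive indices `N`.
-/

namespace Pool.Agent.NLC

open Finset

private theorem Same_rep {q x n y : ℕ} (h : y ^ q = NL.rep x n) :
    (y : ℝ) ^ q * ((x : ℝ) - 1) = (x : ℝ) ^ n - 1 := by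
  have h1 := NL.rep_mul_int x n
  rw [← h] at h1
  have h2 : (((y ^ q : ℕ) : ℤ) : ℝ) * (((x : ℤ) : ℝ) - 1) = ((x : ℤ) : ℝ) ^ n - 1 := by
    exact_mod_cast h1
  push_cast at h2
  exact h2

/-- The real estimate for one index `N`. -/
private theorem Same_zero {q x n1 n2 k N : ℕ} {D : ℝ} (hq : 3 ≤ q) (hx : 2 ≤ x) (hn1 : 1 ≤ n1)
    (hk : n2 = n1 + q * k) {y1 y2 : ℕ} (h1 : y1 ^ q = NL.rep x n1) (h2 : y2 ^ q = NL.rep x n2)
    (hD : 4 ≤ D)
    (hi : 16 * D ^ (3 * N + 3) * (x : ℝ) ^ n2 ≤ x * ((x : ℝ) ^ n1) ^ (3 * N + 3))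
    (hii : 64 * D ^ (3 * N + 3) * ((x : ℝ) ^ n1) ^ (3 * N) ≤ ((x : ℝ) ^ n2) ^ 2) {a b : ℤ}
    (hb : |(b : ℝ)| ≤ D ^ (N + 1) * ((x : ℝ) ^ n1) ^ N)
    (hab : |(a : ℝ) - (1 - 1 / ((x : ℝ) ^ n1)) ^ ((1 : ℝ) / q) * (b : ℝ)| ≤
        D ^ (N + 1) / ((x : ℝ) ^ n1) ^ (N + 1)) : a * y2 = b * (y1 * (x : ℤ) ^ k) := by
  have hX2 : (2 : ℝ) ≤ x := by exact_mod_cast hx
  have hD0 : (0 : ℝ) < D := by linarith
  have hq0 : q ≠ 0 := by omega
  set X1 : ℝ := (x : ℝ) ^ n1 with hX1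
  set X2 : ℝ := (x : ℝ) ^ n2 with hX2'
  have hX1p : 0 < X1 := by positivity
  have hX2p : 0 < X2 := by positivity
  have hX12 : 2 ≤ X1 := by
    have : (x : ℝ) ^ 1 ≤ X1 := pow_le_pow_right₀ (by linarith) hn1
    rw [pow_one] at this
    linarith
  have hX22 : 2 ≤ X2 := by
    have : (x : ℝ) ^ 1 ≤ X2 := pow_le_pow_right₀ (by linarith) (by omega)
    rw [pow_one] at this
    linarith
  set g1 : ℝ := (1 - 1 / X1) ^ ((1 : ℝ) / q) with hg1
  set g2 : ℝ := (1 - 1 / X2) ^ ((1 : ℝ) / q) with hg2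
  have hi1 : 1 / X1 ≤ 1 / 2 := one_div_le_one_div_of_le (by norm_num) hX12
  have hi2 : 1 / X2 ≤ 1 / 2 := one_div_le_one_div_of_le (by norm_num) hX22
  have hi1p : 0 < 1 / X1 := by positivity
  have hi2p : 0 < 1 / X2 := by positivity
  have hb1 : 0 ≤ 1 - 1 / X1 := by linarith
  have hb2 : 0 ≤ 1 - 1 / X2 := by linarith
  have hg10 : 0 ≤ g1 := Real.rpow_nonneg hb1 _
  have hg20 : 0 ≤ g2 := Real.rpow_nonneg hb2 _
  have hinv : (1 : ℝ) / q = (q : ℝ)⁻¹ := one_div _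
  have hg1q : g1 ^ q = 1 - 1 / X1 := by rw [hg1, hinv, Real.rpow_inv_natCast_pow hb1 hq0]
  have hg2q : g2 ^ q = 1 - 1 / X2 := by rw [hg2, hinv, Real.rpow_inv_natCast_pow hb2 hq0]
  have hg1le : g1 ≤ 1 := by
    refine le_of_pow_le_pow_left₀ hq0 zero_le_one ?_
    rw [hg1q, one_pow]
    linarith
  have hg2le : g2 ≤ 1 := by
    refine le_of_pow_le_pow_left₀ hq0 zero_le_one ?_
    rw [hg2q, one_pow]
    linarith
  have hg2ge : 1 - 1 / X2 ≤ g2 := by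
    refine le_of_pow_le_pow_left₀ hq0 hg20 ?_
    rw [hg2q]
    exact pow_le_of_le_one hb2 (by linarith) hq0
  have hy1 : (0 : ℝ) ≤ y1 := Nat.cast_nonneg y1
  have hy2 : (0 : ℝ) ≤ y2 := Nat.cast_nonneg y2
  have hr1 := Same_rep h1
  have hr2 := Same_rep h2
  have hxm : (0 : ℝ) < (x : ℝ) - 1 := by linarith
  have hXk : X2 = X1 * ((x : ℝ) ^ k) ^ q := by
    rw [hX2', hk, pow_add, hX1, ← pow_mul, mul_comm q k]
  -- the two products agree
  have heq : (y2 : ℝ) * g1 = y1 * (x : ℝ) ^ k * g2 := by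
    have h3 : ((y2 : ℝ) * g1) ^ q = ((y1 : ℝ) * (x : ℝ) ^ k * g2) ^ q := by
      have e1 : ((y2 : ℝ) * g1) ^ q * ((x : ℝ) - 1) = (X2 - 1) * (1 - 1 / X1) := by
        rw [mul_pow, hg1q, ← hr2]; ring
      have e2 : ((y1 : ℝ) * (x : ℝ) ^ k * g2) ^ q * ((x : ℝ) - 1) =
          (X1 - 1) * ((x : ℝ) ^ k) ^ q * (1 - 1 / X2) := by
        rw [mul_pow, mul_pow, hg2q, ← hr1]; ring
      have e3 : (X2 - 1) * (1 - 1 / X1) = (X1 - 1) * ((x : ℝ) ^ k) ^ q * (1 - 1 / X2) := by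
        have e4 : ((x : ℝ) ^ k) ^ q = X2 / X1 := by rw [hXk]; field_simp
        rw [e4]
        field_simp
      have e5 : ((y2 : ℝ) * g1) ^ q * ((x : ℝ) - 1) =
          ((y1 : ℝ) * (x : ℝ) ^ k * g2) ^ q * ((x : ℝ) - 1) := by rw [e1, e2, e3]
      exact mul_right_cancel₀ hxm.ne' e5
    exact (pow_left_inj₀ (mul_nonneg hy2 hg10) (by positivity) hq0).1 h3
  set Y : ℝ := (y1 : ℝ) * (x : ℝ) ^ k with hY
  have hY0 : 0 ≤ Y := by positivity
  have hY2 : Y ≤ 2 * y2 := by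
    have h3 : (1 / 2 : ℝ) ≤ g2 := by linarith
    have h4 : Y * (1 / 2) ≤ Y * g2 := mul_le_mul_of_nonneg_left h3 hY0
    have h5 : (y2 : ℝ) * g1 ≤ y2 * 1 := mul_le_mul_of_nonneg_left hg1le hy2
    linarith
  have hdiff : |(y2 : ℝ) * g1 - Y| ≤ 2 * y2 / X2 := by
    have h3 : (y2 : ℝ) * g1 - Y = -(Y * (1 - g2)) := by rw [heq]; ring
    rw [h3, abs_neg, abs_of_nonneg (mul_nonneg hY0 (by linarith))]
    have h4 : Y * (1 - g2) ≤ (2 * y2) * (1 / X2) :=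
      mul_le_mul hY2 (by linarith) (by linarith) (by linarith)
    rw [mul_one_div] at h4
    exact h4
  -- size of `y2`
  have hcube' : (y2 : ℝ) ^ 3 * x < 2 * X2 := by
    have h3 : (y2 : ℝ) ^ q * x < 2 * X2 := by
      have h4 : (y2 : ℝ) ^ q * x ≤ (y2 : ℝ) ^ q * (2 * ((x : ℝ) - 1)) :=
        mul_le_mul_of_nonneg_left (by linarith) (by positivity)
      have h5 : (y2 : ℝ) ^ q * (2 * ((x : ℝ) - 1)) = 2 * (X2 - 1) := by
        rw [mul_left_comm, hr2]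
      linarith
    rcases Nat.eq_zero_or_pos y2 with h0 | h0
    · rw [h0]
      simpa using hX2p
    · have h4 : (1 : ℝ) ≤ y2 := by exact_mod_cast h0
      exact lt_of_le_of_lt (mul_le_mul_of_nonneg_right (pow_le_pow_right₀ h4 hq) (by linarith)) h3
  have hcube : (y2 : ℝ) ^ 3 < X2 := by
    have h3 : (y2 : ℝ) ^ q < X2 := by
      have h4 : (y2 : ℝ) ^ q * 1 ≤ (y2 : ℝ) ^ q * ((x : ℝ) - 1) :=
        mul_le_mul_of_nonneg_left (by linarith) (by positivity)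
      rw [hr2] at h4
      linarith
    rcases Nat.eq_zero_or_pos y2 with h0 | h0
    · rw [h0]
      simpa using hX2p
    · have h4 : (1 : ℝ) ≤ y2 := by exact_mod_cast h0
      exact lt_of_le_of_lt (pow_le_pow_right₀ h4 hq) h3
  have hA : 2 * D ^ (N + 1) * y2 < X1 ^ (N + 1) := by
    refine lt_of_pow_lt_pow_left₀ 3 (by positivity) ?_
    have h3 : (2 * D ^ (N + 1) * (y2 : ℝ)) ^ 3 = 8 * D ^ (3 * N + 3) * (y2 : ℝ) ^ 3 := by
      have e1 : 3 * N + 3 = (N + 1) * 3 := by ring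
      rw [mul_pow, mul_pow, e1, pow_mul]
      norm_num
    have h4 : (X1 ^ (N + 1)) ^ 3 = X1 ^ (3 * N + 3) := by
      rw [← pow_mul]; congr 1; ring
    rw [h3, h4]
    have hx0 : (0 : ℝ) < x := by linarith
    refine lt_of_mul_lt_mul_left ?_ hx0.le
    refine lt_of_lt_of_le ?_ hi
    have h5 : 8 * D ^ (3 * N + 3) * ((y2 : ℝ) ^ 3 * x) < 8 * D ^ (3 * N + 3) * (2 * X2) :=
      mul_lt_mul_of_pos_left hcube' (by positivity)
    linarith
  have hB : 4 * D ^ (N + 1) * X1 ^ N * y2 < X2 := by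
    refine lt_of_pow_lt_pow_left₀ 3 (by positivity) ?_
    have h3 : (4 * D ^ (N + 1) * X1 ^ N * (y2 : ℝ)) ^ 3 =
        64 * D ^ (3 * N + 3) * X1 ^ (3 * N) * (y2 : ℝ) ^ 3 := by
      have e1 : 3 * N + 3 = (N + 1) * 3 := by ring
      have e2 : 3 * N = N * 3 := by ring
      rw [mul_pow, mul_pow, mul_pow, e1, e2, pow_mul, pow_mul]
      norm_num
    rw [h3]
    have h5 : 64 * D ^ (3 * N + 3) * X1 ^ (3 * N) * (y2 : ℝ) ^ 3 < X2 ^ 2 * X2 := by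
      refine lt_of_lt_of_le (mul_lt_mul_of_pos_left hcube (by positivity)) ?_
      exact mul_le_mul_of_nonneg_right hii hX2p.le
    calc _ < X2 ^ 2 * X2 := h5
      _ = X2 ^ 3 := by ring
  have hT1 : |(y2 : ℝ) * ((a : ℝ) - g1 * b)| < 1 / 2 := by
    rw [abs_mul, abs_of_nonneg hy2]
    have h3 : (y2 : ℝ) * |(a : ℝ) - g1 * b| ≤ y2 * (D ^ (N + 1) / X1 ^ (N + 1)) :=
      mul_le_mul_of_nonneg_left hab hy2
    have h4 : (y2 : ℝ) * (D ^ (N + 1) / X1 ^ (N + 1)) = (D ^ (N + 1) * y2) / X1 ^ (N + 1) := by ring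
    have h5 : (D ^ (N + 1) * y2) / X1 ^ (N + 1) < 1 / 2 := by
      rw [div_lt_iff₀ (by positivity)]
      linarith
    linarith
  have hT2 : |(b : ℝ) * ((y2 : ℝ) * g1 - Y)| < 1 / 2 := by
    rw [abs_mul]
    have h3 : |(b : ℝ)| * |(y2 : ℝ) * g1 - Y| ≤ (D ^ (N + 1) * X1 ^ N) * (2 * y2 / X2) :=
      mul_le_mul hb hdiff (abs_nonneg _) (by positivity)
    have h4 : (D ^ (N + 1) * X1 ^ N) * (2 * y2 / X2) = (2 * D ^ (N + 1) * X1 ^ N * y2) / X2 := by ring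
    have h5 : (2 * D ^ (N + 1) * X1 ^ N * y2) / X2 < 1 / 2 := by
      rw [div_lt_iff₀ hX2p]
      linarith
    linarith
  have hDl : |((a * y2 - b * (y1 * (x : ℤ) ^ k) : ℤ) : ℝ)| < 1 := by
    push_cast
    have h3 : (a : ℝ) * y2 - b * (y1 * (x : ℝ) ^ k) =
        (y2 : ℝ) * ((a : ℝ) - g1 * b) + (b : ℝ) * ((y2 : ℝ) * g1 - Y) := by
      rw [hY]; ring
    rw [h3]
    have h4 := abs_add_le ((y2 : ℝ) * ((a : ℝ) - g1 * b)) ((b : ℝ) * ((y2 : ℝ) * g1 - Y))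
    linarith
  have hD2 : |a * y2 - b * (y1 * (x : ℤ) ^ k)| < 1 := by exact_mod_cast hDl
  have hD3 := Int.abs_lt_one_iff.1 hD2
  linarith


/-- The choice of the index. -/
private theorem Same_range {D : ℝ} (hD4 : 4 ≤ D) {x n1 n2 : ℕ} (hx : D ^ 18 ≤ x) (hn1 : 1 ≤ n1)
    (hn2 : 2 * n1 ≤ n2) : ∃ N0 : ℕ, ∀ N : ℕ, N0 ≤ N → N ≤ N0 + 1 →
      16 * D ^ (3 * N + 3) * (x : ℝ) ^ n2 ≤ x * ((x : ℝ) ^ n1) ^ (3 * N + 3) ∧
      64 * D ^ (3 * N + 3) * ((x : ℝ) ^ n1) ^ (3 * N) ≤ ((x : ℝ) ^ n2) ^ 2 := by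
  have hD0 : 0 < D := by linarith
  have hD1 : 1 ≤ D := by linarith
  have h16 : (16 : ℝ) ≤ D ^ 2 := by nlinarith
  have h64 : (64 : ℝ) ≤ D ^ 3 := by
    have : (4 : ℝ) ^ 3 ≤ D ^ 3 := pow_le_pow_left₀ (by norm_num) hD4 3
    linarith
  have hx2 : (2 : ℝ) ≤ x := by
    have h1 : D ^ 1 ≤ D ^ 18 := pow_le_pow_right₀ hD1 (by norm_num)
    rw [pow_one] at h1
    linarith
  have hx1 : (1 : ℝ) ≤ x := by linarith
  rcases Nat.lt_or_ge n2 (12 * n1) with hlt | hge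
  · set N0 : ℕ := (n2 - 1) / (3 * n1) with hN0
    have hN03 : N0 ≤ 3 := by
      have h1 : N0 < 4 := by
        rw [hN0, Nat.div_lt_iff_lt_mul (by omega)]
        omega
      omega
    have hlow : 3 * n1 * N0 ≤ n2 - 1 := Nat.mul_div_le _ _
    have hupp : n2 - 1 < 3 * n1 * (N0 + 1) := Nat.lt_mul_div_succ _ (by omega)
    have hkey : 3 * n1 * (N0 + 1) + 1 ≤ 2 * n2 := by
      rcases Nat.lt_or_ge n2 (3 * n1) with h1 | h1
      · have h2 : N0 = 0 := by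
          rw [hN0]
          exact Nat.div_eq_of_lt (by omega)
        rw [h2]
        omega
      · rw [mul_add, mul_one]
        omega
    refine ⟨N0, fun N h1 h2 => ⟨?_, ?_⟩⟩
    · refine mul_le_mul ?_ ?_ (by positivity) (by positivity)
      · calc 16 * D ^ (3 * N + 3) ≤ D ^ 2 * D ^ (3 * N + 3) :=
              mul_le_mul_of_nonneg_right h16 (by positivity)
          _ = D ^ (2 + (3 * N + 3)) := (pow_add _ _ _).symm
          _ ≤ D ^ 18 := pow_le_pow_right₀ hD1 (by omega)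
          _ ≤ _ := hx
      · rw [← pow_mul]
        refine pow_le_pow_right₀ hx1 ?_
        have h3 : 3 * n1 * (N0 + 1) ≤ n1 * (3 * N + 3) := by nlinarith
        omega
    · have h3 : 64 * D ^ (3 * N + 3) ≤ x := by
        calc 64 * D ^ (3 * N + 3) ≤ D ^ 3 * D ^ (3 * N + 3) :=
              mul_le_mul_of_nonneg_right h64 (by positivity)
          _ = D ^ (3 + (3 * N + 3)) := (pow_add _ _ _).symm
          _ ≤ D ^ 18 := pow_le_pow_right₀ hD1 (by omega)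
          _ ≤ _ := hx
      have h4 : 64 * D ^ (3 * N + 3) * ((x : ℝ) ^ n1) ^ (3 * N) ≤ x * ((x : ℝ) ^ n1) ^ (3 * N) :=
        mul_le_mul_of_nonneg_right h3 (by positivity)
      refine h4.trans ?_
      have h5 : (x : ℝ) * ((x : ℝ) ^ n1) ^ (3 * N) = (x : ℝ) ^ (1 + n1 * (3 * N)) := by
        rw [pow_add, pow_one, ← pow_mul]
      rw [h5, ← pow_mul]
      refine pow_le_pow_right₀ hx1 ?_
      have h6 : n1 * (3 * N) ≤ 3 * n1 * (N0 + 1) := by nlinarith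
      omega
  · set X1 : ℝ := (x : ℝ) ^ n1 with hX1
    have hX1D : D ^ 9 ≤ X1 := by
      calc D ^ 9 ≤ D ^ 18 := pow_le_pow_right₀ hD1 (by norm_num)
        _ ≤ x := hx
        _ = (x : ℝ) ^ 1 := (pow_one _).symm
        _ ≤ _ := pow_le_pow_right₀ hx1 hn1
    have hX10 : 0 < X1 := by positivity
    set N0 : ℕ := n2 / (2 * n1) with hN0
    have hN06 : 6 ≤ N0 := by
      rw [hN0, Nat.le_div_iff_mul_le (by omega)]
      omega
    have hlow : 2 * n1 * N0 ≤ n2 := Nat.mul_div_le _ _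
    have hupp : n2 < 2 * n1 * (N0 + 1) := Nat.lt_mul_div_succ _ (by omega)
    have hXlow : X1 ^ (2 * N0) ≤ (x : ℝ) ^ n2 := by
      rw [hX1, ← pow_mul]
      exact pow_le_pow_right₀ hx1 (by nlinarith)
    have hXupp : (x : ℝ) ^ n2 ≤ X1 ^ (2 * N0 + 2) := by
      rw [hX1, ← pow_mul]
      exact pow_le_pow_right₀ hx1 (by nlinarith)
    have hpowX : ∀ e : ℕ, D ^ (9 * e) ≤ X1 ^ e := fun e => by
      rw [pow_mul]
      exact pow_le_pow_left₀ (by positivity) hX1D e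
    refine ⟨N0, fun N h1 h2 => ⟨?_, ?_⟩⟩
    · have e1 : X1 ^ (3 * N + 3) = X1 ^ (3 * N + 1 - 2 * N0) * X1 ^ (2 * N0 + 2) := by
        rw [← pow_add]; congr 1; omega
      have e2 : 16 * D ^ (3 * N + 3) * (x : ℝ) ^ n2 ≤ X1 ^ (3 * N + 3) := by
        rw [e1]
        refine mul_le_mul ?_ hXupp (by positivity) (by positivity)
        calc 16 * D ^ (3 * N + 3) ≤ D ^ 2 * D ^ (3 * N + 3) :=
              mul_le_mul_of_nonneg_right h16 (by positivity)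
          _ = D ^ (2 + (3 * N + 3)) := (pow_add _ _ _).symm
          _ ≤ D ^ (9 * (3 * N + 1 - 2 * N0)) := pow_le_pow_right₀ hD1 (by omega)
          _ ≤ _ := hpowX _
      refine e2.trans ?_
      have h3 : 1 * X1 ^ (3 * N + 3) ≤ x * X1 ^ (3 * N + 3) :=
        mul_le_mul_of_nonneg_right hx1 (by positivity)
      linarith
    · have e1 : X1 ^ (4 * N0) ≤ ((x : ℝ) ^ n2) ^ 2 := by
        have e2 : X1 ^ (4 * N0) = (X1 ^ (2 * N0)) ^ 2 := by
          rw [← pow_mul X1 (2 * N0) 2]; congr 1; ring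
        rw [e2]
        exact pow_le_pow_left₀ (by positivity) hXlow 2
      refine le_trans ?_ e1
      have e3 : X1 ^ (4 * N0) = X1 ^ (4 * N0 - 3 * N) * X1 ^ (3 * N) := by
        rw [← pow_add]; congr 1; omega
      rw [e3]
      refine mul_le_mul_of_nonneg_right ?_ (by positivity)
      calc 64 * D ^ (3 * N + 3) ≤ D ^ 3 * D ^ (3 * N + 3) :=
            mul_le_mul_of_nonneg_right h64 (by positivity)
        _ = D ^ (3 + (3 * N + 3)) := (pow_add _ _ _).symm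
        _ ≤ D ^ (9 * (4 * N0 - 3 * N)) := pow_le_pow_right₀ hD1 (by omega)
        _ ≤ _ := hpowX _

theorem pair_same {q : ℕ} (hq : 3 ≤ q) : ∃ Z0 : ℕ, ∀ z n1 n2 k u y : ℕ, Z0 ≤ z → 1 ≤ n1 →
    2 * n1 ≤ n2 → n2 = n1 + q * k → u ^ q = NL.rep z n1 → y ^ q = NL.rep z n2 → False := by
  obtain ⟨C, hC1, a, b, hab, hind⟩ := NL.pade_exists q (by omega)
  set D : ℝ := max C 4 with hD
  have hCD : C ≤ D := le_max_left _ _
  have hD4 : 4 ≤ D := le_max_right _ _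
  have hD0 : 0 < D := by linarith
  have hD1 : 1 ≤ D := by linarith
  obtain ⟨Z0, hZ0⟩ := exists_nat_ge (D ^ 18)
  refine ⟨Z0, fun z n1 n2 k u y hz hn1 hn2 hk hu hy => ?_⟩
  have hzD : D ^ 18 ≤ (z : ℝ) := hZ0.trans (by exact_mod_cast hz)
  have hz2 : 2 ≤ z := by
    have h1 : D ^ 1 ≤ D ^ 18 := pow_le_pow_right₀ hD1 (by norm_num)
    rw [pow_one] at h1
    have h2 : (2 : ℝ) ≤ z := by linarith
    exact_mod_cast h2
  obtain ⟨N0, hN0⟩ := Same_range hD4 hzD hn1 hn2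
  set X1 : ℝ := (z : ℝ) ^ n1 with hX1
  have hX10 : 0 < X1 := by
    have : (0 : ℝ) < z := by exact_mod_cast (by omega : 0 < z)
    positivity
  have hxn : 2 ≤ z ^ n1 := by
    calc 2 ≤ z := hz2
      _ = z ^ 1 := (pow_one z).symm
      _ ≤ z ^ n1 := Nat.pow_le_pow_right (by omega) hn1
  have hcast : ((z ^ n1 : ℕ) : ℝ) = X1 := by rw [hX1]; push_cast; rfl
  have hpow : ∀ N : ℕ, C ^ (N + 1) ≤ D ^ (N + 1) := fun N =>
    pow_le_pow_left₀ (by linarith) hCD _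
  have hb : ∀ N : ℕ, |(b N (z ^ n1) : ℝ)| ≤ D ^ (N + 1) * X1 ^ N := fun N => by
    have h1 := (hab N (z ^ n1) hxn).1
    rw [hcast] at h1
    exact h1.trans (mul_le_mul_of_nonneg_right (hpow N) (by positivity))
  have ha : ∀ N : ℕ, |(a N (z ^ n1) : ℝ) - (1 - 1 / X1) ^ ((1 : ℝ) / q) * (b N (z ^ n1) : ℝ)| ≤
      D ^ (N + 1) / X1 ^ (N + 1) := fun N => by
    have h1 := (hab N (z ^ n1) hxn).2
    rw [hcast] at h1
    exact h1.trans (div_le_div_of_nonneg_right (hpow N) (by positivity))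
  have e0 := Same_zero (N := N0) hq hz2 hn1 hk hu hy hD4 (hN0 _ le_rfl (by omega)).1
    (hN0 _ le_rfl (by omega)).2 (hb _) (ha _)
  have e1 := Same_zero (N := N0 + 1) hq hz2 hn1 hk hu hy hD4 (hN0 _ (by omega) le_rfl).1
    (hN0 _ (by omega) le_rfl).2 (hb _) (ha _)
  have hy0 : (y : ℤ) ≠ 0 := by
    intro h0
    have h1 : y = 0 := by exact_mod_cast h0
    have h2 := NL.rep_pos (x := z) (n := n2) (by omega)
    rw [← hy, h1, zero_pow (by omega)] at h2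
    exact lt_irrefl _ h2
  apply hind N0 (z ^ n1) hxn
  have h3 : (y : ℤ) * (a N0 (z ^ n1) * b (N0 + 1) (z ^ n1)) =
      y * (a (N0 + 1) (z ^ n1) * b N0 (z ^ n1)) := by
    linear_combination (b (N0 + 1) (z ^ n1)) * e0 - (b N0 (z ^ n1)) * e1
  exact mul_left_cancel₀ hy0 h3

end Pool.Agent.NLC
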