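import Pool.Agent.NLC.Main
import Pool.Agent.NLC.Same
import Pool.Agent.NLC.RungeP
import Pool.Agent.NLC.Reduce
import Pool.Agent.NL.FixedOne
import Pool.Agent.NLG.FixB

/-!
# NLC-Final: finiteness for composite lengths
-/

namespace Pool.Agent.NLC

open Finset

/-- The base is bounded. -/
theorem base_bounded {q : ℕ} (hq : q.Prime) (hq3 : 3 ≤ q) : ∃ X : ℕ, ∀ z n y : ℕ, 2 ≤ z → 2 < n →
    ¬ n.Prime → (∀ k : ℕ, n ≠ 2 ^ k) → (∀ p : ℕ, p.Prime → n ≠ p ^ q) → y ^ q = NL.rep z n →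
    z < X := by
  obtain ⟨X1, hX1⟩ := NL.fixed_one hq3
  obtain ⟨X2, hX2⟩ := pair_same hq3
  obtain ⟨X3, N0, hX3⟩ := pair_large q hq hq3
  -- bounded lengths
  have hfix : ∀ n1 n2 : ℕ, ∃ Z : ℕ, 1 < n1 → n1 < n2 → n1 % q ≠ 1 → ∀ z u y : ℕ, Z ≤ z →
      u ^ q = NL.rep z n1 → y ^ q = NL.rep z n2 → False := by
    intro n1 n2
    by_cases h : 1 < n1 ∧ n1 < n2 ∧ n1 % q ≠ 1
    · obtain ⟨Z, hZ⟩ := pair_fixed (n1 := n1) (n2 := n2) hq h.1 h.2.1 h.2.2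
      exact ⟨Z, fun _ _ _ => hZ⟩
    · exact ⟨0, fun h1 h2 h3 => absurd ⟨h1, h2, h3⟩ h⟩
  choose Z hZ using hfix
  set M : ℕ := N0 ^ (q + 1) with hM
  set X4 : ℕ := ∑ n1 ∈ range (M + 1), ∑ n2 ∈ range (M + 1), Z n1 n2 with hX4
  refine ⟨X1 + X2 + X3 + X4 + 1, fun z n y hz hn hp h2 hpq h => ?_⟩
  by_contra hcon
  obtain ⟨n1, u, hn1, hn12, hnq, hu⟩ := comp_reduce hq hq3 hz hn hp h2 hpq h
  have hn1q : n1 % q ≠ 1 := fun h1 => hX1 z u n1 (by omega) (by omega) h1 hu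
  have hnq1 : n % q ≠ 1 := fun h1 => hX1 z y n (by omega) (by omega) h1 h
  by_cases hsame : n1 % q = n % q
  · have h3 : (n - n1) % q = 0 := Nat.sub_mod_eq_zero_of_mod_eq hsame.symm
    obtain ⟨k, hk⟩ := Nat.dvd_of_mod_eq_zero h3
    exact hX2 z n1 n k u y (by omega) (by omega) hn12 (by omega) hu h
  · rcases Nat.lt_or_ge n1 N0 with hlt | hge
    · have h5 : n ≤ M := hnq.trans (Nat.pow_le_pow_left hlt.le _)
      have h4 : n1 ≤ M := by omega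
      have h6 : Z n1 n ≤ X4 := by
        calc Z n1 n ≤ ∑ n2 ∈ range (M + 1), Z n1 n2 :=
              Finset.single_le_sum (f := fun n2 => Z n1 n2) (fun _ _ => Nat.zero_le _)
                (Finset.mem_range.2 (by omega))
          _ ≤ X4 := Finset.single_le_sum (f := fun n1 => ∑ n2 ∈ range (M + 1), Z n1 n2)
                (fun _ _ => Nat.zero_le _) (Finset.mem_range.2 (by omega))
      exact hZ n1 n (by omega) (by omega) hn1q z u y (by omega) hu h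
    · exact hX3 z n1 n u y (by omega) hge hn12 hnq hn1q hnq1 hsame hu h

private theorem rep_of_eq {x y m n : ℕ} (hx : 2 ≤ x) (h : y ^ m * (x - 1) = x ^ n - 1) :
    y ^ m = NL.rep x n := by
  have h1 := NL.rep_mul (by omega : 1 ≤ x) n
  have h2 : y ^ m * (x - 1) = NL.rep x n * (x - 1) := by omega
  exact Nat.eq_of_mul_eq_mul_right (by omega) h2

theorem comp_finite {m q : ℕ} (hq : q.Prime) (hq3 : 3 ≤ q) (hqm : q ∣ m) (hm : m ≠ 0) :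
    {t : ℕ × ℕ × ℕ | 1 < t.1 ∧ 1 < t.2.1 ∧ 2 < t.2.2 ∧ ¬ t.2.2.Prime ∧ (∀ k : ℕ, t.2.2 ≠ 2 ^ k) ∧
      (∀ p : ℕ, p.Prime → t.2.2 ≠ p ^ q) ∧ t.2.1 ^ m * (t.1 - 1) = t.1 ^ t.2.2 - 1}.Finite := by
  obtain ⟨k, rfl⟩ := hqm
  have hk : k ≠ 0 := by
    rintro rfl
    exact hm (mul_zero _)
  obtain ⟨X, hX⟩ := base_bounded hq hq3
  have hfin : (⋃ x ∈ {x : ℕ | 2 ≤ x ∧ x ≤ X}, ⋃ n ∈ {n : ℕ | ∃ y : ℕ, y ^ q = NL.rep x n},
      (fun y : ℕ => (x, y, n)) '' Set.Iic (x ^ n)).Finite := by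
    refine Set.Finite.biUnion ((Set.finite_Iic X).subset fun x hx => hx.2) ?_
    intro x hx
    refine Set.Finite.biUnion (NLG.fixed_base hq3 hx.1) ?_
    intro n _
    exact (Set.finite_Iic _).image _
  refine hfin.subset ?_
  rintro ⟨x, y, n⟩ ⟨hx, hy, hn, hp, h2, hpq, h⟩
  simp only at hx hy hn hp h2 hpq h
  have hrep := rep_of_eq (by omega : 2 ≤ x) h
  have hrep2 : (y ^ k) ^ q = NL.rep x n := by rw [← pow_mul, mul_comm k q, hrep]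
  have hxX := hX x n (y ^ k) (by omega) hn hp h2 hpq hrep2
  simp only [Set.mem_iUnion, Set.mem_image, Set.mem_Iic]
  refine ⟨x, ⟨by omega, by omega⟩, n, ⟨y ^ k, hrep2⟩, y, ?_, rfl⟩
  have h1 : y ≤ y ^ (q * k) := Nat.le_self_pow (Nat.mul_ne_zero hq.ne_zero hk) y
  have h3 := NL.rep_lt (x := x) (n := n) (by omega)
  omega

end Pool.Agent.NLC
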