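import Pool.Agent.NLC.Defs

/-!
# NLC-NBd: degrees and size of `NN`

PLAN.  `nrm` is a norm on `ℤ[X][X]`: `nrm (F + G) ≤ nrm F + nrm G`, `nrm (-F) = nrm F`,
`nrm (F * G) ≤ nrm F * nrm G`, `nrm (monomial i (monomial j c)) = |c|`, `nrm (derivative F) ≤ D nrm F`
(`natDegree F ≤ D`), `nrm F = ∑ i ∈ range M, ∑ j ∈ range M', |(F.coeff i).coeff j|` for large `M, M'`.
(These lemmas, stated first, are also used by NLC-RothC.)
`|gZ r j| ≤ P B H q ^ (2Q)` for `|A| ≤ H`, `r < Q` (as in NLC-Siegel: `|KZ q j m| ≤ q^(2m)` for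
`|j| ≤ q`, `a + a' ≤ Q`).  So `nrm AP ≤ P B H q^(2Q)`, `nrm BP ≤ S (B+L) P B H q^(2Q)`,
`natDegree AP ≤ P + n B`, `natDegree BP ≤ S + n (B + L)`, inner degrees `≤ B + L`.
`NN`: `q * 2 * (nrm BP * D * nrm AP * 2) + nrm AP * nrm BP * (2 q J + h)`, with
`D = P + S + n (2B + L) + 2 ≥ J`, `h ≤ q`: `≤ 8 q D nrm AP nrm BP`.
-/

namespace Pool.Agent.NLC

open Finset Polynomial
open Pool.Agent.NLG (KZ kap)

section gen

variable {R : Type*} [CommRing R]

private noncomputable def nbd_g (ν : R → ℤ) (F : R[X]) : ℤ := F.sum fun _ c => ν c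

private theorem nbd_g_range {ν : R → ℤ} (h0 : ν 0 = 0) (F : R[X]) {n : ℕ} (h : F.natDegree < n) :
    nbd_g ν F = ∑ i ∈ range n, ν (F.coeff i) :=
  sum_over_range' F (fun _ => h0) n h

private theorem nbd_g_nonneg {ν : R → ℤ} (hp : ∀ a, 0 ≤ ν a) (F : R[X]) : 0 ≤ nbd_g ν F :=
  Finset.sum_nonneg fun _ _ => hp _

private theorem nbd_g_zero (ν : R → ℤ) : nbd_g ν (0 : R[X]) = 0 := by
  unfold nbd_g
  exact sum_zero_index _

private theorem nbd_g_add {ν : R → ℤ} (h0 : ν 0 = 0) (ha : ∀ a b, ν (a + b) ≤ ν a + ν b)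
    (F G : R[X]) : nbd_g ν (F + G) ≤ nbd_g ν F + nbd_g ν G := by
  have h1 : F.natDegree < F.natDegree + G.natDegree + (F + G).natDegree + 1 := by omega
  have h2 : G.natDegree < F.natDegree + G.natDegree + (F + G).natDegree + 1 := by omega
  have h3 : (F + G).natDegree < F.natDegree + G.natDegree + (F + G).natDegree + 1 := by omega
  rw [nbd_g_range h0 F h1, nbd_g_range h0 G h2, nbd_g_range h0 (F + G) h3, ← sum_add_distrib]
  refine sum_le_sum fun i _ => ?_
  rw [coeff_add]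
  exact ha _ _

private theorem nbd_g_neg {ν : R → ℤ} (h0 : ν 0 = 0) (hn : ∀ a, ν (-a) = ν a)
    (F : R[X]) : nbd_g ν (-F) = nbd_g ν F := by
  have h1 : F.natDegree < F.natDegree + 1 := by omega
  have h2 : (-F).natDegree < F.natDegree + 1 := by rw [natDegree_neg]; omega
  rw [nbd_g_range h0 F h1, nbd_g_range h0 (-F) h2]
  refine sum_congr rfl fun i _ => ?_
  rw [coeff_neg, hn]

private theorem nbd_g_mono {ν : R → ℤ} (h0 : ν 0 = 0) (n : ℕ) (a : R) :
    nbd_g ν (monomial n a) = ν a := by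
  unfold nbd_g
  exact sum_monomial_index a _ h0

private theorem nbd_g_sum {ν : R → ℤ} (h0 : ν 0 = 0) (ha : ∀ a b, ν (a + b) ≤ ν a + ν b)
    {ι : Type*} (t : Finset ι) (f : ι → R[X]) :
    nbd_g ν (∑ i ∈ t, f i) ≤ ∑ i ∈ t, nbd_g ν (f i) := by
  classical
  induction t using Finset.induction_on with
  | empty => rw [sum_empty, sum_empty, nbd_g_zero]
  | insert a t hat ih =>
    rw [sum_insert hat, sum_insert hat]
    exact (nbd_g_add h0 ha _ _).trans (by linarith)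

private theorem nbd_g_mul {ν : R → ℤ} (h0 : ν 0 = 0)
    (ha : ∀ a b, ν (a + b) ≤ ν a + ν b) (hm : ∀ a b, ν (a * b) ≤ ν a * ν b)
    (F G : R[X]) : nbd_g ν (F * G) ≤ nbd_g ν F * nbd_g ν G := by
  rw [mul_eq_sum_sum]
  refine (nbd_g_sum h0 ha _ _).trans ?_
  unfold nbd_g
  rw [Polynomial.sum_def F, sum_mul]
  refine sum_le_sum fun i _ => ?_
  rw [Polynomial.sum_def G, Polynomial.sum_def G, mul_sum]
  refine (nbd_g_sum h0 ha _ _).trans ?_
  refine sum_le_sum fun j _ => ?_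
  rw [nbd_g_mono h0]
  exact hm _ _

private theorem nbd_g_coeff {ν : R → ℤ} (h0 : ν 0 = 0) (hp : ∀ a, 0 ≤ ν a) (F : R[X]) (i : ℕ) :
    ν (F.coeff i) ≤ nbd_g ν F := by
  by_cases h : i ∈ F.support
  · unfold nbd_g
    rw [Polynomial.sum_def]
    exact single_le_sum (f := fun i => ν (F.coeff i)) (fun j _ => hp _) h
  · rw [notMem_support_iff.1 h, h0]
    exact nbd_g_nonneg hp F

private theorem nbd_g_nsmul {ν : R → ℤ} (h0 : ν 0 = 0) (ha : ∀ a b, ν (a + b) ≤ ν a + ν b)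
    (n : ℕ) (a : R) : ν (a * n) ≤ n * ν a := by
  induction n with
  | zero => rw [Nat.cast_zero, mul_zero, h0, Nat.cast_zero, zero_mul]
  | succ n ih =>
    have h1 := ha (a * n) a
    have h2 : a * ((n + 1 : ℕ) : R) = a * n + a := by push_cast; ring
    rw [h2]
    push_cast
    linarith

private theorem nbd_g_der {ν : R → ℤ} (h0 : ν 0 = 0) (hp : ∀ a, 0 ≤ ν a)
    (ha : ∀ a b, ν (a + b) ≤ ν a + ν b) (F : R[X]) {D : ℕ} (hD : F.natDegree ≤ D) :
    nbd_g ν (derivative F) ≤ D * nbd_g ν F := by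
  rw [derivative_apply, Polynomial.sum_def]
  refine (nbd_g_sum h0 ha _ _).trans ?_
  unfold nbd_g
  rw [Polynomial.sum_def F, mul_sum]
  refine sum_le_sum fun i hi => ?_
  have h1 : (C (F.coeff i * (i : R)) * X ^ (i - 1)).sum (fun _ c => ν c) = ν (F.coeff i * (i : R)) := by
    rw [C_mul_X_pow_eq_monomial]
    exact nbd_g_mono h0 _ _
  rw [h1]
  refine (nbd_g_nsmul h0 ha i _).trans ?_
  have h2 : i ≤ D := (le_natDegree_of_mem_supp i hi).trans hD
  have h3 : (i : ℤ) ≤ D := by exact_mod_cast h2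
  exact mul_le_mul_of_nonneg_right h3 (hp _)

end gen

private noncomputable def nbd_n : ℤ[X] → ℤ := nbd_g (fun c : ℤ => |c|)

private theorem nbd_nrm (F : ℤ[X][X]) : nrm F = nbd_g nbd_n F := rfl

private theorem nbd_n_zero : nbd_n 0 = 0 := nbd_g_zero _

private theorem nbd_n_nonneg (f : ℤ[X]) : 0 ≤ nbd_n f := nbd_g_nonneg (fun _ => abs_nonneg _) f

private theorem nbd_n_add (f g : ℤ[X]) : nbd_n (f + g) ≤ nbd_n f + nbd_n g :=
  nbd_g_add abs_zero (fun a b => abs_add_le a b) f g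

private theorem nbd_n_neg (f : ℤ[X]) : nbd_n (-f) = nbd_n f := nbd_g_neg abs_zero abs_neg f

private theorem nbd_n_mul (f g : ℤ[X]) : nbd_n (f * g) ≤ nbd_n f * nbd_n g :=
  nbd_g_mul abs_zero (fun a b => abs_add_le a b) (fun a b => (abs_mul a b).le) f g

theorem nrm_nonneg (F : ℤ[X][X]) : 0 ≤ nrm F := by
  rw [nbd_nrm]
  exact nbd_g_nonneg nbd_n_nonneg F

theorem nrm_add (F G : ℤ[X][X]) : nrm (F + G) ≤ nrm F + nrm G := by
  rw [nbd_nrm, nbd_nrm, nbd_nrm]
  exact nbd_g_add nbd_n_zero nbd_n_add F G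

theorem nrm_neg (F : ℤ[X][X]) : nrm (-F) = nrm F := by
  rw [nbd_nrm, nbd_nrm]
  exact nbd_g_neg nbd_n_zero nbd_n_neg F

theorem nrm_mul (F G : ℤ[X][X]) : nrm (F * G) ≤ nrm F * nrm G := by
  rw [nbd_nrm, nbd_nrm, nbd_nrm]
  exact nbd_g_mul nbd_n_zero nbd_n_add nbd_n_mul F G

theorem nrm_monomial (i j : ℕ) (c : ℤ) : nrm (monomial i (monomial j c)) = |c| := by
  rw [nbd_nrm, nbd_g_mono nbd_n_zero]
  exact nbd_g_mono abs_zero j c

theorem coeff_le_nrm (F : ℤ[X][X]) (i j : ℕ) : |(F.coeff i).coeff j| ≤ nrm F := by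
  rw [nbd_nrm]
  refine le_trans ?_ (nbd_g_coeff nbd_n_zero nbd_n_nonneg F i)
  exact nbd_g_coeff (ν := fun c : ℤ => |c|) abs_zero (fun _ => abs_nonneg _) (F.coeff i) j

private theorem nbd_sum {ι : Type*} (t : Finset ι) (f : ι → ℤ[X][X]) :
    nrm (∑ i ∈ t, f i) ≤ ∑ i ∈ t, nrm (f i) := by
  simp only [nbd_nrm]
  exact nbd_g_sum nbd_n_zero nbd_n_add t f

private theorem nbd_der (F : ℤ[X][X]) {D : ℕ} (hD : F.natDegree ≤ D) :
    nrm (derivative F) ≤ D * nrm F := by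
  simp only [nbd_nrm]
  exact nbd_g_der nbd_n_zero nbd_n_nonneg nbd_n_add F hD

private theorem nbd_CC (c : ℤ) : nrm (C (C c)) = |c| := by
  have h := nrm_monomial 0 0 c
  rwa [monomial_zero_left, monomial_zero_left] at h

private theorem nbd_X : nrm (X : ℤ[X][X]) = 1 := by
  have h := nrm_monomial 1 0 1
  rw [monomial_zero_left, C_1, monomial_one_one_eq_X, abs_one] at h
  exact h

private theorem nbd_one : nrm (1 : ℤ[X][X]) = 1 := by
  have h := nbd_CC 1
  rwa [C_1, C_1, abs_one] at h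

private theorem nbd_sub (F G : ℤ[X][X]) : nrm (F - G) ≤ nrm F + nrm G := by
  rw [sub_eq_add_neg]
  refine (nrm_add _ _).trans ?_
  rw [nrm_neg]

private theorem nbd_X1 : nrm (X - 1 : ℤ[X][X]) ≤ 2 := by
  refine (nbd_sub _ _).trans ?_
  rw [nbd_X, nbd_one]
  norm_num

private theorem nbd_mono_deg (a : ℕ) (c : ℤ[X]) {m : ℕ} (h : a ≤ m) :
    (monomial a c : ℤ[X][X]).natDegree ≤ m :=
  (natDegree_monomial_le c).trans h

private theorem nbd_AP_deg (p : Par) (A : ℕ → ℕ → ℤ) : (AP p A).natDegree ≤ p.P + p.n * p.B := by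
  unfold AP
  refine natDegree_sum_le_of_forall_le _ _ fun i _ => ?_
  refine natDegree_sum_le_of_forall_le _ _ fun β _ => ?_
  apply nbd_mono_deg
  have h1 : p.n * (p.B - 1 - β) ≤ p.n * p.B := Nat.mul_le_mul_left _ (by omega)
  omega

private theorem nbd_BP_deg (p : Par) (A : ℕ → ℕ → ℤ) :
    (BP p A).natDegree ≤ p.S + p.n * (p.B + p.L) := by
  unfold BP
  rw [natDegree_neg]
  refine natDegree_sum_le_of_forall_le _ _ fun i _ => ?_
  refine natDegree_sum_le_of_forall_le _ _ fun β _ => ?_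
  apply nbd_mono_deg
  have h1 : p.n * (p.B + p.L - 1 - β) ≤ p.n * (p.B + p.L) := Nat.mul_le_mul_left _ (by omega)
  omega

private theorem nbd_sd {R : Type*} [Ring R] {f g : R[X]} {n : ℕ} (hf : f.natDegree ≤ n)
    (hg : g.natDegree ≤ n) : (f - g).natDegree ≤ n :=
  (natDegree_sub_le f g).trans (max_le hf hg)

private theorem nbd_der_deg (F : ℤ[X][X]) {D : ℕ} (hD : F.natDegree ≤ D) :
    (derivative F).natDegree ≤ D := by
  have h := natDegree_derivative_le F
  omega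

private theorem nbd_X1_deg : (X - 1 : ℤ[X][X]).natDegree ≤ 1 := by
  refine (natDegree_sub_le _ _).trans ?_
  rw [natDegree_one]
  simp

theorem natDegree_NN (p : Par) (hn : 1 ≤ p.n) (A : ℕ → ℕ → ℤ) :
    (NN p A).natDegree ≤ p.P + p.S + p.n * (2 * p.B + p.L) + 2 := by
  have hA := nbd_AP_deg p A
  have hB := nbd_BP_deg p A
  have hA' := nbd_der_deg _ hA
  have hB' := nbd_der_deg _ hB
  have e : p.n * (2 * p.B + p.L) = p.n * p.B + p.n * (p.B + p.L) := by ring
  unfold NN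
  refine natDegree_add_le_of_degree_le ?_ ?_
  · refine (natDegree_mul_le).trans ?_
    have h1 : (C (C (p.q : ℤ)) * (X * (X - 1)) : ℤ[X][X]).natDegree ≤ 2 := by
      refine natDegree_mul_le.trans ?_
      have h2 : (X * (X - 1) : ℤ[X][X]).natDegree ≤ 2 := by
        refine natDegree_mul_le.trans ?_
        have h3 := nbd_X1_deg
        have h4 : (X : ℤ[X][X]).natDegree ≤ 1 := natDegree_X_le
        omega
      rw [natDegree_C]
      omega
    have h5 : (BP p A * derivative (AP p A) - AP p A * derivative (BP p A)).natDegree ≤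
        p.P + p.S + (p.n * p.B + p.n * (p.B + p.L)) := by
      refine nbd_sd (natDegree_mul_le.trans ?_) (natDegree_mul_le.trans ?_)
      · omega
      · omega
    omega
  · refine natDegree_mul_le.trans ?_
    have h1 : (AP p A * BP p A).natDegree ≤ p.P + p.S + (p.n * p.B + p.n * (p.B + p.L)) := by
      refine natDegree_mul_le.trans ?_
      omega
    have h2 : (C (C ((p.q : ℤ) * p.J)) * (X - 1) - C (C (p.h : ℤ)) : ℤ[X][X]).natDegree ≤ 1 := by
      refine nbd_sd (natDegree_mul_le.trans ?_) ?_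
      · have h3 := nbd_X1_deg
        rw [natDegree_C]
        omega
      · rw [natDegree_C]
        omega
    omega

/-- inner degrees -/
private def NBdIn (F : ℤ[X][X]) (a : ℕ) : Prop := ∀ i, (F.coeff i).natDegree ≤ a

private theorem nbd_in_add {F G : ℤ[X][X]} {a : ℕ} (hF : NBdIn F a) (hG : NBdIn G a) :
    NBdIn (F + G) a := fun i => by
  rw [coeff_add]
  exact natDegree_add_le_of_degree_le (hF i) (hG i)

private theorem nbd_in_sub {F G : ℤ[X][X]} {a : ℕ} (hF : NBdIn F a) (hG : NBdIn G a) :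
    NBdIn (F - G) a := fun i => by
  rw [coeff_sub]
  exact nbd_sd (hF i) (hG i)

private theorem nbd_in_neg {F : ℤ[X][X]} {a : ℕ} (hF : NBdIn F a) : NBdIn (-F) a := fun i => by
  rw [coeff_neg, natDegree_neg]
  exact hF i

private theorem nbd_in_mul {F G : ℤ[X][X]} {a b : ℕ} (hF : NBdIn F a) (hG : NBdIn G b) :
    NBdIn (F * G) (a + b) := fun i => by
  rw [coeff_mul]
  refine natDegree_sum_le_of_forall_le _ _ fun x _ => ?_
  exact natDegree_mul_le.trans (add_le_add (hF _) (hG _))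

private theorem nbd_in_sum {ι : Type*} (t : Finset ι) (f : ι → ℤ[X][X]) {a : ℕ}
    (h : ∀ i ∈ t, NBdIn (f i) a) : NBdIn (∑ i ∈ t, f i) a := fun i => by
  rw [finsetSum_coeff]
  exact natDegree_sum_le_of_forall_le _ _ fun x hx => h x hx i

private theorem nbd_in_mono {F : ℤ[X][X]} {a b : ℕ} (hF : NBdIn F a) (h : a ≤ b) : NBdIn F b :=
  fun i => (hF i).trans h

private theorem nbd_in_monomial (n j : ℕ) (c : ℤ) : NBdIn (monomial n (monomial j c)) j :=
  fun i => by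
  rw [coeff_monomial]
  split_ifs
  · exact natDegree_monomial_le c
  · rw [natDegree_zero]
    exact Nat.zero_le _

private theorem nbd_in_CC (c : ℤ) : NBdIn (C (C c)) 0 := by
  have h := nbd_in_monomial 0 0 c
  rwa [monomial_zero_left, monomial_zero_left] at h

private theorem nbd_in_X : NBdIn (X : ℤ[X][X]) 0 := by
  have h := nbd_in_monomial 1 0 1
  rwa [monomial_zero_left, C_1, monomial_one_one_eq_X] at h

private theorem nbd_in_one : NBdIn (1 : ℤ[X][X]) 0 := by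
  have h := nbd_in_CC 1
  rwa [C_1, C_1] at h

private theorem nbd_in_der {F : ℤ[X][X]} {a : ℕ} (hF : NBdIn F a) : NBdIn (derivative F) a :=
  fun i => by
  rw [coeff_derivative]
  have h1 : ((i : ℤ[X]) + 1) = ((i + 1 : ℕ) : ℤ[X]) := by push_cast; rfl
  rw [h1]
  refine natDegree_mul_le.trans ?_
  rw [natDegree_natCast, add_zero]
  exact hF _

private theorem nbd_in_AP (p : Par) (A : ℕ → ℕ → ℤ) : NBdIn (AP p A) (p.B + p.L) := by
  unfold AP
  refine nbd_in_sum _ _ fun i _ => nbd_in_sum _ _ fun β hβ => ?_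
  refine nbd_in_mono (nbd_in_monomial _ _ _) ?_
  have := mem_range.1 hβ
  omega

private theorem nbd_in_BP (p : Par) (A : ℕ → ℕ → ℤ) : NBdIn (BP p A) (p.B + p.L) := by
  unfold BP
  refine nbd_in_neg (nbd_in_sum _ _ fun i _ => nbd_in_sum _ _ fun β hβ => ?_)
  refine nbd_in_mono (nbd_in_monomial _ _ _) ?_
  have := mem_range.1 hβ
  omega

theorem natDegree_coeff_NN (p : Par) (A : ℕ → ℕ → ℤ) (i : ℕ) :
    ((NN p A).coeff i).natDegree ≤ 2 * (p.B + p.L) := by
  have hA := nbd_in_AP p A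
  have hB := nbd_in_BP p A
  have hX1 : NBdIn (X - 1 : ℤ[X][X]) 0 := nbd_in_sub nbd_in_X nbd_in_one
  have h1 : NBdIn (NN p A) (2 * (p.B + p.L)) := by
    unfold NN
    refine nbd_in_add ?_ ?_
    · refine nbd_in_mono (nbd_in_mul (nbd_in_mul (nbd_in_CC _) (nbd_in_mul nbd_in_X hX1))
        (nbd_in_sub (nbd_in_mul hB (nbd_in_der hA)) (nbd_in_mul hA (nbd_in_der hB)))) ?_
      omega
    · refine nbd_in_mono (nbd_in_mul (nbd_in_mul hA hB) (nbd_in_sub (nbd_in_mul (nbd_in_CC _) hX1)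
        (nbd_in_CC _))) ?_
      omega
  exact h1 i

private theorem nbd_gZ (p : Par) (h1 : 1 ≤ p.h) (hh : p.h ≤ p.q) (hn : 1 ≤ p.n) (A : ℕ → ℕ → ℤ)
    {H : ℤ} (hA : ∀ i β, |A i β| ≤ H) {r : ℕ} (hr : r < p.Q) (j : ℕ) :
    |gZ p A r j| ≤ p.P * p.B * H * (p.q : ℤ) ^ (2 * p.Q) := by
  have hH : 0 ≤ H := (abs_nonneg _).trans (hA 0 0)
  have hq : 1 ≤ p.q := h1.trans hh
  unfold gZ
  have hterm : ∀ β ∈ range p.B, ∀ i ∈ range p.P,
      |if j ≤ β + p.L ∧ i + p.n * (β + p.L - j) ≤ r then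
      A i β * KZ p.q (-p.h) (r - i - p.n * (β + p.L - j)) * KZ p.q (p.h - 1) (β + p.L - j) *
        (p.q : ℤ) ^ (2 * (p.Q - (r - i - p.n * (β + p.L - j)) - (β + p.L - j)))
      else 0| ≤ H * (p.q : ℤ) ^ (2 * p.Q) := by
    intro β _ i _
    split_ifs with hc
    · obtain ⟨hc1, hc2⟩ := hc
      obtain ⟨a', ha'⟩ : ∃ a', a' = β + p.L - j := ⟨_, rfl⟩
      rw [← ha'] at hc2 ⊢
      obtain ⟨a, ha⟩ : ∃ a, a = r - i - p.n * a' := ⟨_, rfl⟩
      rw [← ha]
      have h2 : a' ≤ p.n * a' := Nat.le_mul_of_pos_left _ hn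
      have h3 : a + a' ≤ p.Q := by omega
      have k1 : |KZ p.q (-p.h) a| ≤ (p.q : ℤ) ^ (2 * a) := by
        apply Pool.Agent.NLG.abs_KZ_le hq
        rw [abs_neg, abs_of_nonneg (by positivity)]
        exact_mod_cast hh
      have k2 : |KZ p.q (p.h - 1) a'| ≤ (p.q : ℤ) ^ (2 * a') := by
        apply Pool.Agent.NLG.abs_KZ_le hq
        have h4 : (1 : ℤ) ≤ p.h := by exact_mod_cast h1
        have h5 : (p.h : ℤ) ≤ p.q := by exact_mod_cast hh
        rw [abs_of_nonneg (by linarith)]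
        linarith
      have k3 : 0 ≤ (p.q : ℤ) ^ (2 * (p.Q - a - a')) := by positivity
      have e : (p.q : ℤ) ^ (2 * p.Q) = (p.q : ℤ) ^ (2 * a) * (p.q : ℤ) ^ (2 * a') *
          (p.q : ℤ) ^ (2 * (p.Q - a - a')) := by
        rw [← pow_add, ← pow_add]
        congr 1
        omega
      rw [abs_mul, abs_mul, abs_mul, abs_of_nonneg k3, e]
      calc |A i β| * |KZ p.q (-p.h) a| * |KZ p.q (p.h - 1) a'| *
            (p.q : ℤ) ^ (2 * (p.Q - a - a'))
          ≤ H * (p.q : ℤ) ^ (2 * a) * (p.q : ℤ) ^ (2 * a') *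
            (p.q : ℤ) ^ (2 * (p.Q - a - a')) := by
            refine mul_le_mul_of_nonneg_right ?_ k3
            refine mul_le_mul ?_ k2 (abs_nonneg _) (by positivity)
            exact mul_le_mul (hA i β) k1 (abs_nonneg _) hH
        _ = H * ((p.q : ℤ) ^ (2 * a) * (p.q : ℤ) ^ (2 * a') *
            (p.q : ℤ) ^ (2 * (p.Q - a - a'))) := by ring
    · rw [abs_zero]
      positivity
  refine (abs_sum_le_sum_abs _ _).trans ?_
  calc ∑ β ∈ range p.B, |∑ i ∈ range p.P, _| ≤ ∑ β ∈ range p.B, ∑ i ∈ range p.P,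
        H * (p.q : ℤ) ^ (2 * p.Q) := by
        refine sum_le_sum fun β hβ => (abs_sum_le_sum_abs _ _).trans ?_
        exact sum_le_sum fun i hi => hterm β hβ i hi
    _ = p.P * p.B * H * (p.q : ℤ) ^ (2 * p.Q) := by
        rw [sum_const, sum_const, card_range, card_range, nsmul_eq_mul, nsmul_eq_mul]
        ring

private theorem nbd_AP (p : Par) (A : ℕ → ℕ → ℤ)
    {H : ℤ} (hA : ∀ i β, |A i β| ≤ H) :
    nrm (AP p A) ≤ p.P * p.B * H * (p.q : ℤ) ^ (2 * p.Q) := by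
  unfold AP
  refine (nbd_sum _ _).trans ?_
  calc ∑ i ∈ range p.P, nrm (∑ β ∈ range p.B, monomial (p.P - 1 - i + p.n * (p.B - 1 - β))
          (monomial (β + p.L) ((p.q : ℤ) ^ (2 * p.Q) * A i β)))
      ≤ ∑ i ∈ range p.P, ∑ β ∈ range p.B, H * (p.q : ℤ) ^ (2 * p.Q) := by
        refine sum_le_sum fun i _ => (nbd_sum _ _).trans ?_
        refine sum_le_sum fun β _ => ?_
        have h0 : (0 : ℤ) ≤ (p.q : ℤ) ^ (2 * p.Q) := by positivity
        rw [nrm_monomial, abs_mul, abs_of_nonneg h0, mul_comm]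
        exact mul_le_mul_of_nonneg_right (hA i β) h0
    _ = p.P * p.B * H * (p.q : ℤ) ^ (2 * p.Q) := by
        rw [sum_const, sum_const, card_range, card_range, nsmul_eq_mul, nsmul_eq_mul]
        ring

private theorem nbd_BP (p : Par) (h1 : 1 ≤ p.h) (hh : p.h ≤ p.q) (hn : 1 ≤ p.n) (A : ℕ → ℕ → ℤ)
    {H : ℤ} (hA : ∀ i β, |A i β| ≤ H) :
    nrm (BP p A) ≤ p.S * (p.B + p.L) * (p.P * p.B * H * (p.q : ℤ) ^ (2 * p.Q)) := by
  unfold BP
  rw [nrm_neg]
  refine (nbd_sum _ _).trans ?_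
  calc ∑ r ∈ range p.S, nrm (∑ j ∈ range (p.B + p.L),
          monomial (p.S - 1 - r + p.n * (p.B + p.L - 1 - j)) (monomial j (gZ p A r j)))
      ≤ ∑ r ∈ range p.S, ∑ j ∈ range (p.B + p.L), p.P * p.B * H * (p.q : ℤ) ^ (2 * p.Q) := by
        refine sum_le_sum fun r hr => (nbd_sum _ _).trans ?_
        refine sum_le_sum fun j _ => ?_
        rw [nrm_monomial]
        refine nbd_gZ p h1 hh hn A hA ?_ j
        have h2 := mem_range.1 hr
        have h3 : p.S ≤ p.Q := by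
          unfold Par.S Par.Q
          omega
        omega
    _ = p.S * (p.B + p.L) * (p.P * p.B * H * (p.q : ℤ) ^ (2 * p.Q)) := by
        rw [sum_const, sum_const, card_range, card_range, nsmul_eq_mul, nsmul_eq_mul]
        push_cast
        ring

theorem nrm_NN (p : Par) (h1 : 1 ≤ p.h) (hh : p.h ≤ p.q) (hn : 1 ≤ p.n) (A : ℕ → ℕ → ℤ) {H : ℤ}
    (hA : ∀ i β, |A i β| ≤ H) :
    nrm (NN p A) ≤ 8 * p.q * (p.P + p.S + p.n * (2 * p.B + p.L) + 2) *
      ((p.P * p.B * H * (p.q : ℤ) ^ (2 * p.Q)) *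
        (p.S * (p.B + p.L) * (p.P * p.B * H * (p.q : ℤ) ^ (2 * p.Q)))) := by
  have hq : 1 ≤ p.q := h1.trans hh
  obtain ⟨D, hD⟩ : ∃ D : ℕ, D = p.P + p.S + p.n * (2 * p.B + p.L) + 2 := ⟨_, rfl⟩
  have hDz : ((p.P : ℤ) + p.S + p.n * (2 * p.B + p.L) + 2) = D := by
    rw [hD]
    push_cast
    ring
  rw [hDz]
  have e : p.n * (2 * p.B + p.L) = p.n * p.B + p.n * (p.B + p.L) := by ring
  have dA : (AP p A).natDegree ≤ D := (nbd_AP_deg p A).trans (by omega)
  have dB : (BP p A).natDegree ≤ D := (nbd_BP_deg p A).trans (by omega)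
  have hJ : p.J ≤ D := by
    have h2 : p.J ≤ p.S := by
      unfold Par.S
      omega
    omega
  have nA := nrm_nonneg (AP p A)
  have nB := nrm_nonneg (BP p A)
  have bA := nbd_AP p A hA
  have bB := nbd_BP p h1 hh hn A hA
  have cA := nbd_der (AP p A) dA
  have cB := nbd_der (BP p A) dB
  have hD0 : (0 : ℤ) ≤ D := by positivity
  have hq0 : (0 : ℤ) ≤ p.q := by positivity
  have hJ0 : (0 : ℤ) ≤ p.J := by positivity
  have key : nrm (NN p A) ≤ 8 * p.q * D * (nrm (AP p A) * nrm (BP p A)) := by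
    unfold NN
    refine (nrm_add _ _).trans ?_
    have f1 : nrm (C (C (p.q : ℤ)) * (X * (X - 1)) *
        (BP p A * derivative (AP p A) - AP p A * derivative (BP p A))) ≤
        (p.q * 2) * (2 * D * (nrm (AP p A) * nrm (BP p A))) := by
      refine (nrm_mul _ _).trans ?_
      have g1 : nrm (C (C (p.q : ℤ)) * (X * (X - 1)) : ℤ[X][X]) ≤ p.q * 2 := by
        refine (nrm_mul _ _).trans ?_
        rw [nbd_CC, abs_of_nonneg hq0]
        refine mul_le_mul_of_nonneg_left ?_ hq0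
        refine (nrm_mul _ _).trans ?_
        rw [nbd_X, one_mul]
        exact nbd_X1
      have g2 : nrm (BP p A * derivative (AP p A) - AP p A * derivative (BP p A)) ≤
          2 * D * (nrm (AP p A) * nrm (BP p A)) := by
        refine (nbd_sub _ _).trans ?_
        have u1 : nrm (BP p A * derivative (AP p A)) ≤ nrm (BP p A) * (D * nrm (AP p A)) :=
          (nrm_mul _ _).trans (mul_le_mul_of_nonneg_left cA nB)
        have u2 : nrm (AP p A * derivative (BP p A)) ≤ nrm (AP p A) * (D * nrm (BP p A)) :=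
          (nrm_mul _ _).trans (mul_le_mul_of_nonneg_left cB nA)
        linarith
      exact mul_le_mul g1 g2 (nrm_nonneg _) (by positivity)
    have f2 : nrm (AP p A * BP p A * (C (C ((p.q : ℤ) * p.J)) * (X - 1) - C (C (p.h : ℤ)))) ≤
        (nrm (AP p A) * nrm (BP p A)) * (p.q * p.J * 2 + p.h) := by
      refine (nrm_mul _ _).trans ?_
      refine mul_le_mul (nrm_mul _ _) ?_ (nrm_nonneg _) (by positivity)
      refine (nbd_sub _ _).trans ?_
      have g1 : nrm (C (C ((p.q : ℤ) * p.J)) * (X - 1) : ℤ[X][X]) ≤ p.q * p.J * 2 := by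
        refine (nrm_mul _ _).trans ?_
        rw [nbd_CC, abs_of_nonneg (by positivity)]
        exact mul_le_mul_of_nonneg_left nbd_X1 (by positivity)
      have g2 : nrm (C (C (p.h : ℤ)) : ℤ[X][X]) = p.h := by
        rw [nbd_CC, abs_of_nonneg (by positivity)]
      rw [g2]
      linarith
    have v1 : (p.q : ℤ) * p.J ≤ p.q * D := by
      refine mul_le_mul_of_nonneg_left ?_ hq0
      exact_mod_cast hJ
    have v2 : (p.h : ℤ) ≤ p.q * D := by
      have w1 : (p.h : ℤ) ≤ p.q := by exact_mod_cast hh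
      have w2 : (1 : ℤ) ≤ D := by
        have : 1 ≤ D := by omega
        exact_mod_cast this
      nlinarith
    have v3 : (nrm (AP p A) * nrm (BP p A)) * (p.q * p.J * 2 + p.h) ≤
        (nrm (AP p A) * nrm (BP p A)) * (4 * (p.q * D)) := by
      refine mul_le_mul_of_nonneg_left ?_ (mul_nonneg nA nB)
      have w3 : (0 : ℤ) ≤ p.q * D := by positivity
      linarith
    linarith
  refine key.trans ?_
  refine mul_le_mul_of_nonneg_left ?_ (by positivity)
  exact mul_le_mul bA bB nB (nA.trans bA)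

end Pool.Agent.NLC
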