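import Pool.Agent.NLC.Defs

/-!
# NLC-NNz: the polynomial `NN` is not zero

(1) `AP ≠ 0`: the coefficient at `z ^ (P-1-i + n (B-1-β)) w ^ (β+L)` is `q ^ (2Q) A i β`.
(2) `BP ≠ 0`: let `β₀` be the largest `β < B` with some `A i β ≠ 0` and `i₀` the smallest `i` with `A i β₀ ≠ 0`; then
`gZ i₀ (β₀ + L) = A i₀ β₀ q ^ (2Q)`.
(3) For `F = X^a F₁`, `G = X^b G₁` with `F₁`, `G₁` of non-zero constant coefficient the polynomial
`q X (X-1) (G F' - F G') + F G (qJ (X-1) - h)` is `X ^ (a+b)` times a polynomial with the constant coefficient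
`- (q (a - b) + q J + h) F₁(0) G₁(0)`, and `q ∤ h`.
-/

namespace Pool.Agent.NLC

open Finset Polynomial
open Pool.Agent.NLG (KZ kap)

section gen

variable {R : Type*} [CommRing R]

private theorem nnz_der (a : ℕ) (F : R[X]) :
    X * derivative (X ^ a * F) = X ^ a * (C (a : R) * F + X * derivative F) := by
  rw [derivative_mul, derivative_X_pow]
  rcases a with _ | a
  · simp
  · rw [Nat.add_sub_cancel]
    ring

private theorem nnz_split [IsDomain R] {F : R[X]} (hF : F ≠ 0) :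
    ∃ (a : ℕ) (F1 : R[X]), F = X ^ a * F1 ∧ F1.eval 0 ≠ 0 := by
  have h1 : X ^ F.natTrailingDegree ∣ F := by
    rw [X_pow_dvd_iff]
    intro d hd
    exact coeff_eq_zero_of_lt_natTrailingDegree hd
  obtain ⟨F1, h2⟩ := h1
  refine ⟨F.natTrailingDegree, F1, h2, ?_⟩
  have h3 : F.coeff F.natTrailingDegree ≠ 0 := by
    have := trailingCoeff_nonzero_iff_nonzero.2 hF
    exact this
  rw [← coeff_zero_eq_eval_zero]
  intro h4
  apply h3
  generalize F.natTrailingDegree = a at h2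
  rw [h2, coeff_X_pow_mul', if_pos le_rfl, Nat.sub_self, h4]

private theorem nnz_main [IsDomain R] {F G : R[X]} (hF : F ≠ 0) (hG : G ≠ 0) {q J h : R}
    (hc : ∀ a b : ℕ, q * ((a : R) - b) + J + h ≠ 0) :
    C q * (X * (X - 1)) * (G * derivative F - F * derivative G) +
      F * G * (C J * (X - 1) - C h) ≠ 0 := by
  obtain ⟨a, F1, rfl, hF1⟩ := nnz_split hF
  obtain ⟨b, G1, rfl, hG1⟩ := nnz_split hG
  have e : C q * (X * (X - 1)) * (X ^ b * G1 * derivative (X ^ a * F1) -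
      X ^ a * F1 * derivative (X ^ b * G1)) + X ^ a * F1 * (X ^ b * G1) * (C J * (X - 1) - C h) =
      X ^ (a + b) * (C q * (X - 1) * (G1 * (C (a : R) * F1 + X * derivative F1) -
        F1 * (C (b : R) * G1 + X * derivative G1)) + F1 * G1 * (C J * (X - 1) - C h)) := by
    have h1 := nnz_der a F1
    have h2 := nnz_der b G1
    have e1 : C q * (X * (X - 1)) * (X ^ b * G1 * derivative (X ^ a * F1) -
        X ^ a * F1 * derivative (X ^ b * G1)) =
        C q * (X - 1) * (X ^ b * G1 * (X * derivative (X ^ a * F1)) -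
          X ^ a * F1 * (X * derivative (X ^ b * G1))) := by ring
    rw [e1, h1, h2, pow_add]
    ring
  rw [e]
  refine mul_ne_zero (pow_ne_zero _ X_ne_zero) fun h0 => ?_
  have h3 := congrArg (eval 0) h0
  simp only [eval_add, eval_mul, eval_sub, eval_C, eval_X, eval_one, eval_zero, zero_mul, add_zero,
    zero_sub] at h3
  have h4 : F1.eval 0 * G1.eval 0 * (q * ((a : R) - b) + J + h) = 0 := by
    linear_combination -h3
  exact mul_ne_zero (mul_ne_zero hF1 hG1) (hc a b) h4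

end gen

private theorem nnz_coeff {P B n : ℕ} (f : ℕ → ℕ → ℤ) (d : ℕ → ℕ) (hd : ∀ β β', d β = d β' → β = β')
    (e : ℕ → ℕ) {i β : ℕ} (hi : i < P) (hβ : β < B) :
    ((∑ i ∈ range P, ∑ β ∈ range B, monomial (P - 1 - i + n * e β) (monomial (d β) (f i β)) :
      ℤ[X][X]).coeff (P - 1 - i + n * e β)).coeff (d β) = f i β := by
  rw [finsetSum_coeff, finsetSum_coeff, Finset.sum_eq_single i]
  · rw [finsetSum_coeff, finsetSum_coeff, Finset.sum_eq_single β]
    · rw [coeff_monomial, if_pos rfl, coeff_monomial, if_pos rfl]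
    · intro β' _ hne
      rw [coeff_monomial]
      split_ifs
      · rw [coeff_monomial, if_neg fun h => hne (hd _ _ h)]
      · rw [coeff_zero]
    · intro h
      exact absurd (Finset.mem_range.2 hβ) h
  · intro i' hi' hne
    rw [finsetSum_coeff, finsetSum_coeff]
    refine Finset.sum_eq_zero fun β' _ => ?_
    rw [coeff_monomial]
    split_ifs with h
    · rw [coeff_monomial]
      split_ifs with h'
      · have h2 := hd _ _ h'
        subst h2
        have h3 := Finset.mem_range.1 hi'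
        exfalso
        omega
      · rfl
    · rw [coeff_zero]
  · intro h
    exact absurd (Finset.mem_range.2 hi) h

private theorem nnz_AP (p : Par) (hq : 0 < p.q) (A : ℕ → ℕ → ℤ)
    (hA : ∃ i < p.P, ∃ β < p.B, A i β ≠ 0) : AP p A ≠ 0 := by
  obtain ⟨i, hi, β, hβ, hne⟩ := hA
  intro h0
  have h1 := nnz_coeff (n := p.n) (fun i β => (p.q : ℤ) ^ (2 * p.Q) * A i β) (fun β => β + p.L)
    (fun β β' h => by omega) (fun β => p.B - 1 - β) hi hβ
  have h2 : AP p A = ∑ i ∈ range p.P, ∑ β ∈ range p.B,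
    monomial (p.P - 1 - i + p.n * (p.B - 1 - β)) (monomial (β + p.L) ((p.q : ℤ) ^ (2 * p.Q) * A i β)) := rfl
  rw [← h2, h0, coeff_zero, coeff_zero] at h1
  have h3 : (p.q : ℤ) ^ (2 * p.Q) ≠ 0 := pow_ne_zero _ (by exact_mod_cast hq.ne')
  exact mul_ne_zero h3 hne h1.symm

private theorem nnz_gZ (p : Par) (hq : 0 < p.q) (A : ℕ → ℕ → ℤ)
    (hA : ∃ i < p.P, ∃ β < p.B, A i β ≠ 0) : ∃ r < p.S, ∃ j < p.B + p.L, gZ p A r j ≠ 0 := by
  classical
  obtain ⟨i, hi, β, hβ, hne⟩ := hA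
  -- the largest β
  let Q1 : ℕ → Prop := fun β => β < p.B ∧ ∃ i < p.P, A i β ≠ 0
  have hQ1 : Q1 β := ⟨hβ, i, hi, hne⟩
  have hb1 : Q1 (Nat.findGreatest Q1 p.B) := Nat.findGreatest_spec hβ.le hQ1
  obtain ⟨hb2, i1, hi1, hne1⟩ := hb1
  have hb3 : ∀ β', β' < p.B → Nat.findGreatest Q1 p.B < β' → ∀ i < p.P, A i β' = 0 := by
    intro β' h1 h2 i h3
    by_contra h4
    exact Nat.findGreatest_is_greatest h2 h1.le ⟨h1, i, h3, h4⟩
  generalize Nat.findGreatest Q1 p.B = β0 at hb2 hne1 hb3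
  -- the smallest i
  have hex : ∃ i, A i β0 ≠ 0 := ⟨i1, hne1⟩
  have hi0 := Nat.find_spec hex
  have hi2 : ∀ i < Nat.find hex, A i β0 = 0 := fun i h => not_not.1 (Nat.find_min hex h)
  have hi3 : Nat.find hex < p.P := lt_of_le_of_lt (Nat.find_min' hex hne1) hi1
  generalize Nat.find hex = i0 at hi0 hi2 hi3
  refine ⟨i0, lt_of_lt_of_le hi3 (Nat.le_add_right _ _), β0 + p.L, by omega, ?_⟩
  have key : gZ p A i0 (β0 + p.L) = A i0 β0 * (p.q : ℤ) ^ (2 * p.Q) := by
    unfold gZ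
    rw [Finset.sum_eq_single β0]
    · rw [Finset.sum_eq_single i0]
      · rw [Nat.sub_self, Nat.mul_zero, Nat.add_zero, if_pos ⟨le_rfl, le_rfl⟩, Nat.sub_self, Nat.sub_zero,
          Pool.Agent.NLG.KZ_zero_right hq, Pool.Agent.NLG.KZ_zero_right hq, Nat.sub_zero, Nat.sub_zero, mul_one,
          mul_one]
      · intro i _ hne
        split_ifs with h
        · have h2 : i < i0 := by
            have h3 := h.2
            rw [Nat.sub_self, Nat.mul_zero, Nat.add_zero] at h3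
            omega
          rw [hi2 i h2, zero_mul, zero_mul, zero_mul]
        · rfl
      · intro h
        exact absurd (Finset.mem_range.2 hi3) h
    · intro β' hβ' hne
      refine Finset.sum_eq_zero fun i hi => ?_
      split_ifs with h
      · have h2 : β0 < β' := by omega
        rw [hb3 β' (Finset.mem_range.1 hβ') h2 i (Finset.mem_range.1 hi), zero_mul, zero_mul, zero_mul]
      · rfl
    · intro h
      exact absurd (Finset.mem_range.2 hb2) h
  rw [key]
  exact mul_ne_zero hi0 (pow_ne_zero _ (by exact_mod_cast hq.ne'))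

private theorem nnz_BP (p : Par) (hq : 0 < p.q) (A : ℕ → ℕ → ℤ)
    (hA : ∃ i < p.P, ∃ β < p.B, A i β ≠ 0) : BP p A ≠ 0 := by
  obtain ⟨r, hr, j, hj, hne⟩ := nnz_gZ p hq A hA
  intro h0
  have h1 := nnz_coeff (n := p.n) (fun r j => gZ p A r j) (fun j => j)
    (fun _ _ h => h) (fun j => p.B + p.L - 1 - j) hr hj
  have h2 : BP p A = -∑ r ∈ range p.S, ∑ j ∈ range (p.B + p.L),
    monomial (p.S - 1 - r + p.n * (p.B + p.L - 1 - j)) (monomial j (gZ p A r j)) := rfl
  rw [h2, neg_eq_zero] at h0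
  rw [h0, coeff_zero, coeff_zero] at h1
  exact hne h1.symm

theorem NN_ne_zero (p : Par) (h1 : 1 ≤ p.h) (hh : p.h < p.q) (A : ℕ → ℕ → ℤ)
    (hA : ∃ i < p.P, ∃ β < p.B, A i β ≠ 0) : NN p A ≠ 0 := by
  have hq : 0 < p.q := by omega
  unfold NN
  refine nnz_main (nnz_AP p hq A hA) (nnz_BP p hq A hA) fun a b => ?_
  have e : C (p.q : ℤ) * ((a : ℤ[X]) - (b : ℤ[X])) + C ((p.q : ℤ) * p.J) + C (p.h : ℤ) =
      C ((p.q : ℤ) * ((a : ℤ) - b) + (p.q : ℤ) * p.J + p.h) := by
    simp only [map_add, map_mul, map_sub, map_natCast]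
  rw [e, Ne, C_eq_zero]
  intro h0
  have h2 : (p.q : ℤ) ∣ p.h := ⟨-((a : ℤ) - b + p.J), by linear_combination h0⟩
  have h3 := Nat.le_of_dvd (by omega) (Int.natCast_dvd_natCast.1 h2)
  omega

end Pool.Agent.NLC
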