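import Pool.Agent.NLC.RDefs

/-!
# NLC-RothB: the weighted order of the determinant

PLAN.  Say `Mo t F` iff `∀ a b, a + n b < t → mom z w F a b = 0`.
(1) `mom z w (tt a b F) c d = mom z w F (a + c) (b + d)`, so `Mo t F → Mo (t - a - n b) (tt a b F)`.
(2) `mom` is additive in `F`, `mom z w (-F) = - mom`, and Leibniz:
`mom z w (F * G) a b = ∑ a₁ ≤ a, ∑ b₁ ≤ b, choose a a₁ * choose b b₁ * mom z w F a₁ b₁ *
mom z w G (a - a₁) (b - b₁)` (check on `monomial i (monomial j c)`: `(i+i')^a (j+j')^b`, `add_pow`;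
additivity in both arguments; write `mom z w F a b` as a linear map).  So `Mo t F`, `Mo t' G` give
`Mo (t + t') (F * G)` (if `a + n b < t + t'` then `a₁ + n b₁ < t` or `(a-a₁) + n (b-b₁) < t'`), and
`Mo (∑ t_k) (∏ F_k)`; `Mo 0` always holds.
(3) `Matrix.det_apply'`: each product `∏ b, M (σ b) b` has `Mo (∑ b, (t - σ b - n b))`, and
`t - (K-1) - n b ≤ t - σ b - n b` (truncated subtraction, `σ b ≤ K - 1`).
-/

namespace Pool.Agent.NLC

open Finset Polynomial

private theorem rb_ind {P : ℤ[X][X] → Prop} (hadd : ∀ F G, P F → P G → P (F + G))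
    (hm : ∀ (i j : ℕ) (c : ℤ), P (monomial i (monomial j c))) (F : ℤ[X][X]) : P F := by
  induction F using Polynomial.induction_on' with
  | add p q hp hq => exact hadd p q hp hq
  | monomial i f =>
    induction f using Polynomial.induction_on' with
    | add p q hp hq =>
      rw [map_add]
      exact hadd _ _ hp hq
    | monomial j c => exact hm i j c

private theorem rb_inner_add (w : ℤ) (b : ℕ) (f g : ℤ[X]) :
    ((f + g).sum fun j c => (j : ℤ) ^ b * w ^ j * c) =
      (f.sum fun j c => (j : ℤ) ^ b * w ^ j * c) + g.sum fun j c => (j : ℤ) ^ b * w ^ j * c :=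
  Polynomial.sum_add_index f g _ (fun _ => mul_zero _) (fun _ _ _ => mul_add _ _ _)

private theorem rb_inner_zero (w : ℤ) (b : ℕ) :
    ((0 : ℤ[X]).sum fun j c => (j : ℤ) ^ b * w ^ j * c) = 0 := Polynomial.sum_zero_index _

private theorem rb_add (z w : ℤ) (a b : ℕ) (F G : ℤ[X][X]) :
    mom z w (F + G) a b = mom z w F a b + mom z w G a b := by
  unfold mom
  refine Polynomial.sum_add_index F G _ (fun i => ?_) (fun i f g => ?_)
  · rw [rb_inner_zero, mul_zero]
  · rw [rb_inner_add, mul_add]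

private theorem rb_zero (z w : ℤ) (a b : ℕ) : mom z w 0 a b = 0 := Polynomial.sum_zero_index _

private theorem rb_mon (z w : ℤ) (a b i j : ℕ) (c : ℤ) :
    mom z w (monomial i (monomial j c)) a b = (i : ℤ) ^ a * z ^ i * ((j : ℤ) ^ b * w ^ j * c) := by
  unfold mom
  rw [Polynomial.sum_monomial_index, Polynomial.sum_monomial_index]
  · rw [mul_zero]
  · rw [rb_inner_zero, mul_zero]

private theorem rb_sum (z w : ℤ) (a b : ℕ) {ι : Type} (s : Finset ι) (F : ι → ℤ[X][X]) :
    mom z w (∑ x ∈ s, F x) a b = ∑ x ∈ s, mom z w (F x) a b := by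
  classical
  induction s using Finset.induction_on with
  | empty => rw [Finset.sum_empty, Finset.sum_empty, rb_zero]
  | insert x s hx ih => rw [Finset.sum_insert hx, Finset.sum_insert hx, rb_add, ih]

private theorem rb_mul (z w : ℤ) (a b : ℕ) (F G : ℤ[X][X]) :
    mom z w (F * G) a b = ∑ a₁ ∈ range (a + 1), ∑ b₁ ∈ range (b + 1),
      ((a.choose a₁ : ℤ) * (b.choose b₁ : ℤ)) *
        (mom z w F a₁ b₁ * mom z w G (a - a₁) (b - b₁)) := by
  revert G
  refine rb_ind (P := fun F => ∀ G, mom z w (F * G) a b = ∑ a₁ ∈ range (a + 1),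
    ∑ b₁ ∈ range (b + 1), ((a.choose a₁ : ℤ) * (b.choose b₁ : ℤ)) *
        (mom z w F a₁ b₁ * mom z w G (a - a₁) (b - b₁))) ?_ ?_ F
  · intro F F' h h' G
    rw [add_mul, rb_add, h G, h' G, ← Finset.sum_add_distrib]
    refine Finset.sum_congr rfl fun a₁ _ => ?_
    rw [← Finset.sum_add_distrib]
    refine Finset.sum_congr rfl fun b₁ _ => ?_
    rw [rb_add]
    ring
  · intro i j c G
    refine rb_ind (P := fun G => mom z w (monomial i (monomial j c) * G) a b =
      ∑ a₁ ∈ range (a + 1), ∑ b₁ ∈ range (b + 1), ((a.choose a₁ : ℤ) * (b.choose b₁ : ℤ)) *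
        (mom z w (monomial i (monomial j c)) a₁ b₁ * mom z w G (a - a₁) (b - b₁))) ?_ ?_ G
    · intro G G' h h'
      rw [mul_add, rb_add, h, h', ← Finset.sum_add_distrib]
      refine Finset.sum_congr rfl fun a₁ _ => ?_
      rw [← Finset.sum_add_distrib]
      refine Finset.sum_congr rfl fun b₁ _ => ?_
      rw [rb_add]
      ring
    · intro i' j' c'
      rw [monomial_mul_monomial, monomial_mul_monomial, rb_mon]
      have e1 : ((i + i' : ℕ) : ℤ) ^ a = ∑ m ∈ range (a + 1),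
          (i : ℤ) ^ m * (i' : ℤ) ^ (a - m) * (a.choose m : ℤ) := by
        rw [Nat.cast_add, add_pow]
      have e2 : ((j + j' : ℕ) : ℤ) ^ b = ∑ m ∈ range (b + 1),
          (j : ℤ) ^ m * (j' : ℤ) ^ (b - m) * (b.choose m : ℤ) := by
        rw [Nat.cast_add, add_pow]
      have e3 : ((i + i' : ℕ) : ℤ) ^ a * z ^ (i + i') *
          (((j + j' : ℕ) : ℤ) ^ b * w ^ (j + j') * (c * c')) =
          (((i + i' : ℕ) : ℤ) ^ a * ((j + j' : ℕ) : ℤ) ^ b) *
            (z ^ i * z ^ i' * (w ^ j * w ^ j') * (c * c')) := by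
        rw [pow_add z, pow_add w]
        ring
      rw [e3, e1, e2, Finset.sum_mul_sum, Finset.sum_mul]
      refine Finset.sum_congr rfl fun a₁ _ => ?_
      rw [Finset.sum_mul]
      refine Finset.sum_congr rfl fun b₁ _ => ?_
      rw [rb_mon, rb_mon]
      ring

private theorem rb_tt_add (a b : ℕ) (F G : ℤ[X][X]) : tt a b (F + G) = tt a b F + tt a b G := by
  ext i j
  rw [coeff_tt, coeff_add, coeff_add, coeff_add, coeff_add, coeff_tt, coeff_tt]
  ring

private theorem rb_tt_mon (a b i j : ℕ) (c : ℤ) :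
    tt a b (monomial i (monomial j c)) =
      monomial i (monomial j ((i : ℤ) ^ a * (j : ℤ) ^ b * c)) := by
  ext i' j'
  rw [coeff_tt, coeff_monomial, coeff_monomial]
  split_ifs with h
  · subst h
    rw [coeff_monomial, coeff_monomial]
    split_ifs with h2
    · subst h2
      rfl
    · rw [mul_zero]
  · rw [coeff_zero, mul_zero]

private theorem rb_tt (z w : ℤ) (a b c d : ℕ) (F : ℤ[X][X]) :
    mom z w (tt a b F) c d = mom z w F (a + c) (b + d) := by
  refine rb_ind (P := fun F => mom z w (tt a b F) c d = mom z w F (a + c) (b + d)) ?_ ?_ F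
  · intro F G h h'
    rw [rb_tt_add, rb_add, rb_add, h, h']
  · intro i j e
    rw [rb_tt_mon, rb_mon, rb_mon, pow_add, pow_add]
    ring

private def Mo (z w : ℤ) (n t : ℕ) (F : ℤ[X][X]) : Prop :=
  ∀ a b, a + n * b < t → mom z w F a b = 0

private theorem mo_zero (z w : ℤ) (n : ℕ) (F : ℤ[X][X]) : Mo z w n 0 F :=
  fun _ _ h => absurd h (Nat.not_lt_zero _)

private theorem mo_mul {z w : ℤ} {n t t' : ℕ} {F G : ℤ[X][X]} (hF : Mo z w n t F)
    (hG : Mo z w n t' G) : Mo z w n (t + t') (F * G) := by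
  intro a b hab
  rw [rb_mul]
  refine Finset.sum_eq_zero fun a₁ ha => Finset.sum_eq_zero fun b₁ hb => ?_
  have ha' : a₁ ≤ a := Nat.lt_succ_iff.1 (Finset.mem_range.1 ha)
  have hb' : b₁ ≤ b := Nat.lt_succ_iff.1 (Finset.mem_range.1 hb)
  by_cases h : a₁ + n * b₁ < t
  · rw [hF a₁ b₁ h, zero_mul, mul_zero]
  · have h2 : (a - a₁) + n * (b - b₁) < t' := by
      have h3 : n * b = n * b₁ + n * (b - b₁) := by
        rw [← Nat.mul_add, Nat.add_sub_cancel' hb']
      omega
    rw [hG _ _ h2, mul_zero, mul_zero]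

private theorem mo_prod {z w : ℤ} {n : ℕ} {ι : Type} (s : Finset ι) (t : ι → ℕ)
    (F : ι → ℤ[X][X]) (h : ∀ x, Mo z w n (t x) (F x)) :
    Mo z w n (∑ x ∈ s, t x) (∏ x ∈ s, F x) := by
  classical
  induction s using Finset.induction_on with
  | empty => rw [Finset.sum_empty]; exact mo_zero z w n _
  | insert x s hx ih =>
    rw [Finset.sum_insert hx, Finset.prod_insert hx]
    exact mo_mul (h x) ih

private theorem mo_tt {z w : ℤ} {n t : ℕ} {F : ℤ[X][X]} (hF : Mo z w n t F) (a b : ℕ) :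
    Mo z w n (t - a - n * b) (tt a b F) := by
  intro c d hcd
  rw [rb_tt]
  refine hF _ _ ?_
  rw [Nat.mul_add]
  omega

theorem mom_DD {z w : ℤ} {n t : ℕ} {N : ℤ[X][X]} (K : ℕ)
    (h : ∀ a b, a + n * b < t → mom z w N a b = 0) :
    ∀ a b, a + n * b < ∑ c ∈ range K, (t - (K - 1) - n * c) → mom z w (DD K N) a b = 0 := by
  intro a b hab
  unfold DD
  rw [Matrix.det_apply', rb_sum]
  refine Finset.sum_eq_zero fun σ _ => ?_
  have h1 : Mo z w n (∑ c : Fin K, (t - (σ c : ℕ) - n * (c : ℕ)))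
      (∏ c : Fin K, tt (σ c : ℕ) (c : ℕ) N) :=
    mo_prod Finset.univ (fun c : Fin K => t - (σ c : ℕ) - n * (c : ℕ)) _
      fun c => mo_tt (F := N) h (σ c : ℕ) (c : ℕ)
  have h2 := mo_mul (mo_zero z w n (((Equiv.Perm.sign σ : ℤ) : ℤ[X][X]))) h1
  refine h2 a b (lt_of_lt_of_le hab ?_)
  rw [zero_add, Finset.sum_range]
  refine Finset.sum_le_sum fun c _ => ?_
  have h3 := (σ c).isLt
  omega

end Pool.Agent.NLC
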