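import Pool.Agent.NLC.RDefs
import Pool.Agent.NLC.NBd

/-!
# NLC-RothC: the size of the determinant

PLAN.  `nrm (tt a b N) ≤ D1 ^ a D2 ^ b nrm N ≤ (D1 D2) ^ K nrm N` for `a, b < K` (`1 ≤ D1, D2`;
`coeff_tt`: coefficients at `(i, j)`, `i ≤ D1`, `j ≤ D2`; note `0 ^ 0 = 1 ≤ D1 ^ 0`).  `Matrix.det_apply`,
`K!` terms, `nrm_add`, `nrm_neg`, `nrm_mul` and `nrm 1 = 1` (induction over `Finset.prod`).
-/

namespace Pool.Agent.NLC

open Finset Polynomial

private theorem rc_inner {f : ℤ[X]} {D : ℕ} (h : f.natDegree ≤ D) :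
    (f.sum fun _ c => |c|) = ∑ j ∈ range (D + 1), |f.coeff j| :=
  Polynomial.sum_over_range' f (fun _ => abs_zero) (D + 1) (Nat.lt_succ_iff.2 h)

private theorem rc_nrm {F : ℤ[X][X]} {D1 D2 : ℕ} (h1 : F.natDegree ≤ D1)
    (h2 : ∀ i, (F.coeff i).natDegree ≤ D2) :
    nrm F = ∑ i ∈ range (D1 + 1), ∑ j ∈ range (D2 + 1), |(F.coeff i).coeff j| := by
  unfold nrm
  rw [Polynomial.sum_over_range' F (fun _ => Polynomial.sum_zero_index _) (D1 + 1)
    (Nat.lt_succ_iff.2 h1)]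
  exact Finset.sum_congr rfl fun i _ => rc_inner (h2 i)

private theorem rc_tt {N : ℤ[X][X]} {D1 D2 : ℕ} (h1 : 1 ≤ D1) (h2 : 1 ≤ D2)
    (hD1 : N.natDegree ≤ D1) (hD2 : ∀ i, (N.coeff i).natDegree ≤ D2) {a b K : ℕ} (ha : a < K)
    (hb : b < K) : nrm (tt a b N) ≤ ((D1 : ℤ) * D2) ^ K * nrm N := by
  have e1 : (tt a b N).natDegree ≤ D1 := by
    rw [Polynomial.natDegree_le_iff_coeff_eq_zero]
    intro i hi
    ext j
    rw [coeff_tt, Polynomial.coeff_eq_zero_of_natDegree_lt (lt_of_le_of_lt hD1 hi), coeff_zero,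
      mul_zero]
  have e2 : ∀ i, ((tt a b N).coeff i).natDegree ≤ D2 := by
    intro i
    rw [Polynomial.natDegree_le_iff_coeff_eq_zero]
    intro j hj
    rw [coeff_tt, Polynomial.coeff_eq_zero_of_natDegree_lt (lt_of_le_of_lt (hD2 i) hj), mul_zero]
  rw [rc_nrm e1 e2, rc_nrm hD1 hD2, Finset.mul_sum]
  refine Finset.sum_le_sum fun i hi => ?_
  rw [Finset.mul_sum]
  refine Finset.sum_le_sum fun j hj => ?_
  have hi' : i ≤ D1 := Nat.lt_succ_iff.1 (Finset.mem_range.1 hi)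
  have hj' : j ≤ D2 := Nat.lt_succ_iff.1 (Finset.mem_range.1 hj)
  rw [coeff_tt, abs_mul]
  refine mul_le_mul_of_nonneg_right ?_ (abs_nonneg _)
  rw [abs_mul, abs_pow, abs_pow, Nat.abs_cast, Nat.abs_cast, mul_pow]
  have k1 : (i : ℤ) ^ a ≤ (D1 : ℤ) ^ K := by
    have : i ^ a ≤ D1 ^ K := (Nat.pow_le_pow_left hi' a).trans (Nat.pow_le_pow_right h1 ha.le)
    exact_mod_cast this
  have k2 : (j : ℤ) ^ b ≤ (D2 : ℤ) ^ K := by
    have : j ^ b ≤ D2 ^ K := (Nat.pow_le_pow_left hj' b).trans (Nat.pow_le_pow_right h2 hb.le)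
    exact_mod_cast this
  exact mul_le_mul k1 k2 (by positivity) (by positivity)

private theorem rc_one : nrm (1 : ℤ[X][X]) = 1 := by
  have h := nrm_monomial 0 0 1
  rw [monomial_zero_one, monomial_zero_one, abs_one] at h
  exact h

private theorem rc_prod {ι : Type} (s : Finset ι) (F : ι → ℤ[X][X]) {B : ℤ}
    (h : ∀ x, nrm (F x) ≤ B) : nrm (∏ x ∈ s, F x) ≤ B ^ s.card := by
  classical
  induction s using Finset.induction_on with
  | empty => rw [Finset.prod_empty, Finset.card_empty, pow_zero, rc_one]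
  | insert x s hx ih =>
    rw [Finset.prod_insert hx, Finset.card_insert_of_notMem hx, pow_succ']
    exact (nrm_mul _ _).trans (mul_le_mul (h x) ih (nrm_nonneg _) ((nrm_nonneg _).trans (h x)))

private theorem rc_sum {ι : Type} (s : Finset ι) (F : ι → ℤ[X][X]) {B : ℤ}
    (h : ∀ x, nrm (F x) ≤ B) : nrm (∑ x ∈ s, F x) ≤ s.card * B := by
  classical
  induction s using Finset.induction_on with
  | empty =>
    rw [Finset.sum_empty, Finset.card_empty, Nat.cast_zero, zero_mul]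
    unfold nrm
    rw [Polynomial.sum_zero_index]
  | insert x s hx ih =>
    rw [Finset.sum_insert hx, Finset.card_insert_of_notMem hx]
    have h1 := nrm_add (F x) (∑ x ∈ s, F x)
    have h2 := h x
    push_cast
    linarith

theorem nrm_DD {N : ℤ[X][X]} {D1 D2 : ℕ} (h1 : 1 ≤ D1) (h2 : 1 ≤ D2) (hD1 : N.natDegree ≤ D1)
    (hD2 : ∀ i, (N.coeff i).natDegree ≤ D2) {H : ℤ} (hH : nrm N ≤ H) (K : ℕ) :
    nrm (DD K N) ≤ K.factorial * (((D1 : ℤ) * D2) ^ K * H) ^ K := by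
  have hB : ∀ a b : Fin K, nrm (tt (a : ℕ) (b : ℕ) N) ≤ ((D1 : ℤ) * D2) ^ K * H := by
    intro a b
    exact (rc_tt h1 h2 hD1 hD2 a.isLt b.isLt).trans
      (mul_le_mul_of_nonneg_left hH (by positivity))
  unfold DD
  rw [Matrix.det_apply]
  have h3 : (K.factorial : ℤ) = ((Finset.univ : Finset (Equiv.Perm (Fin K))).card : ℤ) := by
    rw [Finset.card_univ, Fintype.card_perm, Fintype.card_fin]
  rw [h3]
  refine rc_sum Finset.univ _ fun σ => ?_
  have h4 : nrm (∏ i : Fin K, tt (σ i : ℕ) (i : ℕ) N) ≤ (((D1 : ℤ) * D2) ^ K * H) ^ K := by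
    have h5 := rc_prod Finset.univ (fun i : Fin K => tt (σ i : ℕ) (i : ℕ) N) fun i => hB (σ i) i
    rwa [Finset.card_univ, Fintype.card_fin] at h5
  rcases Int.units_eq_one_or (Equiv.Perm.sign σ) with h | h
  · rw [h, one_smul]
    exact h4
  · rw [h, Units.neg_smul, one_smul, nrm_neg]
    exact h4

end Pool.Agent.NLC
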