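import Pool.Agent.NLC.RDefs
import Pool.Agent.NLC.NBd
import Pool.Agent.NLG.Gau
import Pool.Agent.NLG.Mult

/-!
# NLC-RothD: a rank one polynomial with vanishing moments

PLAN.  `M_ij := (M.coeff i).coeff j`; choose `M_{i₀j₀} ≠ 0`.  `U := ∑ i, M_{i j₀} X^i`,
`V := ∑ j, M_{i₀ j} X^j = M.coeff i₀ ∈ ℤ[X]`, both `≠ 0`, and `M_ij M_{i₀j₀} = M_{i j₀} M_{i₀ j}`, so
`M_{i₀j₀} * mom z w M a b = U_a * V_b`, `U_a = ∑ i^a z^i U_i`, `V_b = ∑ j^b w^j V_j`.
Let `a₀` be the least `a` with `U_a ≠ 0` and `b₀` the least `b` with `V_b ≠ 0` (they exist: if all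
`U_a`, `a < natDegree U + 1`, vanish then `(X - z)^(natDegree U + 1) ∣ U`, so `U = 0`).  `U_a V_b ≠ 0` at
`(a₀, b₀)` so `T ≤ a₀ + n b₀`.  `(X - C z)^a₀ ∣ U`, `(X - C w)^b₀ ∣ V` (over `ℂ`, `NLG/Mult.lean`
`mu_root` (private, copy) - vanishing of `∑ i^l z^i U_i` for `l < M` implies `(X - C z)^M ∣ U` - and
`NLG.dvd_int_of_complex`; or directly over ℚ/ℤ).  `NLG.gauss`: `|z|^a₀ ≤ X`, `|w|^b₀ ≤ X` (`X` bounds all
coefficients).  Multiply: `z ^ (a₀ + n b₀) ≤ X^2`, `z ≥ 1`.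
-/

namespace Pool.Agent.NLC

open Finset Polynomial

private theorem rothD_coeff {R : Type*} [CommRing R] (l : ℕ) (F : R[X]) (e : ℕ) :
    (Pool.Agent.NLG.thet l F).coeff e = F.coeff e * (e : R) ^ l := by
  unfold Pool.Agent.NLG.thet
  rw [Polynomial.sum_def, finsetSum_coeff]
  simp only [coeff_monomial]
  rw [Finset.sum_ite_eq']
  split_ifs with h
  · rfl
  · rw [notMem_support_iff.1 h, zero_mul]

private theorem rothD_zero {R : Type*} [CommRing R] (F : R[X]) : Pool.Agent.NLG.thet 0 F = F := by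
  ext e
  rw [rothD_coeff, pow_zero, mul_one]

private theorem rothD_thet {R : Type*} [CommRing R] (l m : ℕ) (F : R[X]) :
    Pool.Agent.NLG.thet m (Pool.Agent.NLG.thet l F) = Pool.Agent.NLG.thet (m + l) F := by
  ext e
  rw [rothD_coeff, rothD_coeff, rothD_coeff, pow_add]
  ring

private theorem rothD_one {R : Type*} [CommRing R] (F : R[X]) :
    Pool.Agent.NLG.thet 1 F = X * derivative F := by
  ext e
  rw [rothD_coeff]
  rcases e with _ | e
  · simp
  · rw [coeff_X_mul, coeff_derivative]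
    push_cast
    ring

private theorem rothD_eval {R : Type*} [CommRing R] (l : ℕ) (F : R[X]) (v : R) :
    (Pool.Agent.NLG.thet l F).eval v = F.sum (fun e c => c * v ^ e * (e : R) ^ l) := by
  unfold Pool.Agent.NLG.thet
  rw [Polynomial.sum_def, Polynomial.sum_def, eval_finsetSum]
  refine Finset.sum_congr rfl fun e _ => ?_
  rw [eval_monomial]
  ring

private theorem rothD_root {v : ℂ} (hv : v ≠ 0) (M : ℕ) : ∀ Φ : ℂ[X],
    (∀ m < M, (Pool.Agent.NLG.thet m Φ).eval v = 0) → (X - C v) ^ M ∣ Φ := by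
  induction M with
  | zero =>
    intro Φ _
    rw [pow_zero]
    exact one_dvd _
  | succ M ih =>
    intro Φ h
    by_cases hΦ : Φ = 0
    · rw [hΦ]
      exact dvd_zero _
    have h0 : Φ.IsRoot v := by
      have := h 0 (Nat.succ_pos M)
      rwa [rothD_zero] at this
    have h1 : (X - C v) ^ M ∣ X * derivative Φ := by
      rw [← rothD_one]
      refine ih _ fun m hm => ?_
      rw [rothD_thet]
      exact h (m + 1) (Nat.succ_lt_succ hm)
    have hX : ¬ (X - C v) ∣ (X : ℂ[X]) := by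
      rw [dvd_iff_isRoot, IsRoot.def, eval_X]
      exact hv
    have h2 : (X - C v) ^ M ∣ derivative Φ :=
      (prime_X_sub_C v).pow_dvd_of_dvd_mul_left M hX h1
    have hd : derivative Φ ≠ 0 := by
      intro hd
      have h3 := derivative_eq_zero.1 hd
      rw [eq_C_of_natDegree_eq_zero h3] at h0 hΦ
      rw [IsRoot.def, eval_C] at h0
      rw [h0, C_0] at hΦ
      exact hΦ rfl
    have h3 : M ≤ (derivative Φ).rootMultiplicity v := (le_rootMultiplicity_iff hd).2 h2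
    rw [derivative_rootMultiplicity_of_root h0] at h3
    have h4 : 0 < Φ.rootMultiplicity v := (rootMultiplicity_pos hΦ).2 h0
    exact (le_rootMultiplicity_iff hΦ).1 (by omega)

private theorem rothD_dvd {v : ℤ} (hv : v ≠ 0) (M : ℕ) (W : ℤ[X])
    (h : ∀ m < M, (Pool.Agent.NLG.thet m W).eval v = 0) : (X - C v) ^ M ∣ W := by
  apply Pool.Agent.NLG.dvd_int_of_complex
  refine rothD_root (Int.cast_ne_zero.2 hv) M _ fun m hm => ?_
  have e1 : Pool.Agent.NLG.thet m (W.map (Int.castRingHom ℂ)) =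
      (Pool.Agent.NLG.thet m W).map (Int.castRingHom ℂ) := by
    ext e
    rw [rothD_coeff, coeff_map, coeff_map, rothD_coeff]
    simp
  rw [e1, eval_intCast_map, Int.cast_id, h m hm, map_zero]

private theorem rothD_ex {v : ℤ} (hv : v ≠ 0) {W : ℤ[X]} (hW : W ≠ 0) :
    ∃ m, (Pool.Agent.NLG.thet m W).eval v ≠ 0 ∧ (X - C v) ^ m ∣ W := by
  have h1 : ∃ m, (Pool.Agent.NLG.thet m W).eval v ≠ 0 := by
    by_contra h
    push Not at h
    have h2 := rothD_dvd hv (W.natDegree + 1) W fun m _ => h m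
    have h3 := natDegree_le_of_dvd h2 hW
    rw [natDegree_pow, natDegree_X_sub_C, mul_one] at h3
    omega
  classical
  refine ⟨Nat.find h1, Nat.find_spec h1, ?_⟩
  refine rothD_dvd hv _ W fun m hm => ?_
  by_contra h2
  exact Nat.find_min h1 hm h2

theorem rank_one_bound {M : ℤ[X][X]} (hM : M ≠ 0) (hr : ∀ i j k l : ℕ,
      (M.coeff i).coeff j * (M.coeff k).coeff l = (M.coeff i).coeff l * (M.coeff k).coeff j)
    {z : ℤ} (hz : 2 ≤ z) {n T : ℕ} (hn : 1 ≤ n)
    (h : ∀ a b, a + n * b < T → mom z (z ^ n) M a b = 0) {B : ℤ} (hB : nrm M ≤ B) :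
    z ^ T ≤ B ^ 2 := by
  have h0 : ∃ i₀ j₀, (M.coeff i₀).coeff j₀ ≠ 0 := by
    by_contra hcon
    push Not at hcon
    apply hM
    ext i j
    rw [hcon i j, coeff_zero, coeff_zero]
  obtain ⟨i₀, j₀, hc⟩ := h0
  obtain ⟨U, hU⟩ : ∃ U : ℤ[X], U = ∑ i ∈ range (M.natDegree + 1),
      monomial i ((M.coeff i).coeff j₀) := ⟨_, rfl⟩
  have hUc : ∀ i, U.coeff i = (M.coeff i).coeff j₀ := by
    intro i
    rw [hU, finsetSum_coeff]
    simp only [coeff_monomial]
    rw [Finset.sum_ite_eq']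
    split_ifs with h1
    · rfl
    · rw [mem_range, not_lt] at h1
      have h2 : M.coeff i = 0 := coeff_eq_zero_of_natDegree_lt (by omega)
      rw [h2, coeff_zero]
  have hUd : U.natDegree < M.natDegree + 1 := by
    rw [hU]
    refine Nat.lt_succ_of_le (natDegree_sum_le_of_forall_le _ _ fun i hi => ?_)
    exact (natDegree_monomial_le _).trans (Nat.lt_succ_iff.1 (mem_range.1 hi))
  have hU0 : U ≠ 0 := by
    intro h1
    apply hc
    rw [← hUc, h1, coeff_zero]
  have hV0 : M.coeff i₀ ≠ 0 := by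
    intro h1
    apply hc
    rw [h1, coeff_zero]
  obtain ⟨N, hN⟩ : ∃ N, ∀ i, (M.coeff i).natDegree < N := by
    refine ⟨(M.support.sup fun i => (M.coeff i).natDegree) + 1, fun i => ?_⟩
    by_cases hi : i ∈ M.support
    · exact Nat.lt_succ_of_le (Finset.le_sup (f := fun i => (M.coeff i).natDegree) hi)
    · rw [notMem_support_iff.1 hi, natDegree_zero]
      exact Nat.succ_pos _
  have hz0 : z ≠ 0 := by omega
  have hw0 : z ^ n ≠ 0 := pow_ne_zero _ hz0
  obtain ⟨a₀, ha1, ha2⟩ := rothD_ex hz0 hU0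
  obtain ⟨b₀, hb1, hb2⟩ := rothD_ex hw0 hV0
  have key : ∀ w : ℤ, ∀ a b : ℕ, (M.coeff i₀).coeff j₀ * mom z w M a b =
      (Pool.Agent.NLG.thet a U).eval z * (Pool.Agent.NLG.thet b (M.coeff i₀)).eval w := by
    intro w a b
    have e1 : mom z w M a b = ∑ i ∈ range (M.natDegree + 1), (i : ℤ) ^ a * z ^ i *
        ∑ j ∈ range N, (j : ℤ) ^ b * w ^ j * (M.coeff i).coeff j := by
      unfold mom
      rw [Polynomial.sum_over_range' M (by intro i; rw [sum_zero_index, mul_zero]) _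
        (Nat.lt_succ_self _)]
      refine Finset.sum_congr rfl fun i _ => ?_
      rw [Polynomial.sum_over_range' (M.coeff i) (by intro j; rw [mul_zero]) N (hN i)]
    have e2 : (Pool.Agent.NLG.thet a U).eval z =
        ∑ i ∈ range (M.natDegree + 1), (M.coeff i).coeff j₀ * z ^ i * (i : ℤ) ^ a := by
      rw [rothD_eval, Polynomial.sum_over_range' U (by intro i; rw [zero_mul, zero_mul]) _ hUd]
      exact Finset.sum_congr rfl fun i _ => by rw [hUc]
    have e3 : (Pool.Agent.NLG.thet b (M.coeff i₀)).eval w =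
        ∑ j ∈ range N, (M.coeff i₀).coeff j * w ^ j * (j : ℤ) ^ b := by
      rw [rothD_eval, Polynomial.sum_over_range' (M.coeff i₀)
        (by intro i; rw [zero_mul, zero_mul]) _ (hN i₀)]
    rw [e1, e2, e3, Finset.mul_sum, Finset.sum_mul]
    refine Finset.sum_congr rfl fun i _ => ?_
    rw [Finset.mul_sum, Finset.mul_sum, Finset.mul_sum]
    refine Finset.sum_congr rfl fun j _ => ?_
    linear_combination ((i : ℤ) ^ a * z ^ i * ((j : ℤ) ^ b * w ^ j)) * hr i j i₀ j₀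
  have hT : T ≤ a₀ + n * b₀ := by
    by_contra hcon
    have h1 := key (z ^ n) a₀ b₀
    rw [h a₀ b₀ (not_le.1 hcon), mul_zero] at h1
    exact mul_ne_zero ha1 hb1 h1.symm
  have hg1 : |z| ^ a₀ ≤ B := Pool.Agent.NLG.gauss hU0 hz0 ha2 fun d => by
    rw [hUc]
    exact (coeff_le_nrm M d j₀).trans hB
  have hg2 : |z ^ n| ^ b₀ ≤ B := Pool.Agent.NLG.gauss hV0 hw0 hb2 fun d =>
    (coeff_le_nrm M i₀ d).trans hB
  have hz1 : |z| = z := abs_of_nonneg (by omega)
  rw [abs_pow, hz1, ← pow_mul] at hg2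
  rw [hz1] at hg1
  have hp1 : (0 : ℤ) ≤ z ^ a₀ := pow_nonneg (by omega) _
  have hp2 : (0 : ℤ) ≤ z ^ (n * b₀) := pow_nonneg (by omega) _
  calc z ^ T ≤ z ^ (a₀ + n * b₀) := pow_le_pow_right₀ (by omega) hT
    _ = z ^ a₀ * z ^ (n * b₀) := pow_add _ _ _
    _ ≤ B * B := mul_le_mul hg1 hg2 hp2 (hp1.trans hg1)
    _ = B ^ 2 := (pow_two B).symm

end Pool.Agent.NLC
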