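import Pool.Agent.NLC.RothA
import Pool.Agent.NLC.RothB
import Pool.Agent.NLC.RothC
import Pool.Agent.NLC.RothD

/-!
# NLC-Roth: Roth's lemma in two variables for the integer point `(z, z ^ n)`
-/

namespace Pool.Agent.NLC

open Finset Polynomial

theorem roth {N : ℤ[X][X]} (hN : N ≠ 0) {D1 D2 : ℕ} (h1 : 1 ≤ D1) (h2 : 1 ≤ D2)
    (hD1 : N.natDegree ≤ D1) (hD2 : ∀ i, (N.coeff i).natDegree ≤ D2) {H : ℤ} (hH : nrm N ≤ H)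
    {z : ℤ} (hz : 2 ≤ z) {n t : ℕ} (hn : 1 ≤ n)
    (h : ∀ a b, a + n * b < t → mom z (z ^ n) N a b = 0) :
    ∃ K : ℕ, 1 ≤ K ∧ K ≤ D2 + 1 ∧
      z ^ (∑ c ∈ range K, (t - (K - 1) - n * c)) ≤
        (K.factorial * (((D1 : ℤ) * D2) ^ K * H) ^ K) ^ 2 := by
  obtain ⟨K, hK1, hK2, hne, hr⟩ := rank_one hN hD2
  exact ⟨K, hK1, hK2, rank_one_bound hne hr hz hn (mom_DD K h) (nrm_DD h1 h2 hD1 hD2 hH K)⟩

end Pool.Agent.NLC
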