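import Pool.Agent.NLC.Defs

/-!
# NLC-PS: two-level power series at the point `(z, w)`

`Rg = (ℚ⟦X⟧)⟦X⟧`: the outer variable is `τ` (`z(τ) = z (1 - (z-1) τ)`), the inner one `σ`
(`w(σ) = w (1 - (w-1) σ)`).  `emZ f` / `emW f` embed one-variable series in `τ` / in `σ`.
`bs c e = (1 - c X) ^ e = ∑ kap e l c ^ l X ^ l`.

PLAN.  `bs_mul`: coefficients, `NLG.kap_add` (`PowerSeries.coeff_mul`, antidiagonal sum as a range sum).
`bs_nat`: `kap (k : ℚ) l = (-1)^l choose k l`, binomial theorem, or induction on `k` with `bs_mul` and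
`bs c 1 = 1 - C c * X`.  `bs_deriv`: coefficientwise `kap_succ`: `(l+1) kap e (l+1) = (l - e) kap e l`.
`Wt`: coefficients of a product (`PowerSeries.coeff_mul` twice): if `l₁ + n l₂ < t` every term has a
factor of `F` with smaller indices.  `Wt_deriv`: `coeff l₁ (derivative F) = coeff (l₁+1) F * (l₁+1)`.
-/

namespace Pool.Agent.NLC

open Finset Polynomial
open Pool.Agent.NLG (KZ kap)

/-- The ring of two-level power series. -/
abbrev Rg := PowerSeries (PowerSeries ℚ)

/-- A series in `τ`. -/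
noncomputable def emZ : PowerSeries ℚ →+* Rg := PowerSeries.map (PowerSeries.C (R := ℚ))

/-- A series in `σ`. -/
noncomputable def emW : PowerSeries ℚ →+* Rg := PowerSeries.C (R := PowerSeries ℚ)

/-- `(1 - c X) ^ e`. -/
noncomputable def bs (c e : ℚ) : PowerSeries ℚ := PowerSeries.mk fun l => kap e l * c ^ l

/-- The coefficients of `τ ^ l₁ σ ^ l₂` with `l₁ + n l₂ < t` vanish. -/
def Wt (n t : ℕ) (F : Rg) : Prop :=
  ∀ l₁ l₂, l₁ + n * l₂ < t → PowerSeries.coeff l₂ (PowerSeries.coeff l₁ F) = 0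

private theorem PS_coeff_bs (c e : ℚ) (l : ℕ) :
    PowerSeries.coeff l (bs c e) = kap e l * c ^ l := by
  unfold bs
  rw [PowerSeries.coeff_mk]

theorem bs_mul (c e e' : ℚ) : bs c e * bs c e' = bs c (e + e') := by
  ext n
  rw [PowerSeries.coeff_mul, PS_coeff_bs, Pool.Agent.NLG.kap_add, Finset.sum_mul,
    Finset.Nat.sum_antidiagonal_eq_sum_range_succ
      (fun a b => PowerSeries.coeff a (bs c e) * PowerSeries.coeff b (bs c e'))]
  refine sum_congr rfl fun m hm => ?_
  have hmn : m ≤ n := Nat.lt_succ_iff.mp (mem_range.mp hm)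
  rw [PS_coeff_bs, PS_coeff_bs]
  have h1 : c ^ n = c ^ m * c ^ (n - m) := by
    rw [← pow_add, Nat.add_sub_cancel' hmn]
  rw [h1]
  ring

private theorem PS_kap_zero_succ (m : ℕ) : kap 0 (m + 1) = 0 := by
  induction m with
  | zero =>
    have h := Pool.Agent.NLG.kap_succ 0 0
    norm_num at h
    exact h
  | succ m ih =>
    have h := Pool.Agent.NLG.kap_succ 0 (m + 1)
    rw [ih, mul_zero] at h
    rcases mul_eq_zero.1 h with h1 | h1
    · exfalso
      have h2 : (0 : ℚ) ≤ (m : ℚ) := Nat.cast_nonneg m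
      push_cast at h1
      linarith
    · exact h1

theorem bs_zero (c : ℚ) : bs c 0 = 1 := by
  ext n
  rw [PS_coeff_bs, PowerSeries.coeff_one]
  cases n with
  | zero => rw [Pool.Agent.NLG.kap_zero, pow_zero, if_pos rfl, one_mul]
  | succ n => rw [PS_kap_zero_succ, if_neg (Nat.succ_ne_zero n), zero_mul]

private theorem PS_kap_one_one : kap 1 1 = -1 := by
  have h := Pool.Agent.NLG.kap_succ 1 0
  rw [Pool.Agent.NLG.kap_zero] at h
  norm_num at h
  linarith

private theorem PS_kap_one_ge (m : ℕ) : kap 1 (m + 2) = 0 := by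
  induction m with
  | zero =>
    have h := Pool.Agent.NLG.kap_succ 1 1
    norm_num at h
    exact h
  | succ m ih =>
    have h := Pool.Agent.NLG.kap_succ 1 (m + 2)
    rw [ih, mul_zero] at h
    rcases mul_eq_zero.1 h with h1 | h1
    · exfalso
      have h2 : (0 : ℚ) ≤ (m : ℚ) := Nat.cast_nonneg m
      push_cast at h1
      linarith
    · exact h1

private theorem PS_bs_one (c : ℚ) : bs c 1 = 1 - PowerSeries.C c * PowerSeries.X := by
  ext n
  rw [PS_coeff_bs, map_sub, PowerSeries.coeff_one, PowerSeries.coeff_C_mul, PowerSeries.coeff_X]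
  rcases n with _ | _ | n
  · rw [Pool.Agent.NLG.kap_zero]
    simp
  · rw [zero_add, PS_kap_one_one]
    simp
  · rw [PS_kap_one_ge, if_neg (by omega), if_neg (by omega)]
    ring

theorem bs_nat (c : ℚ) (k : ℕ) : bs c k = (1 - PowerSeries.C c * PowerSeries.X) ^ k := by
  induction k with
  | zero => rw [Nat.cast_zero, bs_zero, pow_zero]
  | succ k ih => rw [Nat.cast_succ, ← bs_mul, ih, PS_bs_one, pow_succ]

theorem bs_deriv (c e : ℚ) : (1 - PowerSeries.C c * PowerSeries.X) *
    PowerSeries.derivative ℚ (bs c e) = PowerSeries.C (-(e * c)) * bs c e := by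
  ext n
  rw [sub_mul, one_mul, mul_assoc, map_sub, PowerSeries.coeff_C_mul, PowerSeries.coeff_C_mul,
    PowerSeries.coeff_derivative, PS_coeff_bs, PS_coeff_bs]
  have h := Pool.Agent.NLG.kap_succ e n
  cases n with
  | zero =>
    rw [PowerSeries.coeff_zero_X_mul]
    push_cast at h ⊢
    rw [zero_add] at h ⊢
    rw [pow_zero, pow_one]
    linear_combination c * h
  | succ n =>
    rw [PowerSeries.coeff_succ_X_mul, PowerSeries.coeff_derivative, PS_coeff_bs]
    push_cast at h ⊢
    rw [pow_succ c (n + 1)]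
    linear_combination (c ^ (n + 1) * c) * h

theorem coeff_emZ_mul_emW (f g : PowerSeries ℚ) (l₁ l₂ : ℕ) :
    PowerSeries.coeff l₂ (PowerSeries.coeff l₁ (emZ f * emW g)) =
      PowerSeries.coeff l₁ f * PowerSeries.coeff l₂ g := by
  unfold emZ emW
  rw [PowerSeries.coeff_mul_C, PowerSeries.coeff_map, PowerSeries.coeff_C_mul]

theorem Wt_add {n t : ℕ} {F G : Rg} (hF : Wt n t F) (hG : Wt n t G) : Wt n t (F + G) := by
  intro l₁ l₂ h
  rw [map_add, map_add, hF l₁ l₂ h, hG l₁ l₂ h, add_zero]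

theorem Wt_neg {n t : ℕ} {F : Rg} (hF : Wt n t F) : Wt n t (-F) := by
  intro l₁ l₂ h
  rw [map_neg, map_neg, hF l₁ l₂ h, neg_zero]

theorem Wt_mul {n t : ℕ} {F : Rg} (hF : Wt n t F) (G : Rg) : Wt n t (G * F) := by
  intro l₁ l₂ h
  rw [PowerSeries.coeff_mul, map_sum]
  refine sum_eq_zero fun p hp => ?_
  rw [PowerSeries.coeff_mul]
  refine sum_eq_zero fun r hr => ?_
  have h1 : p.2 ≤ l₁ := by
    have := mem_antidiagonal.1 hp
    omega
  have h2 : r.2 ≤ l₂ := by
    have := mem_antidiagonal.1 hr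
    omega
  have h3 : n * r.2 ≤ n * l₂ := Nat.mul_le_mul_left n h2
  rw [hF p.2 r.2 (by omega), mul_zero]

theorem Wt_mono {n t t' : ℕ} (h : t' ≤ t) {F : Rg} (hF : Wt n t F) : Wt n t' F :=
  fun l₁ l₂ h1 => hF l₁ l₂ (h1.trans_le h)

private theorem PS_coeff_deriv (F : Rg) (l₁ : ℕ) :
    PowerSeries.coeff l₁ (PowerSeries.derivative (PowerSeries ℚ) F) =
      (l₁ + 1) • PowerSeries.coeff (l₁ + 1) F := by
  rw [PowerSeries.coeff_derivative, nsmul_eq_mul, mul_comm]
  push_cast
  rfl

theorem Wt_deriv {n t : ℕ} {F : Rg} (hF : Wt n (t + 1) F) :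
    Wt n t (PowerSeries.derivative (PowerSeries ℚ) F) := by
  intro l₁ l₂ h
  rw [PS_coeff_deriv, map_nsmul, hF (l₁ + 1) l₂ (by omega), smul_zero]

/-- Derivation in `τ` of the embedded series. -/
theorem deriv_emZ (f : PowerSeries ℚ) : PowerSeries.derivative (PowerSeries ℚ) (emZ f) =
    emZ (PowerSeries.derivative ℚ f) := by
  refine PowerSeries.ext fun l₁ => ?_
  rw [PS_coeff_deriv]
  unfold emZ
  rw [PowerSeries.coeff_map, PowerSeries.coeff_map, PowerSeries.coeff_derivative, map_mul,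
    nsmul_eq_mul, mul_comm]
  congr 1
  rw [map_add, map_natCast, map_one]
  push_cast
  rfl

theorem deriv_emW (f : PowerSeries ℚ) : PowerSeries.derivative (PowerSeries ℚ) (emW f) = 0 := by
  unfold emW
  exact PowerSeries.derivative_C

end Pool.Agent.NLC
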