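import Pool.Agent.NLC.PS

/-!
# NLC-Phi: the expansion of polynomials at the point `(z, w)`

`phi z w` is the ring homomorphism `ℤ[w][z] → Rg`, `X ↦ z(τ) = z (1 - (z-1) τ)` (outer), inner
`X ↦ w(σ)`.  If the coefficients of `phi z w N` of small weight vanish, then so do the moments of
`N` of small weight (`kap i l` is a polynomial of degree `l` in `i`).
-/

namespace Pool.Agent.NLC

open Finset Polynomial
open Pool.Agent.NLG (KZ kap)

/-- `w(σ)`. -/
noncomputable def wS (w : ℤ) : PowerSeries ℚ :=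
  PowerSeries.C (w : ℚ) * (1 - PowerSeries.C ((w : ℚ) - 1) * PowerSeries.X)

/-- The expansion at the point. -/
noncomputable def phi (z w : ℤ) : ℤ[X][X] →+* Rg :=
  eval₂RingHom (emW.comp (eval₂RingHom (Int.castRingHom (PowerSeries ℚ)) (wS w))) (emZ (wS z))

private theorem Phi_wS_pow (z : ℤ) (i : ℕ) :
    wS z ^ i = PowerSeries.C ((z : ℚ) ^ i) * bs ((z : ℚ) - 1) i := by
  rw [wS, mul_pow, bs_nat, map_pow]

private theorem Phi_emC (c : ℚ) : emW (PowerSeries.C c) = emZ (PowerSeries.C c) := by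
  unfold emW emZ
  rw [PowerSeries.map_C]

private theorem Phi_mono (z w : ℤ) (i : ℕ) (f : ℤ[X]) :
    phi z w (monomial i f) =
      emW (f.eval₂ (Int.castRingHom (PowerSeries ℚ)) (wS w)) * emZ (wS z) ^ i := by
  unfold phi
  rw [coe_eval₂RingHom, eval₂_monomial]
  rfl

theorem phi_monomial (z w : ℤ) (i j : ℕ) (c : ℤ) :
    phi z w (monomial i (monomial j c)) =
      emZ (PowerSeries.C ((c : ℚ) * (z : ℚ) ^ i) * bs ((z : ℚ) - 1) i) *
        emW (PowerSeries.C ((w : ℚ) ^ j) * bs ((w : ℚ) - 1) j) := by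
  have hc : (Int.castRingHom (PowerSeries ℚ)) c = PowerSeries.C (c : ℚ) := by
    rw [eq_intCast, map_intCast]
  rw [Phi_mono, eval₂_monomial, hc, map_mul, Phi_emC, Phi_wS_pow, ← map_pow, Phi_wS_pow,
    map_mul (PowerSeries.C (R := ℚ)), mul_assoc (PowerSeries.C (c : ℚ)),
    map_mul emZ (PowerSeries.C (c : ℚ))]
  ring

private theorem Phi_leib0 {R : Type} [CommRing R] (a b : PowerSeries R) :
    PowerSeries.derivative R (a * b) =
      a * PowerSeries.derivative R b + b * PowerSeries.derivative R a :=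
  Derivation.leibniz (PowerSeries.derivative R) a b

private theorem Phi_leib (a b : Rg) : PowerSeries.derivative (PowerSeries ℚ) (a * b) =
    a * PowerSeries.derivative (PowerSeries ℚ) b + b * PowerSeries.derivative (PowerSeries ℚ) a :=
  Phi_leib0 a b

private theorem Phi_leib_pow (a : Rg) (i : ℕ) :
    PowerSeries.derivative (PowerSeries ℚ) (a ^ i) =
      (i : Rg) * a ^ (i - 1) * PowerSeries.derivative (PowerSeries ℚ) a := by
  induction i with
  | zero =>
    rw [pow_zero, Nat.cast_zero, zero_mul, zero_mul, ← map_one emW, deriv_emW]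
  | succ i ih =>
    rw [pow_succ, Phi_leib, ih, Nat.add_sub_cancel]
    rcases Nat.eq_zero_or_pos i with rfl | hi
    · simp
    · obtain ⟨m, rfl⟩ : ∃ m, i = m + 1 := ⟨i - 1, by omega⟩
      rw [Nat.add_sub_cancel]
      push_cast
      ring

theorem phi_deriv (z w : ℤ) (N : ℤ[X][X]) :
    PowerSeries.derivative (PowerSeries ℚ) (phi z w N) =
      emZ (PowerSeries.C (-((z : ℚ) * ((z : ℚ) - 1)))) * phi z w (derivative N) := by
  have hD : PowerSeries.derivative (PowerSeries ℚ) (emZ (wS z)) =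
      emZ (PowerSeries.C (-((z : ℚ) * ((z : ℚ) - 1)))) := by
    rw [deriv_emZ]
    congr 1
    unfold wS
    simp only [Derivation.leibniz, map_sub, PowerSeries.derivative_C, PowerSeries.derivative_X,
      Derivation.map_one_eq_zero, add_zero, zero_sub, smul_eq_mul, mul_one, mul_zero]
    simp only [map_neg, map_mul, map_sub]
    ring
  induction N using Polynomial.induction_on' with
  | add p q hp hq => rw [map_add, map_add, hp, hq, map_add, map_add, mul_add]
  | monomial i f =>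
    rw [Phi_mono, derivative_monomial, Phi_mono, Phi_leib, deriv_emW, mul_zero, add_zero,
      Phi_leib_pow, hD, eval₂_mul, eval₂_natCast, map_mul, map_natCast]
    ring

private noncomputable def Phi_M (z w : ℤ) (N : ℤ[X][X]) (g : ℕ → ℕ → ℚ) : ℚ :=
  ∑ i ∈ N.support, ∑ j ∈ (N.coeff i).support,
    (((N.coeff i).coeff j : ℚ) * (z : ℚ) ^ i * (w : ℚ) ^ j) * g i j

private theorem Phi_coeff (z w : ℤ) (N : ℤ[X][X]) (l₁ l₂ : ℕ) :
    PowerSeries.coeff l₂ (PowerSeries.coeff l₁ (phi z w N)) =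
      Phi_M z w N (fun i j => kap i l₁ * kap j l₂) * (((z : ℚ) - 1) ^ l₁ * ((w : ℚ) - 1) ^ l₂) := by
  have hN : N = ∑ i ∈ N.support, ∑ j ∈ (N.coeff i).support,
      monomial i (monomial j ((N.coeff i).coeff j)) := by
    conv_lhs => rw [N.as_sum_support]
    refine Finset.sum_congr rfl fun i _ => ?_
    conv_lhs => rw [(N.coeff i).as_sum_support]
    rw [map_sum]
  conv_lhs => rw [hN]
  rw [map_sum, map_sum, map_sum, Phi_M, Finset.sum_mul]
  refine Finset.sum_congr rfl fun i _ => ?_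
  rw [map_sum, map_sum, map_sum, Finset.sum_mul]
  refine Finset.sum_congr rfl fun j _ => ?_
  rw [phi_monomial, coeff_emZ_mul_emW, PowerSeries.coeff_C_mul, PowerSeries.coeff_C_mul, bs, bs,
    PowerSeries.coeff_mk, PowerSeries.coeff_mk]
  ring

private theorem Phi_rec (ρ : ℚ) (l : ℕ) :
    ρ * kap ρ l = (l : ℚ) * kap ρ l - ((l : ℚ) + 1) * kap ρ (l + 1) := by
  have := Pool.Agent.NLG.kap_succ ρ l
  linarith

private theorem Phi_M_lin (z w : ℤ) (N : ℤ[X][X]) (x y : ℚ) (g g' : ℕ → ℕ → ℚ) :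
    Phi_M z w N (fun i j => x * g i j - y * g' i j) = x * Phi_M z w N g - y * Phi_M z w N g' := by
  unfold Phi_M
  rw [Finset.mul_sum, Finset.mul_sum, ← Finset.sum_sub_distrib]
  refine Finset.sum_congr rfl fun i _ => ?_
  rw [Finset.mul_sum, Finset.mul_sum, ← Finset.sum_sub_distrib]
  refine Finset.sum_congr rfl fun j _ => ?_
  ring

theorem mom_of_Wt {z w : ℤ} (hz : z ≠ 1) (hw : w ≠ 1) {n t : ℕ} {N : ℤ[X][X]}
    (h : Wt n t (phi z w N)) : ∀ a b, a + n * b < t → mom z w N a b = 0 := by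
  have hz' : (z : ℚ) - 1 ≠ 0 := by
    rw [sub_ne_zero]
    exact_mod_cast hz
  have hw' : (w : ℚ) - 1 ≠ 0 := by
    rw [sub_ne_zero]
    exact_mod_cast hw
  have h0 : ∀ l₁ l₂, l₁ + n * l₂ < t → Phi_M z w N (fun i j => kap i l₁ * kap j l₂) = 0 := by
    intro l₁ l₂ hl
    have h1 := h l₁ l₂ hl
    rw [Phi_coeff] at h1
    exact (mul_eq_zero.1 h1).resolve_right (mul_ne_zero (pow_ne_zero _ hz') (pow_ne_zero _ hw'))
  have h1 : ∀ a l₁ l₂, (a + l₁) + n * l₂ < t →
      Phi_M z w N (fun i j => (i : ℚ) ^ a * kap i l₁ * kap j l₂) = 0 := by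
    intro a
    induction a with
    | zero =>
      intro l₁ l₂ hl
      rw [zero_add] at hl
      have h2 := h0 l₁ l₂ hl
      have e : (fun i j : ℕ => (i : ℚ) ^ 0 * kap i l₁ * kap j l₂) =
          fun i j : ℕ => kap (i : ℚ) l₁ * kap (j : ℚ) l₂ := by
        funext i j
        rw [pow_zero, one_mul]
      rw [e]
      exact h2
    | succ a ih =>
      intro l₁ l₂ hl
      have e : (fun i j : ℕ => (i : ℚ) ^ (a + 1) * kap i l₁ * kap j l₂) =
          fun i j : ℕ => (l₁ : ℚ) * ((i : ℚ) ^ a * kap i l₁ * kap j l₂) -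
            ((l₁ : ℚ) + 1) * ((i : ℚ) ^ a * kap i (l₁ + 1) * kap j l₂) := by
        funext i j
        have := Phi_rec (i : ℚ) l₁
        calc (i : ℚ) ^ (a + 1) * kap i l₁ * kap j l₂
            = (i : ℚ) ^ a * kap j l₂ * ((i : ℚ) * kap i l₁) := by ring
          _ = _ := by rw [this]; ring
      rw [e, Phi_M_lin, ih l₁ l₂ (by omega), ih (l₁ + 1) l₂ (by omega)]
      ring
  have h2 : ∀ b a l₂, a + n * (b + l₂) < t →
      Phi_M z w N (fun i j => (i : ℚ) ^ a * ((j : ℚ) ^ b * kap j l₂)) = 0 := by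
    intro b
    induction b with
    | zero =>
      intro a l₂ hl
      rw [zero_add] at hl
      have h3 := h1 a 0 l₂ (by omega)
      have e : (fun i j : ℕ => (i : ℚ) ^ a * ((j : ℚ) ^ 0 * kap j l₂)) =
          fun i j : ℕ => (i : ℚ) ^ a * kap i 0 * kap j l₂ := by
        funext i j
        rw [pow_zero, one_mul, Pool.Agent.NLG.kap_zero, mul_one]
      rw [e]
      exact h3
    | succ b ih =>
      intro a l₂ hl
      have e : (fun i j : ℕ => (i : ℚ) ^ a * ((j : ℚ) ^ (b + 1) * kap j l₂)) =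
          fun i j : ℕ => (l₂ : ℚ) * ((i : ℚ) ^ a * ((j : ℚ) ^ b * kap j l₂)) -
            ((l₂ : ℚ) + 1) * ((i : ℚ) ^ a * ((j : ℚ) ^ b * kap j (l₂ + 1))) := by
        funext i j
        have := Phi_rec (j : ℚ) l₂
        calc (i : ℚ) ^ a * ((j : ℚ) ^ (b + 1) * kap j l₂)
            = (i : ℚ) ^ a * ((j : ℚ) ^ b * ((j : ℚ) * kap j l₂)) := by ring
          _ = _ := by rw [this]; ring
      have hb : n * (b + (l₂ + 1)) = n * (b + 1 + l₂) := by ring
      have hb' : n * (b + l₂) ≤ n * (b + 1 + l₂) := Nat.mul_le_mul_left _ (by omega)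
      rw [e, Phi_M_lin, ih a l₂ (by omega), ih a (l₂ + 1) (by omega)]
      ring
  intro a b hab
  have h3 := h2 b a 0 (by rw [add_zero]; exact hab)
  have h4 : ((mom z w N a b : ℤ) : ℚ) =
      Phi_M z w N (fun i j => (i : ℚ) ^ a * ((j : ℚ) ^ b * kap j 0)) := by
    unfold mom Phi_M
    rw [Polynomial.sum_def, Int.cast_sum]
    refine Finset.sum_congr rfl fun i _ => ?_
    rw [Polynomial.sum_def, Int.cast_mul, Int.cast_sum, Finset.mul_sum]
    refine Finset.sum_congr rfl fun j _ => ?_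
    simp only [Pool.Agent.NLG.kap_zero]
    push_cast
    ring
  rw [h3] at h4
  exact_mod_cast h4

end Pool.Agent.NLC
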