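import Pool.Agent.NLC.Defs

/-!
# NLC-RDefs: definitions for Roth's lemma at an integer point
-/

namespace Pool.Agent.NLC

open Finset Polynomial

/-- `θ_z ^ a θ_w ^ b N`: multiplication of the coefficient of `z ^ i w ^ j` by `i ^ a j ^ b`. -/
noncomputable def tt (a b : ℕ) (N : ℤ[X][X]) : ℤ[X][X] :=
  N.sum fun i f => monomial i (f.sum fun j c => monomial j ((i : ℤ) ^ a * (j : ℤ) ^ b * c))

/-- The determinant of the `θ_z ^ a θ_w ^ b N`, `a, b < K`. -/
noncomputable def DD (K : ℕ) (N : ℤ[X][X]) : ℤ[X][X] :=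
  (Matrix.of fun a b : Fin K => tt (a : ℕ) (b : ℕ) N).det

theorem coeff_tt (a b : ℕ) (N : ℤ[X][X]) (i j : ℕ) :
    ((tt a b N).coeff i).coeff j = (i : ℤ) ^ a * (j : ℤ) ^ b * (N.coeff i).coeff j := by
  unfold tt
  rw [Polynomial.sum, finsetSum_coeff]
  simp only [coeff_monomial]
  rw [Finset.sum_ite_eq' N.support i
    (fun i => (N.coeff i).sum fun j c => monomial j ((i : ℤ) ^ a * (j : ℤ) ^ b * c))]
  split_ifs with h
  · rw [Polynomial.sum, finsetSum_coeff]
    simp only [coeff_monomial]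
    rw [Finset.sum_ite_eq' (N.coeff i).support j
      (fun j => (i : ℤ) ^ a * (j : ℤ) ^ b * (N.coeff i).coeff j)]
    split_ifs with h2
    · rfl
    · rw [notMem_support_iff.1 h2, mul_zero]
  · rw [notMem_support_iff.1 h, coeff_zero, mul_zero]

end Pool.Agent.NLC
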