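import Pool.Agent.NLC.RDefs
import Pool.Agent.NLG.EWr

/-!
# NLC-RothA: the determinant is a product `U(z) V(w) ≠ 0`

PLAN.  `N = ∑ i, X^i N_i`, `N_i ∈ ℤ[w]`, `v i := (N.coeff i).map (Int.castRingHom ℚ) ∈ ℚ[X]`, `i ≤ natDegree N`
(`i : Fin (natDegree N + 1)`).  Mathlib `exists_linearIndependent'` (or `exists_linearIndependent`,
`LinearIndependent.extend`, or `NLG.Dist`): an injective `e : Fin K → Fin (natDegree N + 1)` with `v ∘ e`
linearly independent and the same span; `K ≥ 1` as `N ≠ 0`; `K ≤ D2 + 1` because `v ∘ e` is independent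
in `degreeLT ℚ (D2 + 1)` (`LinearIndependent.fintype_card_le_finrank`, finrank `D2 + 1`).
`v i = ∑ k, c i k • v (e k)`, `c (e k') k = δ` (choose `c` = coordinates).  `g k := v (e k)`,
`f k := ∑ i, c i k X^i ∈ ℚ[X]`; `f` is independent (coefficient at `e k'` of `f k` is `δ`), and
`(N.coeff i).coeff j = ∑ k, (f k).coeff i * (g k).coeff j` in `ℚ`.
Hence for the map `ι : ℤ[X][X] → ℚ[X][X]`: `ι (tt a b N) = ∑ k, (thet a (f k))(z) * (thet b (g k))(w)`
(`coeff_tt`; `thet` multiplies `coeff e` by `e ^ l`), i.e. the matrix is the product of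
`(a,k) ↦ map C (thet a (f k))` and `(k,b) ↦ C (thet b (g k))`; `Matrix.det_mul`, and `U := det (thet a (f k))`,
`V := det (thet b (g k)) ∈ ℚ[X]` are `≠ 0` by `NLG.det_thet_ne_zero` (transposes), so
`ι (DD K N) = (map C U) * C V`, coefficient at `(i, j)` = `U.coeff i * V.coeff j`.  Rank one and `≠ 0`.
-/

namespace Pool.Agent.NLC

open Finset Polynomial

private theorem rothA_coeff_thet {R : Type*} [CommRing R] (l : ℕ) (F : R[X]) (n : ℕ) :
    (Pool.Agent.NLG.thet l F).coeff n = F.coeff n * (n : R) ^ l := by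
  unfold Pool.Agent.NLG.thet
  rw [Polynomial.sum, finsetSum_coeff]
  simp only [coeff_monomial]
  rw [Finset.sum_ite_eq' F.support n (fun e => F.coeff e * (e : R) ^ l)]
  split_ifs with h
  · rfl
  · rw [notMem_support_iff.1 h, zero_mul]

/-- rank decomposition -/
private theorem rothA_dec {N : ℤ[X][X]} (hN : N ≠ 0) {D2 : ℕ}
    (hD2 : ∀ i, (N.coeff i).natDegree ≤ D2) :
    ∃ (K : ℕ) (f g : Fin K → ℚ[X]), 1 ≤ K ∧ K ≤ D2 + 1 ∧ LinearIndependent ℚ f ∧
      LinearIndependent ℚ g ∧ ∀ i j : ℕ, (((N.coeff i).coeff j : ℤ) : ℚ) =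
        ∑ k, (f k).coeff i * (g k).coeff j := by
  classical
  let v : ℕ → ℚ[X] := fun i => (N.coeff i).map (Int.castRingHom ℚ)
  let W : Submodule ℚ ℚ[X] := Submodule.span ℚ (Set.range v)
  have hWle : W ≤ degreeLT ℚ (D2 + 1) := by
    refine Submodule.span_le.2 ?_
    rintro _ ⟨i, rfl⟩
    rw [SetLike.mem_coe, mem_degreeLT]
    refine lt_of_le_of_lt degree_le_natDegree ?_
    have h1 : (v i).natDegree ≤ D2 := natDegree_map_le.trans (hD2 i)
    exact_mod_cast Nat.lt_succ_of_le h1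
  have hfd : FiniteDimensional ℚ (degreeLT ℚ (D2 + 1)) :=
    (degreeLTEquiv ℚ (D2 + 1)).symm.finiteDimensional
  have hfr : Module.finrank ℚ (degreeLT ℚ (D2 + 1)) = D2 + 1 := by
    rw [(degreeLTEquiv ℚ (D2 + 1)).finrank_eq, Module.finrank_fin_fun]
  have hWfd : FiniteDimensional ℚ W := Submodule.finiteDimensional_of_le hWle
  have hvW : ∀ i, v i ∈ W := fun i => Submodule.subset_span ⟨i, rfl⟩
  let b := Module.finBasis ℚ W
  let c : ℕ → Fin (Module.finrank ℚ W) → ℚ := fun i k => b.repr ⟨v i, hvW i⟩ k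
  let f : Fin (Module.finrank ℚ W) → ℚ[X] := fun k =>
    ∑ i ∈ range (N.natDegree + 1), monomial i (c i k)
  have hfc : ∀ k i, (f k).coeff i = c i k := by
    intro k i
    change (∑ i ∈ range (N.natDegree + 1), monomial i (c i k)).coeff i = _
    rw [finsetSum_coeff]
    simp only [coeff_monomial]
    rw [Finset.sum_ite_eq' (range (N.natDegree + 1)) i (fun i => c i k)]
    split_ifs with h
    · rfl
    · have h1 : N.coeff i = 0 := coeff_eq_zero_of_natDegree_lt (by
        rw [Finset.mem_range, not_lt] at h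
        omega)
      have h2 : (⟨v i, hvW i⟩ : W) = 0 := by
        apply Subtype.ext
        change (N.coeff i).map (Int.castRingHom ℚ) = 0
        rw [h1, Polynomial.map_zero]
      change 0 = b.repr ⟨v i, hvW i⟩ k
      rw [h2, map_zero, Finsupp.zero_apply]
  refine ⟨Module.finrank ℚ W, f, fun k => (b k : ℚ[X]), ?_, ?_, ?_, ?_, ?_⟩
  · rw [Nat.one_le_iff_ne_zero, Ne, Submodule.finrank_eq_zero]
    intro h0
    apply hN
    ext1 i
    have h1 := hvW i
    rw [h0, Submodule.mem_bot] at h1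
    have h2 : (N.coeff i).map (Int.castRingHom ℚ) = 0 := h1
    rw [Polynomial.map_eq_zero_iff Int.cast_injective] at h2
    rw [h2, coeff_zero]
  · rw [← hfr]
    exact Submodule.finrank_mono hWle
  · rw [Fintype.linearIndependent_iff]
    intro t ht k
    let φ : W →ₗ[ℚ] ℚ := ∑ k, t k • b.coord k
    have hφv : ∀ i, φ ⟨v i, hvW i⟩ = 0 := by
      intro i
      have h1 := congrArg (fun P : ℚ[X] => P.coeff i) ht
      simp only [finsetSum_coeff, coeff_smul, hfc, coeff_zero, smul_eq_mul] at h1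
      change (∑ k, t k • b.coord k) ⟨v i, hvW i⟩ = 0
      rw [LinearMap.sum_apply]
      exact h1
    have hφ : ∀ x : ℚ[X], ∀ hx : x ∈ W, φ ⟨x, hx⟩ = 0 := by
      intro x hx
      refine Submodule.span_induction (p := fun x hx => φ ⟨x, hx⟩ = 0) ?_ ?_ ?_ ?_ hx
      · rintro _ ⟨i, rfl⟩
        exact hφv i
      · exact map_zero φ
      · intro x y hx hy h1 h2
        have h3 : φ (⟨x, hx⟩ + ⟨y, hy⟩) = 0 := by rw [map_add, h1, h2, add_zero]
        exact h3
      · intro a x hx h1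
        have h3 : φ (a • ⟨x, hx⟩) = 0 := by rw [map_smul, h1, smul_zero]
        exact h3
    have h1 : φ (b k) = t k := by
      change (∑ k, t k • b.coord k) (b k) = t k
      rw [LinearMap.sum_apply, Finset.sum_eq_single k]
      · rw [LinearMap.smul_apply, Module.Basis.coord_apply, Module.Basis.repr_self,
          Finsupp.single_eq_same, smul_eq_mul, mul_one]
      · intro j _ hj
        rw [LinearMap.smul_apply, Module.Basis.coord_apply, Module.Basis.repr_self,
          Finsupp.single_eq_of_ne hj, smul_zero]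
      · intro h
        exact absurd (Finset.mem_univ k) h
    rw [← h1]
    exact hφ _ (b k).2
  · exact b.linearIndependent.map' W.subtype (Submodule.ker_subtype W)
  · intro i j
    have h1 := b.sum_repr ⟨v i, hvW i⟩
    have h2 := congrArg (fun w : W => ((w : ℚ[X]).coeff j)) h1
    have h3 : (((N.coeff i).coeff j : ℤ) : ℚ) = (v i).coeff j := by
      change _ = ((N.coeff i).map (Int.castRingHom ℚ)).coeff j
      rw [coeff_map]
      rfl
    rw [h3]
    change _ = (v i).coeff j at h2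
    rw [← h2, Submodule.coe_sum, finsetSum_coeff]
    refine Finset.sum_congr rfl fun k _ => ?_
    rw [Submodule.coe_smul, coeff_smul, smul_eq_mul, hfc]

theorem rank_one {N : ℤ[X][X]} (hN : N ≠ 0) {D2 : ℕ} (hD2 : ∀ i, (N.coeff i).natDegree ≤ D2) :
    ∃ K : ℕ, 1 ≤ K ∧ K ≤ D2 + 1 ∧ DD K N ≠ 0 ∧ ∀ i j k l : ℕ,
      ((DD K N).coeff i).coeff j * ((DD K N).coeff k).coeff l =
        ((DD K N).coeff i).coeff l * ((DD K N).coeff k).coeff j := by
  obtain ⟨K, f, g, hK1, hK2, hf, hg, hfg⟩ := rothA_dec hN hD2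
  let ι : ℤ[X][X] →+* ℚ[X][X] := mapRingHom (mapRingHom (Int.castRingHom ℚ))
  have hι : ∀ (P : ℤ[X][X]) (i j : ℕ), ((ι P).coeff i).coeff j = (((P.coeff i).coeff j : ℤ) : ℚ) := by
    intro P i j
    change ((P.map (mapRingHom (Int.castRingHom ℚ))).coeff i).coeff j = _
    rw [coeff_map, coe_mapRingHom, coeff_map]
    rfl
  let Um : Matrix (Fin K) (Fin K) ℚ[X] := Matrix.of fun a k : Fin K => Pool.Agent.NLG.thet (a : ℕ) (f k)
  let Vm : Matrix (Fin K) (Fin K) ℚ[X] := Matrix.of fun b k : Fin K => Pool.Agent.NLG.thet (b : ℕ) (g k)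
  have hU : Um.det ≠ 0 := Pool.Agent.NLG.det_thet_ne_zero f hf
  have hV : Vm.det ≠ 0 := Pool.Agent.NLG.det_thet_ne_zero g hg
  have hmat : ι.mapMatrix (Matrix.of fun a b : Fin K => tt (a : ℕ) (b : ℕ) N) =
      (mapRingHom (C : ℚ →+* ℚ[X])).mapMatrix Um * (C : ℚ[X] →+* ℚ[X][X]).mapMatrix Vm.transpose := by
    ext1 a b
    rw [Matrix.mul_apply, RingHom.mapMatrix_apply, Matrix.map_apply, Matrix.of_apply]
    ext i j
    rw [hι, coeff_tt, finsetSum_coeff, finsetSum_coeff]
    push_cast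
    rw [hfg, Finset.mul_sum]
    refine Finset.sum_congr rfl fun k _ => ?_
    rw [RingHom.mapMatrix_apply, RingHom.mapMatrix_apply, Matrix.map_apply, Matrix.map_apply,
      Matrix.transpose_apply, coeff_mul_C, coe_mapRingHom, coeff_map, coeff_C_mul]
    change _ = (Pool.Agent.NLG.thet (a : ℕ) (f k)).coeff i *
      (Pool.Agent.NLG.thet (b : ℕ) (g k)).coeff j
    rw [rothA_coeff_thet, rothA_coeff_thet]
    ring
  have hdet : ι (DD K N) = mapRingHom (C : ℚ →+* ℚ[X]) Um.det * C Vm.det := by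
    unfold DD
    rw [RingHom.map_det, hmat, Matrix.det_mul, ← RingHom.map_det, ← RingHom.map_det,
      Matrix.det_transpose]
  have hco : ∀ i j : ℕ, ((((DD K N).coeff i).coeff j : ℤ) : ℚ) = Um.det.coeff i * Vm.det.coeff j := by
    intro i j
    rw [← hι, hdet, coeff_mul_C, coe_mapRingHom, coeff_map, coeff_C_mul]
  refine ⟨K, hK1, hK2, ?_, ?_⟩
  · intro h0
    rw [h0, map_zero] at hdet
    rcases mul_eq_zero.1 hdet.symm with h1 | h1
    · rw [coe_mapRingHom, Polynomial.map_eq_zero_iff C_injective] at h1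
      exact hU h1
    · rw [C_eq_zero] at h1
      exact hV h1
  · intro i j k l
    have h1 : (((((DD K N).coeff i).coeff j * ((DD K N).coeff k).coeff l : ℤ)) : ℚ) =
        ((((DD K N).coeff i).coeff l * ((DD K N).coeff k).coeff j : ℤ) : ℚ) := by
      rw [Int.cast_mul, Int.cast_mul, hco, hco, hco, hco]
      ring
    exact_mod_cast h1

end Pool.Agent.NLC
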