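import Mathlib

/-!
# NLC-Runge: Runge's method for `t ^ q = F(z)`, `F` monic of degree divisible by `q`

PLAN.  (1) Approximate root: for `k ≤ J` there is a monic `G ∈ ℚ[X]`, `natDegree G = J`, with
`(F - G ^ q).degree < qJ - k` ... (induction on `k`: `G ← G + C (c/q) * X^(J-k-1)` where `c` is the
coefficient of `X^(qJ-k-1)` in `F - G^q`; `(G + d X^e)^q = G^q + q d X^e G^(q-1) + lower`), so for
`k = J`: `natDegree (F - G^q) < (q-1) J` (or `F = G^q`, excluded by `hF`; `J = 0`: `F = 1 = 1 ^ q`).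
(2) `D ≥ 1` with `D G ∈ ℤ[X]`.  For a large natural `z`: `(F - G^q)(z) ≠ 0` (finitely many roots), so
`D t ≠ (D G)(z)` are distinct integers, both (after size comparison) `≥ (D/2) z^J > 0`, hence
`|(D t)^q - (D G(z))^q| ≥ ((D/2) z^J)^(q-1)` (`t ≥ 0`: natural), while the left side is
`D^q |(F - G^q)(z)| ≤ C z^((q-1)J - 1)`: contradiction for large `z`.
(Simplest: `a^q - b^q ≥ b^(q-1)` for naturals `a > b`.)
-/

namespace Pool.Agent.NLC

open Finset Polynomial

/-- the polynomial approximate root -/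
private theorem runge_root {q J : ℕ} (hq : 1 ≤ q) {f : ℚ[X]} (hm : f.Monic)
    (hd : f.natDegree = q * J) (k : ℕ) (hk : k ≤ J) :
    ∃ G : ℚ[X], G.Monic ∧ G.natDegree = J ∧ ∀ m, q * J ≤ m + k → (f - G ^ q).coeff m = 0 := by
  induction k with
  | zero =>
    refine ⟨X ^ J, monic_X_pow J, natDegree_X_pow J, fun m hmk => ?_⟩
    rw [coeff_sub, ← pow_mul, coeff_X_pow]
    by_cases h : m = J * q
    · have h1 : m = f.natDegree := by rw [hd, h, mul_comm]
      rw [if_pos h, h1, coeff_natDegree, hm.leadingCoeff, sub_self]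
    · rw [if_neg h, sub_zero]
      apply coeff_eq_zero_of_natDegree_lt
      rw [hd]
      have h2 : J * q = q * J := mul_comm _ _
      omega
  | succ k ih =>
    obtain ⟨G, hGm, hGd, hG⟩ := ih (by omega)
    obtain ⟨e, rfl⟩ : ∃ e, J = e + (k + 1) := ⟨J - (k + 1), by omega⟩
    obtain ⟨r, rfl⟩ : ∃ r, q = r + 1 := ⟨q - 1, by omega⟩
    have hq0 : ((r + 1 : ℕ) : ℚ) ≠ 0 := by positivity
    obtain ⟨d, hd'⟩ : ∃ d : ℚ, (f - G ^ (r + 1)).coeff (r * (e + (k + 1)) + e) =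
        ((r + 1 : ℕ) : ℚ) * d :=
      ⟨(f - G ^ (r + 1)).coeff (r * (e + (k + 1)) + e) / ((r + 1 : ℕ) : ℚ), by
        rw [mul_div_cancel₀ _ hq0]⟩
    have hdeg1 : (C d * X ^ e : ℚ[X]).degree < G.degree := by
      rw [degree_eq_natDegree hGm.ne_zero, hGd]
      refine lt_of_le_of_lt (degree_C_mul_X_pow_le e d) ?_
      exact_mod_cast (by omega : e < e + (k + 1))
    have hG'm : (G + C d * X ^ e).Monic := hGm.add_of_left hdeg1
    have hG'd : (G + C d * X ^ e).natDegree = e + (k + 1) := by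
      rw [natDegree_add_eq_left_of_degree_lt hdeg1, hGd]
    refine ⟨G + C d * X ^ e, hG'm, hG'd, fun m hmk => ?_⟩
    -- the sum
    have hterm : ∀ i ∈ range (r + 1),
        ((G + C d * X ^ e) ^ i * G ^ (r + 1 - 1 - i)).Monic ∧
        ((G + C d * X ^ e) ^ i * G ^ (r + 1 - 1 - i)).natDegree = r * (e + (k + 1)) := by
      intro i hi
      have hi' : i < r + 1 := mem_range.1 hi
      have m1 := hG'm.pow i
      have m2 := hGm.pow (r + 1 - 1 - i)
      refine ⟨m1.mul m2, ?_⟩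
      rw [m1.natDegree_mul m2, hG'm.natDegree_pow, hGm.natDegree_pow, hG'd, hGd, ← add_mul]
      congr 1
      omega
    have hS1 : (∑ i ∈ range (r + 1), (G + C d * X ^ e) ^ i * G ^ (r + 1 - 1 - i)).coeff
        (r * (e + (k + 1))) = ((r + 1 : ℕ) : ℚ) := by
      rw [finsetSum_coeff]
      have h1 : ∀ i ∈ range (r + 1),
          ((G + C d * X ^ e) ^ i * G ^ (r + 1 - 1 - i)).coeff (r * (e + (k + 1))) = 1 := by
        intro i hi
        obtain ⟨h2, h3⟩ := hterm i hi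
        rw [← h3]
        exact h2
      rw [sum_congr rfl h1, sum_const, card_range, nsmul_eq_mul, mul_one]
    have hS2 : ∀ n, r * (e + (k + 1)) < n →
        (∑ i ∈ range (r + 1), (G + C d * X ^ e) ^ i * G ^ (r + 1 - 1 - i)).coeff n = 0 := by
      intro n hn
      rw [finsetSum_coeff]
      refine sum_eq_zero fun i hi => ?_
      apply coeff_eq_zero_of_natDegree_lt
      rw [(hterm i hi).2]
      exact hn
    have hid : f - (G + C d * X ^ e) ^ (r + 1) = (f - G ^ (r + 1)) -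
        C d * ((∑ i ∈ range (r + 1), (G + C d * X ^ e) ^ i * G ^ (r + 1 - 1 - i)) * X ^ e) := by
      have h1 := geom_sum₂_mul (G + C d * X ^ e) G (r + 1)
      linear_combination h1
    have hmul : (r + 1) * (e + (k + 1)) = r * (e + (k + 1)) + (e + (k + 1)) := by ring
    rw [hid, coeff_sub, coeff_C_mul]
    rw [hmul] at hmk
    by_cases hcase : m = r * (e + (k + 1)) + e
    · rw [hcase, coeff_mul_X_pow, hS1, hd']
      ring
    · have h1 : (f - G ^ (r + 1)).coeff m = 0 := by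
        apply hG
        rw [hmul]
        omega
      obtain ⟨n, rfl⟩ : ∃ n, m = n + e := ⟨m - e, by omega⟩
      rw [h1, coeff_mul_X_pow, hS2 n (by omega), mul_zero, sub_zero]

/-- distinct nonnegative integers have distant powers -/
private theorem runge_pow {q : ℕ} (hq : 1 ≤ q) {a b : ℤ} (ha : 0 ≤ a) (hb : 0 ≤ b) (hab : a ≠ b) :
    b ^ (q - 1) ≤ |a ^ q - b ^ q| := by
  rw [← geom_sum₂_mul a b q, abs_mul]
  have h1 : b ^ (q - 1) ≤ ∑ i ∈ range q, a ^ i * b ^ (q - 1 - i) := by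
    have h2 : a ^ 0 * b ^ (q - 1 - 0) ≤ ∑ i ∈ range q, a ^ i * b ^ (q - 1 - i) :=
      single_le_sum (f := fun i => a ^ i * b ^ (q - 1 - i))
        (fun i _ => mul_nonneg (pow_nonneg ha i) (pow_nonneg hb _)) (mem_range.2 hq)
    rwa [pow_zero, one_mul, Nat.sub_zero] at h2
  have h3 : 1 ≤ |a - b| := Int.one_le_abs (sub_ne_zero.2 hab)
  have h4 : 0 ≤ b ^ (q - 1) := pow_nonneg hb _
  have h5 := le_trans h1 (le_abs_self _)
  calc b ^ (q - 1) = b ^ (q - 1) * 1 := (mul_one _).symm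
    _ ≤ _ := mul_le_mul h5 h3 zero_le_one (le_trans h4 h5)

/-- clearing denominators -/
private theorem runge_int (G : ℚ[X]) : ∃ (D : ℤ) (H : ℤ[X]), 0 < D ∧
    H.map (Int.castRingHom ℚ) = C (D : ℚ) * G := by
  obtain ⟨b, hbm, hb⟩ := IsLocalization.integerNormalization_spec (nonZeroDivisors ℤ) G
  have hb0 : b ≠ 0 := nonZeroDivisors.ne_zero hbm
  refine ⟨b * b, C b * IsLocalization.integerNormalization (nonZeroDivisors ℤ) G,
    mul_self_pos.2 hb0, ?_⟩
  have h1 : (IsLocalization.integerNormalization (nonZeroDivisors ℤ) G).map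
      (Int.castRingHom ℚ) = C (b : ℚ) * G := by
    have h2 : (algebraMap ℤ ℚ) = Int.castRingHom ℚ := rfl
    rw [h2] at hb
    rw [hb, zsmul_eq_mul]
    congr 1
  rw [Polynomial.map_mul, h1, map_C, ← mul_assoc, ← C_mul]
  congr 2
  push_cast
  rfl

private theorem runge_ev {P Q : ℝ[X]} (h : Q.degree < P.degree) (hP : 0 < P.degree)
    (hl : 0 < P.leadingCoeff) : ∀ᶠ x : ℝ in Filter.atTop, 0 < P.eval x - Q.eval x := by
  have h1 : (P - Q).degree = P.degree := degree_sub_eq_left_of_degree_lt h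
  have h2 : (P - Q).leadingCoeff = P.leadingCoeff := leadingCoeff_sub_of_degree_lt h
  have h3 := (P - Q).tendsto_atTop_of_leadingCoeff_nonneg (by rw [h1]; exact hP)
    (by rw [h2]; exact hl.le)
  filter_upwards [h3.eventually_gt_atTop 0] with x hx
  rwa [eval_sub] at hx

theorem runge {q J : ℕ} (hq : 2 ≤ q) {F : ℤ[X]} (hm : F.Monic) (hd : F.natDegree = q * J)
    (hF : ∀ G : ℚ[X], G ^ q ≠ F.map (Int.castRingHom ℚ)) :
    ∃ Z0 : ℕ, ∀ z t : ℕ, Z0 ≤ z → ((t : ℤ)) ^ q ≠ F.eval (z : ℤ) := by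
  have hfm : (F.map (Int.castRingHom ℚ)).Monic := hm.map _
  have hfd : (F.map (Int.castRingHom ℚ)).natDegree = q * J := by
    rw [hm.natDegree_map, hd]
  obtain ⟨G, hGm, hGd, hG⟩ := runge_root (by omega) hfm hfd J le_rfl
  have hE0 : F.map (Int.castRingHom ℚ) - G ^ q ≠ 0 := fun h => hF G (sub_eq_zero.1 h).symm
  have hJ : J ≠ 0 := by
    rintro rfl
    apply hE0
    ext m
    rw [coeff_zero]
    exact hG m (by omega)
  obtain ⟨D, H, hD, hH⟩ := runge_int G
  have hmul : (q - 1) * J + J = q * J := by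
    have h1 : q - 1 + 1 = q := by omega
    calc (q - 1) * J + J = (q - 1 + 1) * J := by ring
      _ = q * J := by rw [h1]
  -- real polynomials
  have hEd : ((F.map (Int.castRingHom ℚ) - G ^ q).map (algebraMap ℚ ℝ)).degree <
      (((q - 1) * J : ℕ) : WithBot ℕ) := by
    rw [degree_map]
    rw [degree_lt_iff_coeff_zero]
    intro m hmm
    apply hG
    omega
  have hGr : (G.map (algebraMap ℚ ℝ)).Monic := hGm.map _
  have hGrd : (G.map (algebraMap ℚ ℝ)).natDegree = J := by rw [hGm.natDegree_map, hGd]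
  have hDr : (0 : ℝ) < (D : ℝ) := by exact_mod_cast hD
  have hPd : (C ((D : ℝ) ^ (q - 1)) * (G.map (algebraMap ℚ ℝ)) ^ (q - 1)).degree =
      (((q - 1) * J : ℕ) : WithBot ℕ) := by
    rw [degree_C_mul (pow_ne_zero _ hDr.ne'), degree_eq_natDegree (hGr.pow _).ne_zero,
      hGr.natDegree_pow, hGrd]
  have hPl : (C ((D : ℝ) ^ (q - 1)) * (G.map (algebraMap ℚ ℝ)) ^ (q - 1)).leadingCoeff =
      (D : ℝ) ^ (q - 1) := by
    rw [leadingCoeff_mul, leadingCoeff_C, (hGr.pow _).leadingCoeff, mul_one]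
  have hpos : (0 : WithBot ℕ) < (((q - 1) * J : ℕ) : WithBot ℕ) := by
    have : 0 < (q - 1) * J := Nat.mul_pos (by omega) (Nat.pos_of_ne_zero hJ)
    exact_mod_cast this
  have hQd : ∀ s : ℝ, s ≠ 0 → (C s * (F.map (Int.castRingHom ℚ) - G ^ q).map
      (algebraMap ℚ ℝ)).degree <
      (C ((D : ℝ) ^ (q - 1)) * (G.map (algebraMap ℚ ℝ)) ^ (q - 1)).degree := by
    intro s hs
    rw [degree_C_mul hs, hPd]
    exact hEd
  have e1 := runge_ev (hQd ((D : ℝ) ^ q) (pow_ne_zero _ hDr.ne')) (by rw [hPd]; exact hpos)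
    (by rw [hPl]; exact pow_pos hDr _)
  have e2 := runge_ev (hQd (-(D : ℝ) ^ q) (neg_ne_zero.2 (pow_ne_zero _ hDr.ne')))
    (by rw [hPd]; exact hpos) (by rw [hPl]; exact pow_pos hDr _)
  have e3 := ((G.map (algebraMap ℚ ℝ)).tendsto_atTop_of_leadingCoeff_nonneg (by
      rw [degree_eq_natDegree hGr.ne_zero, hGrd]
      exact_mod_cast Nat.pos_of_ne_zero hJ) (by
      rw [hGr.leadingCoeff]
      exact zero_le_one)).eventually_gt_atTop 0
  have hE0r : (F.map (Int.castRingHom ℚ) - G ^ q).map (algebraMap ℚ ℝ) ≠ 0 :=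
    (Polynomial.map_ne_zero_iff (algebraMap ℚ ℝ).injective).2 hE0
  have e4 := eventually_atTop_not_isRoot _ hE0r
  have e5 := tendsto_natCast_atTop_atTop.eventually (e1.and (e2.and (e3.and e4)))
  obtain ⟨Z0, hZ0⟩ := Filter.eventually_atTop.1 e5
  refine ⟨Z0, fun z t hz ht => ?_⟩
  obtain ⟨g1, g2, g3, g4⟩ := hZ0 z hz
  -- values
  have hFz : ((F.map (Int.castRingHom ℚ)).map (algebraMap ℚ ℝ)).eval (z : ℝ) = (t : ℝ) ^ q := by
    rw [Polynomial.map_map]
    have h1 : ((z : ℤ) : ℝ) = (z : ℝ) := by push_cast; rfl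
    have h2 : ((algebraMap ℚ ℝ).comp (Int.castRingHom ℚ)) = Int.castRingHom ℝ :=
      RingHom.ext_int _ _
    rw [h2, ← h1, ← eq_intCast (Int.castRingHom ℝ) (z : ℤ), eval_map_apply, ← ht]
    simp
  have hHz : ((H.eval (z : ℤ) : ℤ) : ℝ) = (D : ℝ) * (G.map (algebraMap ℚ ℝ)).eval (z : ℝ) := by
    have h0 : (H.map (Int.castRingHom ℚ)).map (algebraMap ℚ ℝ) =
        C (D : ℝ) * G.map (algebraMap ℚ ℝ) := by
      rw [hH, Polynomial.map_mul, map_C]
      congr 2
    have h1 : ((z : ℤ) : ℝ) = (z : ℝ) := by push_cast; rfl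
    have h2 : ((algebraMap ℚ ℝ).comp (Int.castRingHom ℚ)) = Int.castRingHom ℝ :=
      RingHom.ext_int _ _
    have h3 := congrArg (Polynomial.eval (z : ℝ)) h0
    rw [Polynomial.map_map, h2, ← h1, ← eq_intCast (Int.castRingHom ℝ) (z : ℤ), eval_map_apply,
      eval_mul, eval_C] at h3
    rw [eq_intCast] at h3
    rw [h3]
    simp
  have hEz : ((F.map (Int.castRingHom ℚ) - G ^ q).map (algebraMap ℚ ℝ)).eval (z : ℝ) =
      (t : ℝ) ^ q - ((G.map (algebraMap ℚ ℝ)).eval (z : ℝ)) ^ q := by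
    rw [Polynomial.map_sub, eval_sub, hFz, Polynomial.map_pow, eval_pow]
  have hb : 0 < H.eval (z : ℤ) := by
    have h1 : (0 : ℝ) < ((H.eval (z : ℤ) : ℤ) : ℝ) := by
      rw [hHz]
      exact mul_pos hDr g3
    exact_mod_cast h1
  have ha : 0 ≤ D * (t : ℤ) := mul_nonneg hD.le (Int.natCast_nonneg t)
  have hab : D * (t : ℤ) ≠ H.eval (z : ℤ) := by
    intro h
    apply g4
    have h1 : (D : ℝ) * (t : ℝ) = (D : ℝ) * (G.map (algebraMap ℚ ℝ)).eval (z : ℝ) := by
      rw [← hHz, ← h]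
      push_cast
      rfl
    have h2 := mul_left_cancel₀ hDr.ne' h1
    rw [IsRoot.def, hEz, ← h2, sub_self]
  have hkey := runge_pow (q := q) (by omega) ha hb.le hab
  have hkey' : ((H.eval (z : ℤ) : ℤ) : ℝ) ^ (q - 1) ≤
      |((D : ℝ) * (t : ℝ)) ^ q - ((H.eval (z : ℤ) : ℤ) : ℝ) ^ q| := by
    exact_mod_cast hkey
  rw [hHz, mul_pow, mul_pow, mul_pow, ← mul_sub, ← hEz, abs_mul, abs_of_pos (pow_pos hDr q)]
    at hkey'
  rw [eval_mul, eval_mul, eval_C, eval_C, eval_pow] at g1 g2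
  rcases abs_cases (((F.map (Int.castRingHom ℚ) - G ^ q).map (algebraMap ℚ ℝ)).eval (z : ℝ))
    with h | h
  · rw [h.1] at hkey'
    linarith
  · rw [h.1] at hkey'
    linarith

end Pool.Agent.NLC
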